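import Mathlib

open MeasureTheory ProbabilityTheory
open scoped ENNReal

namespace Run7.h255.Kost

/-- The real Kostlan form of degree `N` with coefficients `a`, evaluated at `x ∈ ℝ³`. The index
runs over all exponents `α : Fin 3 → ℕ` with `α 0 + α 1 + α 2 = N`. -/
noncomputable def form (N : ℕ) (a : ↥(Finset.piAntidiag (Finset.univ : Finset (Fin 3)) N) → ℝ)
    (x : EuclideanSpace ℝ (Fin 3)) : ℝ :=
  ∑ α, a α * Real.sqrt (Nat.multinomial Finset.univ α.1) * ∏ i, x i ^ (α.1 i)

/-- The real projective plane. -/
def RP2 : Type := Projectivization ℝ (EuclideanSpace ℝ (Fin 3))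

/-- The quotient topology on the real projective plane. -/
instance : TopologicalSpace RP2 :=
  inferInstanceAs (TopologicalSpace
    (Quotient (projectivizationSetoid ℝ (EuclideanSpace ℝ (Fin 3)))))

/-- The zero set of the form in the real projective plane. -/
def curve (N : ℕ) (a : ↥(Finset.piAntidiag (Finset.univ : Finset (Fin 3)) N) → ℝ) : Set RP2 :=
  {p | form N a (Projectivization.rep p) = 0}

/-- The expected number of connected components of the zero set, the coefficients being
independent standard Gaussians. -/
noncomputable def expectedComponents (N : ℕ) : ℝ≥0∞ :=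
  ∫⁻ a, ((ENat.card (ConnectedComponents (curve N a)) : ℕ∞) : ℝ≥0∞)
    ∂(Measure.pi fun _ : ↥(Finset.piAntidiag (Finset.univ : Finset (Fin 3)) N) =>
      gaussianReal 0 1)

end Run7.h255.Kost
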