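import Mathlib

open MeasureTheory ProbabilityTheory
open scoped ENNReal RealInnerProductSpace

namespace Run7.h255.Kost

/-- ambient space -/
abbrev V3 := EuclideanSpace ℝ (Fin 3)

/-- exponents of total degree N -/
abbrev Idx (N : ℕ) := ↥(Finset.piAntidiag (Finset.univ : Finset (Fin 3)) N)

/-- coefficient space -/
abbrev Co (N : ℕ) := EuclideanSpace ℝ (Idx N)

/-- normalised monomial -/
noncomputable def mono (N : ℕ) (α : Idx N) (x : Fin 3 → ℝ) : ℝ :=
  Real.sqrt (Nat.multinomial Finset.univ α.1) * ∏ i, x i ^ (α.1 i)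

/-- feature vector -/
noncomputable def feat (N : ℕ) (x : V3) : Co N := WithLp.toLp 2 (fun α => mono N α x)

lemma inner_feat (N : ℕ) (x y : V3) : ⟪feat N x, feat N y⟫ = ⟪x, y⟫ ^ N := by
  have h1 : ⟪x, y⟫ = ∑ i : Fin 3, x i * y i := by
    simp [PiLp.inner_apply, mul_comm]
  rw [h1, Finset.sum_pow_eq_sum_piAntidiag, ← Finset.sum_coe_sort]
  simp only [feat, PiLp.inner_apply]
  refine Finset.sum_congr rfl fun α _ => ?_
  have h2 : (0:ℝ) ≤ (Nat.multinomial Finset.univ α.1 : ℝ) := Nat.cast_nonneg _
  simp only [mono, RCLike.inner_apply, conj_trivial, mul_pow, Finset.prod_mul_distrib]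
  have h3 := Real.mul_self_sqrt h2
  calc _ = (Real.sqrt (Nat.multinomial Finset.univ α.1) * Real.sqrt (Nat.multinomial Finset.univ α.1))
        * ((∏ i, x i ^ (α.1 i)) * ∏ i, y i ^ (α.1 i)) := by ring
    _ = _ := by rw [h3]

lemma continuous_feat (N : ℕ) : Continuous (feat N) := by
  unfold feat mono
  fun_prop

/-- a coefficient vector orthogonal to all features vanishes -/
lemma eq_zero_of_inner_feat (N : ℕ) (a : Co N) (h : ∀ x : V3, ⟪a, feat N x⟫ = 0) : a = 0 := by
  classical
  set p : MvPolynomial (Fin 3) ℝ := ∑ α : Idx N,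
    MvPolynomial.monomial (Finsupp.equivFunOnFinite.symm α.1)
      (a α * Real.sqrt (Nat.multinomial Finset.univ α.1)) with hp
  have hp0 : p = 0 := by
    apply MvPolynomial.funext
    intro x
    have := h (WithLp.toLp 2 x)
    rw [hp, map_sum, map_zero]
    rw [← this]
    simp only [feat, PiLp.inner_apply, mono]
    refine Finset.sum_congr rfl fun α _ => ?_
    rw [MvPolynomial.eval_monomial, Finsupp.prod_fintype _ _ (by intro i; simp)]
    simp only [RCLike.inner_apply, conj_trivial]
    simp [Finsupp.equivFunOnFinite]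
    ring
  ext α
  have h1 : MvPolynomial.coeff (Finsupp.equivFunOnFinite.symm α.1) p =
      a α * Real.sqrt (Nat.multinomial Finset.univ α.1) := by
    rw [hp, MvPolynomial.coeff_sum, Finset.sum_eq_single α]
    · simp
    · intro β _ hβ
      rw [MvPolynomial.coeff_monomial, if_neg]
      intro h
      apply hβ
      exact Subtype.ext (Finsupp.equivFunOnFinite.symm.injective h)
    · simp
  rw [hp0, MvPolynomial.coeff_zero] at h1
  have h2 : Real.sqrt (Nat.multinomial Finset.univ α.1 : ℝ) ≠ 0 := by
    have : (0:ℝ) < (Nat.multinomial Finset.univ α.1 : ℝ) := by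
      exact_mod_cast Nat.multinomial_pos _ _
    exact (Real.sqrt_pos.mpr this).ne'
  have := (mul_eq_zero.mp h1.symm).resolve_right h2
  simpa using this

lemma span_feat (N : ℕ) : Submodule.span ℝ (Set.range (feat N)) = ⊤ := by
  rw [← Submodule.orthogonal_eq_bot_iff, Submodule.eq_bot_iff]
  intro a ha
  apply eq_zero_of_inner_feat
  intro x
  rw [Submodule.mem_orthogonal] at ha
  rw [real_inner_comm]
  exact ha _ (Submodule.subset_span ⟨x, rfl⟩)

/-- finitely many points whose features form a basis -/
lemma exists_basis (N : ℕ) : ∃ (n : ℕ) (x : Fin n → V3) (b : Module.Basis (Fin n) ℝ (Co N)),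
    ∀ i, b i = feat N (x i) := by
  obtain ⟨f, hf, hspan, hli⟩ := Submodule.exists_fun_fin_finrank_span_eq ℝ (Set.range (feat N))
  choose x hx using hf
  refine ⟨_, x, Module.Basis.mk hli (by rw [hspan, span_feat]), fun i => ?_⟩
  rw [Module.Basis.mk_apply, hx]

/-- the rotation acts on coefficients by an isometry -/
lemma exists_iso (N : ℕ) (H : V3 ≃ₗᵢ[ℝ] V3) :
    ∃ U : Co N ≃ₗᵢ[ℝ] Co N, ∀ a x, ⟪U a, feat N x⟫ = ⟪a, feat N (H x)⟫ := by
  obtain ⟨n, x, b, hb⟩ := exists_basis N
  set L : Co N →ₗ[ℝ] Co N := b.constr ℝ (fun j => feat N (H (x j))) with hL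
  have hLb : ∀ j, L (b j) = feat N (H (x j)) := fun j => by
    rw [hL, Module.Basis.constr_basis]
  have hLin : ∀ u v, ⟪L u, L v⟫ = ⟪u, v⟫ := by
    have : (innerₗ (Co N)).compl₁₂ L L = innerₗ (Co N) := by
      refine b.ext fun i => b.ext fun j => ?_
      rw [LinearMap.compl₁₂_apply, innerₗ_apply_apply, innerₗ_apply_apply, hLb, hLb, hb, hb,
        inner_feat, inner_feat, LinearIsometryEquiv.inner_map_map]
    intro u v
    have := congrArg (fun B => B u v) this
    simpa using this
  set Li : Co N →ₗᵢ[ℝ] Co N := L.isometryOfInner hLin with hLi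
  set Le : Co N ≃ₗᵢ[ℝ] Co N := Li.toLinearIsometryEquiv rfl with hLe
  have hLeL : ∀ u, Le u = L u := fun u => rfl
  have hfeat : ∀ y, Le (feat N y) = feat N (H y) := by
    intro y
    apply ext_inner_right ℝ
    intro v
    obtain ⟨w, rfl⟩ := Le.surjective v
    have hw : w ∈ Submodule.span ℝ (Set.range b) := by rw [b.span_eq]; trivial
    induction hw using Submodule.span_induction with
    | mem w hw =>
      obtain ⟨j, rfl⟩ := hw
      rw [LinearIsometryEquiv.inner_map_map, hLeL (b j), hLb, hb, inner_feat, inner_feat,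
        LinearIsometryEquiv.inner_map_map]
    | zero => simp
    | add u v _ _ hu hv => rw [map_add, inner_add_right, inner_add_right, hu, hv]
    | smul c u _ hu => rw [map_smul, inner_smul_right, inner_smul_right, hu]
  refine ⟨Le.symm, fun a y => ?_⟩
  rw [← hfeat, ← LinearIsometryEquiv.inner_map_map Le, LinearIsometryEquiv.apply_symm_apply]

/-- measurability criterion through inner products with a basis -/
lemma measurable_of_inner {Ω : Type*} [MeasurableSpace Ω] (N : ℕ) (w : Ω → Co N)
    (h : ∀ x : V3, Measurable fun ω => ⟪w ω, feat N x⟫) : Measurable w := by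
  obtain ⟨n, x, b, hb⟩ := exists_basis N
  let T : Co N →ₗ[ℝ] (Fin n → ℝ) := LinearMap.pi fun j => (innerₗ (Co N)).flip (b j)
  have hT : ∀ u j, T u j = ⟪u, b j⟫ := fun u j => rfl
  have hinj : Function.Injective T := by
    rw [injective_iff_map_eq_zero]
    intro u hu
    apply ext_inner_right ℝ
    intro v
    have hv : v ∈ Submodule.span ℝ (Set.range b) := by rw [b.span_eq]; trivial
    induction hv using Submodule.span_induction with
    | mem v hv =>
      obtain ⟨j, rfl⟩ := hv
      have := congrFun hu j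
      rw [hT] at this
      simpa using this
    | zero => simp
    | add u v _ _ hu hv => rw [inner_add_right, inner_add_right, hu, hv]
    | smul c u _ hu => rw [inner_smul_right, inner_smul_right, hu]
  have hdim : Module.finrank ℝ (Co N) = Module.finrank ℝ (Fin n → ℝ) := by
    rw [Module.finrank_eq_card_basis b]; simp
  let Te : Co N ≃ₗ[ℝ] (Fin n → ℝ) := LinearEquiv.ofInjectiveOfFinrankEq T hinj hdim
  have hTe : ∀ u, Te u = T u := fun u => rfl
  have h1 : Measurable fun ω => T (w ω) := by
    rw [measurable_pi_iff]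
    intro j
    simp only [hT, hb]
    exact h _
  have h2 : Measurable (Te.symm : (Fin n → ℝ) → Co N) :=
    (LinearMap.continuous_of_finiteDimensional (Te.symm : (Fin n → ℝ) →ₗ[ℝ] Co N)).measurable
  have h3 : w = fun ω => Te.symm (T (w ω)) := by
    funext ω
    rw [← hTe, LinearEquiv.symm_apply_apply]
  rw [h3]
  exact h2.comp h1

end Run7.h255.Kost
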