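import Mathlib
import Pool.Agent.Run7.h255.Kost.A

open MeasureTheory ProbabilityTheory
open scoped ENNReal RealInnerProductSpace

namespace Run7.h255.Kost

/-- open round cone around `y` -/
def KI (r : ℝ) (y : V3) : Set V3 := {q | ‖q - ⟪q, y⟫ • y‖ < r * ⟪q, y⟫}

/-- the component of the sign region containing `y` -/
def DD (P : V3 → ℝ) (r : ℝ) (y : V3) : Set V3 := {q | q ∈ KI r y ∧ 0 < P y * P q}

/-- a good centre: the form restricted to the disc of radius `r` around `y` has a star-shaped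
sign region around `y`, is of the opposite sign on the boundary, and the largest value of the
normalised form is attained within distance `d`. -/
structure Good (P : V3 → ℝ) (r d : ℝ) (y : V3) : Prop where
  unit : ‖y‖ = 1
  ray : ∀ v, ⟪v, y⟫ = 0 → v ≠ 0 → ‖v‖ ≤ r → ∀ t : ℝ, 0 < t → t < 1 →
    t ^ 2 * (P y * P (y + v)) < P y * P (y + t • v)
  bd : ∀ v, ⟪v, y⟫ = 0 → ‖v‖ = r → P y * P (y + v) < 0
  mark : ∃ w, ⟪w, y⟫ = 0 ∧ ‖w‖ ≤ d ∧ ‖w‖ < r ∧ 0 < P y * P (y + w) ∧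
    ∀ v, ⟪v, y⟫ = 0 → d < ‖v‖ → ‖v‖ ≤ r → 0 < P y * P (y + v) → |P (y + v)| < |P (y + w)|

variable {P : V3 → ℝ} {N : ℕ} {r d : ℝ}

section

variable (hP : Continuous P) (hom : ∀ (t : ℝ) (x : V3), P (t • x) = t ^ N * P x)

lemma exists_perp (y : V3) (r : ℝ) (hr : 0 ≤ r) : ∃ v : V3, ⟪v, y⟫ = 0 ∧ ‖v‖ = r := by
  have h1 : 0 < Module.finrank ℝ (ℝ ∙ y)ᗮ := by
    have h2 := Submodule.finrank_add_finrank_orthogonal (ℝ ∙ y)
    have h3 : Module.finrank ℝ (ℝ ∙ y) ≤ 1 := (finrank_span_le_card {y}).trans (by simp)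
    have h4 : Module.finrank ℝ V3 = 3 := by simp
    omega
  obtain ⟨u, hu⟩ := Module.finrank_pos_iff_exists_ne_zero.mp h1
  have hu' : (u : V3) ≠ 0 := by simpa using hu
  have hn : ‖(u : V3)‖ ≠ 0 := norm_ne_zero_iff.mpr hu'
  refine ⟨(r * ‖(u : V3)‖⁻¹) • (u : V3), ?_, ?_⟩
  · rw [inner_smul_left]
    have := Submodule.mem_orthogonal_singleton_iff_inner_left.mp u.2
    rw [this]; simp
  · rw [norm_smul, Real.norm_of_nonneg (by positivity)]
    field_simp

/-- the circle of radius `r` around `y` in the tangent plane is connected -/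
lemma preconn_circle (y : V3) (r : ℝ) :
    IsPreconnected {q : V3 | ∃ v, ⟪v, y⟫ = 0 ∧ ‖v‖ = r ∧ q = y + v} := by
  have h1 : 1 < Module.rank ℝ (ℝ ∙ y)ᗮ := by
    have h2 := Submodule.finrank_add_finrank_orthogonal (ℝ ∙ y)
    have h3 : Module.finrank ℝ (ℝ ∙ y) ≤ 1 := (finrank_span_le_card {y}).trans (by simp)
    have h4 : Module.finrank ℝ V3 = 3 := by simp
    have h5 : 1 < Module.finrank ℝ (ℝ ∙ y)ᗮ := by omega
    rw [← Module.finrank_eq_rank]
    exact_mod_cast h5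
  have h6 := isPreconnected_sphere h1 0 r
  have h7 : {q : V3 | ∃ v, ⟪v, y⟫ = 0 ∧ ‖v‖ = r ∧ q = y + v} =
      (fun u : (ℝ ∙ y)ᗮ => y + (u : V3)) '' Metric.sphere 0 r := by
    ext q
    simp only [Set.mem_ofPred_eq, Set.mem_image, mem_sphere_iff_norm, sub_zero]
    constructor
    · rintro ⟨v, hv, hvr, rfl⟩
      exact ⟨⟨v, Submodule.mem_orthogonal_singleton_iff_inner_left.mpr hv⟩, hvr, rfl⟩
    · rintro ⟨u, hu, rfl⟩
      exact ⟨u, Submodule.mem_orthogonal_singleton_iff_inner_left.mp u.2, hu, rfl⟩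
  rw [h7]
  exact h6.image _ (by fun_prop)

lemma KI_pos {y q : V3} (hr : 0 < r) (h : q ∈ KI r y) : 0 < ⟪q, y⟫ := by
  have h1 : ‖q - ⟪q, y⟫ • y‖ < r * ⟪q, y⟫ := h
  have h2 := norm_nonneg (q - ⟪q, y⟫ • y)
  by_contra hc
  push Not at hc
  nlinarith

/-- polar representation of a point of the cone -/
lemma rep {y q : V3} (hy : ‖y‖ = 1) (h : 0 < ⟪q, y⟫) :
    ∃ v, ⟪v, y⟫ = 0 ∧ q = ⟪q, y⟫ • (y + v) ∧ ‖q - ⟪q, y⟫ • y‖ = ⟪q, y⟫ * ‖v‖ := by
  refine ⟨(⟪q, y⟫)⁻¹ • (q - ⟪q, y⟫ • y), ?_, ?_, ?_⟩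
  · rw [inner_smul_left, inner_sub_left, inner_smul_left, real_inner_self_eq_norm_sq, hy]
    simp
  · rw [smul_add, smul_inv_smul₀ h.ne']
    simp
  · rw [norm_smul, norm_inv, Real.norm_of_nonneg h.le, mul_inv_cancel_left₀ h.ne']

lemma inner_add_perp {y v : V3} (hy : ‖y‖ = 1) (hv : ⟪v, y⟫ = 0) (s : ℝ) :
    ⟪s • (y + v), y⟫ = s := by
  rw [inner_smul_left, inner_add_left, hv, real_inner_self_eq_norm_sq, hy]; simp

lemma norm_perp_part {y v : V3} (hy : ‖y‖ = 1) (hv : ⟪v, y⟫ = 0) (s : ℝ) (hs : 0 ≤ s) :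
    ‖s • (y + v) - ⟪s • (y + v), y⟫ • y‖ = s * ‖v‖ := by
  rw [inner_add_perp hy hv, smul_add, add_sub_cancel_left, norm_smul, Real.norm_of_nonneg hs]

lemma mem_KI {y v : V3} (hy : ‖y‖ = 1) (hv : ⟪v, y⟫ = 0) {s : ℝ} (hs : 0 < s) (hvr : ‖v‖ < r) :
    s • (y + v) ∈ KI r y := by
  show ‖s • (y + v) - ⟪s • (y + v), y⟫ • y‖ < r * ⟪s • (y + v), y⟫
  rw [norm_perp_part hy hv s hs.le, inner_add_perp hy hv]
  nlinarith

lemma isOpen_KI (y : V3) : IsOpen (KI r y) := by
  apply isOpen_lt <;> fun_prop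

include hom in
lemma P_zero (hN : N ≠ 0) : P 0 = 0 := by
  have := hom 0 0
  rw [zero_smul, zero_pow hN, zero_mul] at this
  exact this

namespace Good

variable {y : V3} (g : Good P r d y)

include g

lemma Py_ne : P y ≠ 0 := by
  obtain ⟨w, _, _, _, h, _⟩ := g.mark
  intro h0
  rw [h0] at h
  simp at h

lemma d_nonneg : 0 ≤ d := by
  obtain ⟨w, _, h, _⟩ := g.mark
  exact (norm_nonneg w).trans h

lemma r_pos : 0 < r := by
  obtain ⟨w, _, _, h, _⟩ := g.mark
  exact (norm_nonneg w).trans_lt h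

lemma self_mem : y ∈ DD P r y := by
  refine ⟨?_, ?_⟩
  · have := mem_KI (r := r) g.unit (v := 0) (by simp) (s := 1) one_pos (by simpa using g.r_pos)
    simpa using this
  · exact mul_self_pos.mpr g.Py_ne

include hom in
/-- the sign region is star-shaped -/
lemma star : StarConvex ℝ y (DD P r y) := by
  intro q hq a b ha hb hab
  obtain ⟨hqK, hqP⟩ := hq
  have hpos := KI_pos g.r_pos hqK
  obtain ⟨v, hv, hqv, hn⟩ := rep g.unit hpos
  set τ := ⟪q, y⟫ with hτ
  have hvr : ‖v‖ < r := by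
    have h1 : ‖q - ⟪q, y⟫ • y‖ < r * ⟪q, y⟫ := hqK
    rw [← hτ, hn] at h1
    nlinarith
  -- value at q
  have hΦ : 0 < P y * P (y + v) := by
    rw [hqv, hom] at hqP
    have : 0 < τ ^ N := by positivity
    have h2 : P y * (τ ^ N * P (y + v)) = τ ^ N * (P y * P (y + v)) := by ring
    rw [h2] at hqP
    exact (mul_pos_iff_of_pos_left this).mp hqP
  rcases eq_or_lt_of_le hb with hb0 | hb0
  · have ha1 : a = 1 := by linarith
    rw [ha1, ← hb0]; simpa using g.self_mem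
  have hden : 0 < a + b * τ := by positivity
  set t := b * τ / (a + b * τ) with ht
  have ht0 : 0 < t := by positivity
  have ht1 : t ≤ 1 := by rw [ht, div_le_one hden]; linarith
  have hpt : a • y + b • q = (a + b * τ) • (y + t • v) := by
    conv_lhs => rw [hqv]
    rw [smul_add, smul_add, smul_add, add_smul, ht, smul_smul, smul_smul, smul_smul,
      mul_div_cancel₀ _ hden.ne']
    abel
  rw [hpt]
  have htv : ⟪t • v, y⟫ = 0 := by rw [inner_smul_left, hv]; simp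
  refine ⟨mem_KI g.unit htv hden ?_, ?_⟩
  · rw [norm_smul, Real.norm_of_nonneg ht0.le]
    have := norm_nonneg v
    nlinarith
  · have hval : 0 < P y * P (y + t • v) := by
      rcases eq_or_lt_of_le ht1 with h1 | h1
      · rw [h1, one_smul]; exact hΦ
      · by_cases hv0 : v = 0
        · rw [hv0, smul_zero, add_zero]
          exact mul_self_pos.mpr g.Py_ne
        · have := g.ray v hv hv0 hvr.le t ht0 h1
          have : 0 < t ^ 2 * (P y * P (y + v)) := by positivity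
          linarith
    rw [hom]
    have h3 : 0 < (a + b * τ) ^ N := by positivity
    have h4 : P y * ((a + b * τ) ^ N * P (y + t • v)) =
      (a + b * τ) ^ N * (P y * P (y + t • v)) := by ring
    rw [h4]; positivity

include hom in
lemma preconn_DD : IsPreconnected (DD P r y) :=
  ((g.star hom).isPathConnected g.self_mem).isConnected.isPreconnected

include hP in
omit g in
lemma isOpen_DD : IsOpen (DD P r y) := by
  have h1 : DD P r y = KI r y ∩ {q | 0 < P y * P q} := rfl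
  rw [h1]
  exact (isOpen_KI y).inter (isOpen_lt continuous_const (by fun_prop))

include hP hom in
/-- the sign region is relatively closed off the zero set -/
lemma closure_DD (hN : N ≠ 0) {q : V3} (hq : q ∈ closure (DD P r y)) (hPq : P q ≠ 0) :
    q ∈ DD P r y := by
  have h1 : q ∈ {q : V3 | ‖q - ⟪q, y⟫ • y‖ ≤ r * ⟪q, y⟫} := by
    refine closure_minimal ?_ (isClosed_le (by fun_prop) (by fun_prop)) hq
    intro q hq
    have h0 : ‖q - ⟪q, y⟫ • y‖ < r * ⟪q, y⟫ := hq.1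
    exact h0.le
  have h2 : q ∈ {q : V3 | 0 ≤ P y * P q} := by
    refine closure_minimal ?_ (isClosed_le continuous_const (by fun_prop)) hq
    intro q hq
    exact hq.2.le
  simp only [Set.mem_ofPred_eq] at h1 h2
  have h3 : 0 < P y * P q := lt_of_le_of_ne h2 (Ne.symm (mul_ne_zero g.Py_ne hPq))
  have hr := g.r_pos
  have hpos : 0 < ⟪q, y⟫ := by
    by_contra hc
    push Not at hc
    have h4 := norm_nonneg (q - ⟪q, y⟫ • y)
    have h5 : ⟪q, y⟫ = 0 := by nlinarith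
    rw [h5] at h1
    simp only [zero_smul, sub_zero, mul_zero, norm_le_zero_iff] at h1
    rw [h1, P_zero hom hN] at hPq
    exact hPq rfl
  refine ⟨?_, h3⟩
  show ‖q - ⟪q, y⟫ • y‖ < r * ⟪q, y⟫
  refine lt_of_le_of_ne h1 ?_
  intro heq
  obtain ⟨v, hv, hqv, hn⟩ := rep g.unit hpos
  rw [hn] at heq
  have hvr : ‖v‖ = r := by
    have : ⟪q, y⟫ * ‖v‖ = ⟪q, y⟫ * r := by linarith
    exact mul_left_cancel₀ hpos.ne' this
  have h6 := g.bd v hv hvr
  rw [hqv, hom] at h3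
  have h7 : 0 < ⟪q, y⟫ ^ N := by positivity
  nlinarith

end Good

end

end Run7.h255.Kost
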