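import Mathlib
import Pool.Agent.Run7.h255.Kost.C1

open MeasureTheory ProbabilityTheory
open scoped ENNReal RealInnerProductSpace

namespace Run7.h255.Kost

variable {P : V3 → ℝ} {N : ℕ} {r d : ℝ}

section

variable (hP : Continuous P) (hom : ∀ (t : ℝ) (x : V3), P (t • x) = t ^ N * P x) (hN : N ≠ 0)

lemma pos_of_sq_pos {x : ℝ} (h0 : 0 ≤ x) (h : 0 < x ^ 2) : 0 < x := by
  rcases eq_or_lt_of_le h0 with h1 | h1
  · rw [← h1] at h; norm_num at h
  · exact h1

lemma smul_KI {y q : V3} (hq : q ∈ KI r y) {s : ℝ} (hs : 0 < s) : s • q ∈ KI r y := by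
  have h : ‖q - ⟪q, y⟫ • y‖ < r * ⟪q, y⟫ := hq
  show ‖s • q - ⟪s • q, y⟫ • y‖ < r * ⟪s • q, y⟫
  have h1 : ⟪s • q, y⟫ = s * ⟪q, y⟫ := by rw [inner_smul_left]; simp
  rw [h1, mul_smul, ← smul_sub, norm_smul, Real.norm_of_nonneg hs.le]
  nlinarith

lemma norm_lt_of_KI {y v : V3} (hy : ‖y‖ = 1) (hv : ⟪v, y⟫ = 0) {s : ℝ} (hs : 0 < s)
    (h : s • (y + v) ∈ KI r y) : ‖v‖ < r := by
  have h1 : ‖s • (y + v) - ⟪s • (y + v), y⟫ • y‖ < r * ⟪s • (y + v), y⟫ := h
  rw [norm_perp_part hy hv s hs.le, inner_add_perp hy hv] at h1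
  nlinarith

lemma norm_sq_add_perp {y v : V3} (hy : ‖y‖ = 1) (hv : ⟪v, y⟫ = 0) :
    ‖y + v‖ ^ 2 = 1 + ‖v‖ ^ 2 := by
  rw [norm_add_sq_real, real_inner_comm, hv, hy]; ring

include hP hom hN in
lemma sub_of_inter {y : V3} (g : Good P r d y) {T : Set V3} (hT : IsPreconnected T)
    (h0 : ∀ q ∈ T, P q ≠ 0) (hne : (T ∩ DD P r y).Nonempty) : T ⊆ DD P r y := by
  refine hT.subset_of_closure_inter_subset (Good.isOpen_DD hP) hne ?_
  rintro q ⟨hq, hqT⟩
  exact g.closure_DD hP hom hN hq (h0 q hqT)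

include hP hom hN in
/-- two good centres sharing a zero have the same sign region -/
theorem DD_eq {y₁ y₂ : V3} (g₁ : Good P r d y₁) (g₂ : Good P r d y₂) {z : V3}
    (hz₁ : z ∈ KI r y₁) (hz₂ : z ∈ KI r y₂) (hPz : P z = 0) : DD P r y₁ = DD P r y₂ := by
  have hr := g₁.r_pos
  have hpos := KI_pos hr hz₁
  obtain ⟨v, hv, hzv, -⟩ := rep g₁.unit hpos
  set τ := ⟪z, y₁⟫ with hτ
  have hvr : ‖v‖ < r := by
    rw [hzv] at hz₁
    exact norm_lt_of_KI g₁.unit hv hpos hz₁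
  have hPv : P (y₁ + v) = 0 := by
    rw [hzv, hom] at hPz
    have : τ ^ N ≠ 0 := by positivity
    exact (mul_eq_zero.mp hPz).resolve_left this
  have hv0 : v ≠ 0 := by
    intro h
    rw [h, add_zero] at hPv
    exact g₁.Py_ne hPv
  have hvn : 0 < ‖v‖ := norm_pos_iff.mpr hv0
  have hK2 : y₁ + v ∈ KI r y₂ := by
    have h1 := smul_KI hz₂ (inv_pos.mpr hpos)
    rwa [hzv, inv_smul_smul₀ hpos.ne'] at h1
  -- neighbourhood of t = 1
  have hcont : Continuous fun t : ℝ => y₁ + t • v := by fun_prop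
  have hev1 : ∀ᶠ t : ℝ in nhds 1, y₁ + t • v ∈ KI r y₂ := by
    apply hcont.continuousAt.eventually
    simp only [one_smul]
    exact (isOpen_KI y₂).mem_nhds hK2
  have hev2 : ∀ᶠ t : ℝ in nhds 1, ‖t • v‖ < r := by
    have hc : Continuous fun t : ℝ => ‖t • v‖ := by fun_prop
    have := hc.continuousAt (x := (1:ℝ))
    apply this.eventually_lt_const
    simpa using hvr
  obtain ⟨ε, hε, hball⟩ := Metric.eventually_nhds_iff.mp (hev1.and hev2)
  set δ := min (ε / 2) (1 / 2) with hδ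
  have hδ0 : 0 < δ := by positivity
  have hδ1 : δ ≤ 1 / 2 := min_le_right _ _
  have hδε : δ < ε := lt_of_le_of_lt (min_le_left _ _) (by linarith)
  have hin := hball (y := 1 - δ) (by rw [Real.dist_eq]; simp [abs_of_pos hδ0, hδε])
  have hout := hball (y := 1 + δ) (by rw [Real.dist_eq]; simp [abs_of_pos hδ0, hδε])
  have hsub : ∀ {a b : V3}, Good P r d a → Good P r d b → (DD P r a ∩ DD P r b).Nonempty →
      DD P r a ⊆ DD P r b := by
    intro a b ga gb hne
    refine sub_of_inter hP hom hN gb (ga.preconn_DD hom) ?_ hne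
    intro q hq h0
    have := hq.2
    rw [h0, mul_zero] at this
    exact lt_irrefl _ this
  rcases lt_or_gt_of_ne (mul_ne_zero g₁.Py_ne g₂.Py_ne) with hneg | hposs
  · exfalso
    -- the outer point
    have htv : ⟪(1 + δ) • v, y₁⟫ = 0 := by rw [inner_smul_left, hv]; simp
    have hne : (1 + δ) • v ≠ 0 := by
      rw [smul_ne_zero_iff]; exact ⟨by linarith, hv0⟩
    have h1 := g₁.ray _ htv hne hout.2.le (1 + δ)⁻¹ (by positivity)
      (inv_lt_one_of_one_lt₀ (by linarith))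
    rw [inv_smul_smul₀ (by linarith : (1 + δ) ≠ 0), hPv, mul_zero] at h1
    have hx1 : P y₁ * P (y₁ + (1 + δ) • v) < 0 := by
      have : 0 < ((1 + δ)⁻¹) ^ 2 := by positivity
      by_contra hc
      push Not at hc
      nlinarith
    have hx2 : 0 < P y₂ * P (y₁ + (1 + δ) • v) := by
      by_contra hc
      push Not at hc
      have h3 : 0 < (P y₁ * P y₂) * (P y₁ * P (y₁ + (1 + δ) • v)) := mul_pos_of_neg_of_neg hneg hx1
      have h4 : (P y₁ * P y₂) * (P y₁ * P (y₁ + (1 + δ) • v)) =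
        P y₁ ^ 2 * (P y₂ * P (y₁ + (1 + δ) • v)) := by ring
      rw [h4] at h3
      have : 0 ≤ P y₁ ^ 2 := sq_nonneg _
      nlinarith
    have hxD : y₁ + (1 + δ) • v ∈ DD P r y₂ := ⟨hout.1, hx2⟩
    set u := (1 + δ) • v with hu
    have hun : 0 < ‖u‖ := norm_pos_iff.mpr hne
    set u' := (r * ‖u‖⁻¹) • u with hu'
    have hu'n : ‖u'‖ = r := by
      rw [hu', norm_smul, Real.norm_of_nonneg (by positivity)]
      field_simp
    have hu'p : ⟪u', y₁⟫ = 0 := by rw [hu', inner_smul_left, htv]; simp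
    set C : Set V3 := {q : V3 | ∃ v, ⟪v, y₁⟫ = 0 ∧ ‖v‖ = r ∧ q = y₁ + v} with hC
    have hTpre : IsPreconnected (segment ℝ (y₁ + u) (y₁ + u') ∪ C) := by
      refine IsPreconnected.union (y₁ + u') (right_mem_segment ℝ _ _) ⟨u', hu'p, hu'n, rfl⟩
        ?_ (preconn_circle y₁ r)
      exact (convex_segment _ _).isPreconnected
    have hTne : ∀ q ∈ segment ℝ (y₁ + u) (y₁ + u') ∪ C, P q ≠ 0 := by
      rintro q (hq | ⟨w, hw, hwr, rfl⟩)
      · obtain ⟨a, b, ha, hb, hab, rfl⟩ := hq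
        have hq2 : a • (y₁ + u) + b • (y₁ + u') = y₁ + (a + b * (r * ‖u‖⁻¹)) • u := by
          have h0 : a • y₁ + b • y₁ = y₁ := by rw [← add_smul, hab, one_smul]
          calc a • (y₁ + u) + b • (y₁ + u')
              = (a • y₁ + b • y₁) + (a + b * (r * ‖u‖⁻¹)) • u := by rw [hu']; module
            _ = _ := by rw [h0]
        rw [hq2]
        set s := a + b * (r * ‖u‖⁻¹) with hs
        have hk : 1 ≤ r * ‖u‖⁻¹ := by
          rw [← div_eq_mul_inv, le_div_iff₀ hun]; linarith [hout.2]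
        have hs1 : 1 ≤ s := by
          have : b ≤ b * (r * ‖u‖⁻¹) := le_mul_of_one_le_right hb hk
          linarith
        have hsr : s * ‖u‖ ≤ r := by
          have h5 : s ≤ r * ‖u‖⁻¹ := by
            have : a ≤ a * (r * ‖u‖⁻¹) := le_mul_of_one_le_right ha hk
            calc s ≤ a * (r * ‖u‖⁻¹) + b * (r * ‖u‖⁻¹) := by linarith
              _ = r * ‖u‖⁻¹ := by rw [← add_mul, hab, one_mul]
          calc s * ‖u‖ ≤ r * ‖u‖⁻¹ * ‖u‖ := by gcongr
            _ = r := by field_simp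
        have hΦ : P y₁ * P (y₁ + s • u) < 0 := by
          rcases eq_or_lt_of_le hs1 with h1 | h1
          · rw [← h1, one_smul]; exact hx1
          · have h6 := g₁.ray (s • u) (by rw [inner_smul_left, htv]; simp)
              (by rw [smul_ne_zero_iff]; exact ⟨by linarith, hne⟩)
              (by rw [norm_smul, Real.norm_of_nonneg (by linarith)]; exact hsr)
              s⁻¹ (by positivity) (inv_lt_one_of_one_lt₀ h1)
            rw [inv_smul_smul₀ (by linarith : s ≠ 0)] at h6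
            have h7 : 0 < (s⁻¹) ^ 2 := by positivity
            by_contra hc
            push Not at hc
            nlinarith
        intro h0
        rw [h0, mul_zero] at hΦ
        exact lt_irrefl _ hΦ
      · intro h0
        have := g₁.bd w hw hwr
        rw [h0, mul_zero] at this
        exact lt_irrefl _ this
    have hTD := sub_of_inter hP hom hN g₂ hTpre hTne
      ⟨y₁ + u, Or.inl (left_mem_segment ℝ _ _), hxD⟩
    -- a boundary point that is too far from `y₂`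
    obtain ⟨w, hw, hwr, hwy⟩ : ∃ w : V3, ⟪w, y₁⟫ = 0 ∧ ‖w‖ = r ∧ ⟪w, y₂⟫ ≤ 0 := by
      obtain ⟨w, hw, hwr⟩ := exists_perp y₁ r hr.le
      rcases le_total ⟪w, y₂⟫ 0 with h | h
      · exact ⟨w, hw, hwr, h⟩
      · exact ⟨-w, by rw [inner_neg_left, hw, neg_zero], by rw [norm_neg, hwr],
          by rw [inner_neg_left]; linarith⟩
    have hmem := (hTD (Or.inr ⟨w, hw, hwr, rfl⟩)).1
    have hq0 := KI_pos hr hmem
    have hq1 : ‖(y₁ + w) - ⟪y₁ + w, y₂⟫ • y₂‖ < r * ⟪y₁ + w, y₂⟫ := hmem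
    have hq2 : ‖(y₁ + w) - ⟪y₁ + w, y₂⟫ • y₂‖ ^ 2 = ‖y₁ + w‖ ^ 2 - ⟪y₁ + w, y₂⟫ ^ 2 := by
      rw [norm_sub_sq_real, inner_smul_right, norm_smul, mul_pow, g₂.unit, Real.norm_eq_abs,
        sq_abs]
      ring
    have hq3 : ‖y₁ + w‖ ^ 2 = 1 + r ^ 2 := by rw [norm_sq_add_perp g₁.unit hw, hwr]
    have hq4 : ⟪y₁ + w, y₂⟫ ≤ 1 := by
      rw [inner_add_left]
      have := real_inner_le_norm y₁ y₂
      rw [g₁.unit, g₂.unit] at this
      linarith
    have hq5 : ‖(y₁ + w) - ⟪y₁ + w, y₂⟫ • y₂‖ ^ 2 < (r * ⟪y₁ + w, y₂⟫) ^ 2 :=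
      pow_lt_pow_left₀ hq1 (norm_nonneg _) two_ne_zero
    rw [hq2, hq3] at hq5
    have hq6 : ⟪y₁ + w, y₂⟫ ^ 2 ≤ 1 := by nlinarith
    nlinarith [sq_nonneg r]
  · -- same sign
    have htv : P y₁ * P (y₁ + (1 - δ) • v) > 0 := by
      have h1 := g₁.ray v hv hv0 hvr.le (1 - δ) (by linarith) (by linarith)
      rw [hPv, mul_zero, mul_zero] at h1
      exact h1
    have htv2 : 0 < P y₂ * P (y₁ + (1 - δ) • v) := by
      by_contra hc
      push Not at hc
      have h3 : 0 < (P y₁ * P y₂) * (P y₁ * P (y₁ + (1 - δ) • v)) := mul_pos hposs htv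
      have h4 : (P y₁ * P y₂) * (P y₁ * P (y₁ + (1 - δ) • v)) =
        P y₁ ^ 2 * (P y₂ * P (y₁ + (1 - δ) • v)) := by ring
      rw [h4] at h3
      have : 0 ≤ P y₁ ^ 2 := sq_nonneg _
      nlinarith
    have hx1 : y₁ + (1 - δ) • v ∈ DD P r y₁ := by
      refine ⟨?_, htv⟩
      have := mem_KI (r := r) g₁.unit (v := (1 - δ) • v) (by rw [inner_smul_left, hv]; simp)
        one_pos hin.2
      rwa [one_smul] at this
    have hx2 : y₁ + (1 - δ) • v ∈ DD P r y₂ := ⟨hin.1, htv2⟩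
    exact Set.Subset.antisymm (hsub g₁ g₂ ⟨_, hx1, hx2⟩) (hsub g₂ g₁ ⟨_, hx2, hx1⟩)

include hP hom hN in
/-- the marker of a sign region -/
theorem exists_marker {y₁ : V3} (g₁ : Good P r d y₁) : ∃ p : V3, ‖p‖ = 1 ∧
    ∀ y, Good P r d y → DD P r y = DD P r y₁ → ‖p - ⟪p, y⟫ • y‖ ≤ d * ⟪p, y⟫ := by
  set S : Set V3 := closure (DD P r y₁) ∩ Metric.sphere 0 1 with hS
  have hSc : IsCompact S := (isCompact_sphere 0 1).inter_left isClosed_closure
  have hy1S : y₁ ∈ S := ⟨subset_closure g₁.self_mem, by simp [g₁.unit]⟩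
  obtain ⟨p, hpS, hmax⟩ := hSc.exists_isMaxOn ⟨y₁, hy1S⟩ (hP.abs.continuousOn)
  have hpn : ‖p‖ = 1 := by simpa using hpS.2
  refine ⟨p, hpn, fun y g hyy => ?_⟩
  have hPp : P p ≠ 0 := by
    have h1 : |P y₁| ≤ |P p| := hmax hy1S
    have h2 : 0 < |P y₁| := abs_pos.mpr g₁.Py_ne
    exact abs_pos.mp (h2.trans_le h1)
  have hpD : p ∈ DD P r y := by
    rw [hyy]; exact g₁.closure_DD hP hom hN hpS.1 hPp
  have hr := g.r_pos
  have hpos := KI_pos hr hpD.1
  obtain ⟨v, hv, hpv, hn⟩ := rep g.unit hpos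
  set τ := ⟪p, y⟫ with hτ
  rw [hn]
  have hvr : ‖v‖ < r := by
    have := hpD.1
    rw [hpv] at this
    exact norm_lt_of_KI g.unit hv hpos this
  by_contra hc
  push Not at hc
  have hdv : d < ‖v‖ := by
    by_contra h
    push Not at h
    nlinarith
  obtain ⟨w, hw, hwd, hwr, hwP, hcomp⟩ := g.mark
  have hΦ : 0 < P y * P (y + v) := by
    have h1 := hpD.2
    rw [hpv, hom] at h1
    have h2 : 0 < τ ^ N := by positivity
    have h3 : P y * (τ ^ N * P (y + v)) = τ ^ N * (P y * P (y + v)) := by ring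
    rw [h3] at h1
    exact (mul_pos_iff_of_pos_left h2).mp h1
  have h4 := hcomp v hv hdv hvr.le hΦ
  have hyw : 0 < ‖y + w‖ := by
    have := norm_sq_add_perp g.unit hw
    have h5 : 0 < ‖y + w‖ ^ 2 := by rw [this]; positivity
    exact pos_of_sq_pos (norm_nonneg _) h5
  have hyv : 0 < ‖y + v‖ := by
    have := norm_sq_add_perp g.unit hv
    have h5 : 0 < ‖y + v‖ ^ 2 := by rw [this]; positivity
    exact pos_of_sq_pos (norm_nonneg _) h5
  have hle : ‖y + w‖ ≤ ‖y + v‖ := by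
    have h5 := norm_sq_add_perp g.unit hw
    have h6 := norm_sq_add_perp g.unit hv
    have h7 : ‖w‖ ≤ ‖v‖ := by linarith
    have h8 : ‖y + w‖ ^ 2 ≤ ‖y + v‖ ^ 2 := by
      rw [h5, h6]
      have := norm_nonneg w
      nlinarith
    exact (sq_le_sq₀ hyw.le hyv.le).mp h8
  have hq : ‖y + w‖⁻¹ • (y + w) ∈ DD P r y := by
    refine ⟨mem_KI g.unit hw (by positivity) hwr, ?_⟩
    rw [hom]
    have h9 : 0 < (‖y + w‖⁻¹) ^ N := by positivity
    have h10 : P y * ((‖y + w‖⁻¹) ^ N * P (y + w)) = (‖y + w‖⁻¹) ^ N * (P y * P (y + w)) := by ring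
    rw [h10]; positivity
  have hqS : ‖y + w‖⁻¹ • (y + w) ∈ S := by
    refine ⟨subset_closure (hyy ▸ hq), ?_⟩
    rw [mem_sphere_iff_norm, sub_zero, norm_smul, norm_inv, norm_norm, inv_mul_cancel₀ hyw.ne']
  have h11 : |P (‖y + w‖⁻¹ • (y + w))| ≤ |P p| := hmax hqS
  have hτv : τ = ‖y + v‖⁻¹ := by
    have h12 : ‖p‖ = τ * ‖y + v‖ := by
      conv_lhs => rw [hpv]
      rw [norm_smul, Real.norm_of_nonneg hpos.le]
    rw [hpn] at h12
    field_simp
    linarith
  have e1 : |P (‖y + w‖⁻¹ • (y + w))| = (‖y + w‖⁻¹) ^ N * |P (y + w)| := by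
    rw [hom, abs_mul, abs_of_pos (by positivity)]
  have e2 : |P p| = (‖y + v‖⁻¹) ^ N * |P (y + v)| := by
    rw [hpv, hom, abs_mul, abs_of_pos (by positivity), hτv]
  rw [e1, e2] at h11
  have h13 : (‖y + v‖⁻¹) ^ N ≤ (‖y + w‖⁻¹) ^ N := by gcongr
  have h14 : 0 < (‖y + v‖⁻¹) ^ N := by positivity
  have h15 : 0 ≤ |P (y + w)| := abs_nonneg _
  nlinarith

include hP in
/-- existence of a zero inside the cone -/
lemma exists_zero {y : V3} (g : Good P r d y) : ∃ z ∈ KI r y, P z = 0 := by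
  have hr := g.r_pos
  obtain ⟨v, hv, hvr⟩ := exists_perp y r hr.le
  have hc : Continuous fun t : ℝ => P y * P (y + t • v) := by fun_prop
  have h0 : 0 ≤ P y * P (y + (0:ℝ) • v) := by
    rw [zero_smul, add_zero]; exact mul_self_nonneg _
  have h1 : P y * P (y + (1:ℝ) • v) ≤ 0 := by
    rw [one_smul]; exact (g.bd v hv hvr).le
  obtain ⟨t, ht, hzero⟩ := intermediate_value_Icc' (zero_le_one) hc.continuousOn ⟨h1, h0⟩
  have ht1 : t ≠ 1 := by
    rintro rfl
    have := g.bd v hv hvr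
    simp only [one_smul] at hzero
    rw [hzero] at this
    exact lt_irrefl _ this
  refine ⟨y + t • v, ?_, ?_⟩
  · have := mem_KI (r := r) g.unit (v := t • v) (by rw [inner_smul_left, hv]; simp) one_pos
      (by
        rw [norm_smul, Real.norm_of_nonneg ht.1, hvr]
        have : t < 1 := lt_of_le_of_ne ht.2 ht1
        nlinarith)
    rwa [one_smul] at this
  · exact (mul_eq_zero.mp hzero).resolve_left g.Py_ne

include hom in
/-- the property is invariant under the antipodal map -/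
lemma good_neg {y : V3} (g : Good P r d y) : Good P r d (-y) := by
  have hneg : ∀ x, P (-x) = (-1) ^ N * P x := by
    intro x
    have := hom (-1) x
    rwa [neg_one_smul] at this
  have hsq : ((-1 : ℝ) ^ N) * ((-1) ^ N) = 1 := by
    rw [← mul_pow]; simp
  have key : ∀ v, P (-y) * P (-y + v) = P y * P (y + (-v)) := by
    intro v
    have h1 : -y + v = -(y + -v) := by abel
    rw [h1, hneg, hneg]
    calc (-1) ^ N * P y * ((-1) ^ N * P (y + -v)) = (((-1) ^ N) * ((-1) ^ N)) * (P y * P (y + -v)) := by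
          ring
      _ = _ := by rw [hsq, one_mul]
  have key2 : ∀ v, |P (-y + v)| = |P (y + (-v))| := by
    intro v
    have h1 : -y + v = -(y + -v) := by abel
    rw [h1, hneg, abs_mul, abs_pow, abs_neg, abs_one, one_pow, one_mul]
  constructor
  · rw [norm_neg]; exact g.unit
  · intro v hv hv0 hvr t ht0 ht1
    rw [inner_neg_right, neg_eq_zero] at hv
    rw [key, key, ← smul_neg]
    exact g.ray (-v) (by rw [inner_neg_left, hv, neg_zero]) (neg_ne_zero.mpr hv0)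
      (by rw [norm_neg]; exact hvr) t ht0 ht1
  · intro v hv hvr
    rw [inner_neg_right, neg_eq_zero] at hv
    rw [key]
    exact g.bd (-v) (by rw [inner_neg_left, hv, neg_zero]) (by rw [norm_neg]; exact hvr)
  · obtain ⟨w, hw, hwd, hwr, hwP, hcomp⟩ := g.mark
    refine ⟨-w, ?_, by rw [norm_neg]; exact hwd, by rw [norm_neg]; exact hwr, ?_, ?_⟩
    · rw [inner_neg_right, inner_neg_left, hw]; simp
    · rw [key, neg_neg]; exact hwP
    · intro v hv hdv hvr hvP
      rw [inner_neg_right, neg_eq_zero] at hv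
      rw [key2, key2, neg_neg]
      rw [key] at hvP
      exact hcomp (-v) (by rw [inner_neg_left, hv, neg_zero]) (by rw [norm_neg]; exact hdv)
        (by rw [norm_neg]; exact hvr) hvP

end

end Run7.h255.Kost
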