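import Mathlib
import Pool.Agent.Run7.h255.Kost.A

open MeasureTheory ProbabilityTheory
open scoped ENNReal RealInnerProductSpace

namespace Run7.h255.Kost

/-- the base point -/
noncomputable def e0 : V3 := EuclideanSpace.single 0 1

lemma norm_e0 : ‖e0‖ = 1 := by simp [e0]

/-- normalisation -/
noncomputable def nrm (y : V3) : V3 := ‖y‖⁻¹ • y

lemma norm_nrm {y : V3} (hy : y ≠ 0) : ‖nrm y‖ = 1 := by
  rw [nrm, norm_smul, norm_inv, norm_norm, inv_mul_cancel₀ (norm_ne_zero_iff.mpr hy)]

/-- a reflection exchanging the base point and the direction of `y` -/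
noncomputable def Hou (y : V3) : V3 ≃ₗᵢ[ℝ] V3 := (ℝ ∙ (e0 - nrm y))ᗮ.reflection

lemma Hou_e0 {y : V3} (hy : y ≠ 0) : Hou y e0 = nrm y := by
  rw [Hou]
  exact Submodule.reflection_sub (by rw [norm_e0, norm_nrm hy])

lemma Hou_apply (y x : V3) : Hou y x =
    x - (2 * (⟪e0 - nrm y, x⟫ / ‖e0 - nrm y‖ ^ 2)) • (e0 - nrm y) := by
  rw [Hou, Submodule.reflection_orthogonal_apply, Submodule.reflection_singleton_apply]
  rw [neg_sub, ← smul_assoc]
  simp

lemma measurable_Hou (x : V3) : Measurable fun y => Hou y x := by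
  simp only [Hou_apply]
  have h1 : Measurable nrm := by unfold nrm; fun_prop
  have h2 : Measurable fun y => e0 - nrm y := measurable_const.sub h1
  have h3 : Measurable fun y => ⟪e0 - nrm y, x⟫ :=
    (continuous_id.inner continuous_const).measurable.comp h2
  have h4 : Measurable fun y => ‖e0 - nrm y‖ := h2.norm
  exact measurable_const.sub (((measurable_const.mul (h3.div (h4.pow_const 2)))).smul h2)

/-- the action on coefficients -/
noncomputable def Uy (N : ℕ) (y : V3) : Co N ≃ₗᵢ[ℝ] Co N := (exists_iso N (Hou y)).choose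

lemma Uy_spec (N : ℕ) (y : V3) (a : Co N) (x : V3) :
    ⟪Uy N y a, feat N x⟫ = ⟪a, feat N (Hou y x)⟫ := (exists_iso N (Hou y)).choose_spec a x

lemma measurable_Uy (N : ℕ) : Measurable fun p : V3 × Co N => Uy N p.1 p.2 := by
  apply measurable_of_inner
  intro x
  simp only [Uy_spec]
  have h1 : Measurable fun p : V3 × Co N => feat N (Hou p.1 x) :=
    (continuous_feat N).measurable.comp ((measurable_Hou x).comp measurable_fst)
  exact (continuous_fst.inner continuous_snd).measurable.comp (measurable_snd.prodMk h1)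

instance instProbCo (N : ℕ) : IsProbabilityMeasure (stdGaussian (Co N)) :=
  isProbabilityMeasure_stdGaussian

instance instProbV : IsProbabilityMeasure (stdGaussian V3) :=
  isProbabilityMeasure_stdGaussian

/-- averaging over the position of the base point -/
theorem tonelli (N : ℕ) (G : Set (Co N)) (hG : MeasurableSet G) (B : Co N → ℝ≥0∞) (κ : ℝ≥0∞)
    (hκ : κ ≠ ∞) (h : ∀ a, stdGaussian V3 {y | Uy N y a ∈ G} ≤ κ * B a) :
    stdGaussian (Co N) G ≤ κ * ∫⁻ a, B a ∂(stdGaussian (Co N)) := by
  have hS : MeasurableSet {p : V3 × Co N | Uy N p.1 p.2 ∈ G} := measurable_Uy N hG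
  have h1 : ∀ y, stdGaussian (Co N) {a | Uy N y a ∈ G} = stdGaussian (Co N) G := by
    intro y
    have h2 := stdGaussian_map (Uy N y)
    calc stdGaussian (Co N) {a | Uy N y a ∈ G} = ((stdGaussian (Co N)).map (Uy N y)) G := by
          rw [Measure.map_apply (Uy N y).continuous.measurable hG]; rfl
      _ = _ := by rw [h2]
  have h3 : ((stdGaussian V3).prod (stdGaussian (Co N))) {p : V3 × Co N | Uy N p.1 p.2 ∈ G}
      = stdGaussian (Co N) G := by
    rw [Measure.prod_apply hS]
    calc _ = ∫⁻ y, stdGaussian (Co N) G ∂(stdGaussian V3) := by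
          refine lintegral_congr fun y => ?_
          exact h1 y
      _ = _ := by simp
  have h4 : ((stdGaussian V3).prod (stdGaussian (Co N))) {p : V3 × Co N | Uy N p.1 p.2 ∈ G}
      = ∫⁻ a, stdGaussian V3 {y | Uy N y a ∈ G} ∂(stdGaussian (Co N)) := by
    rw [Measure.prod_apply_symm hS]; rfl
  calc stdGaussian (Co N) G = ∫⁻ a, stdGaussian V3 {y | Uy N y a ∈ G} ∂(stdGaussian (Co N)) := by
        rw [← h3, h4]
    _ ≤ ∫⁻ a, κ * B a ∂(stdGaussian (Co N)) := lintegral_mono fun a => h a
    _ = _ := lintegral_const_mul' _ _ hκ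

end Run7.h255.Kost
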