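import Mathlib
import Pool.Agent.Run7.h255.Kost.B

open MeasureTheory ProbabilityTheory
open scoped ENNReal RealInnerProductSpace

namespace Run7.h255.Kost

lemma pdf_le (x : ℝ) : gaussianPDF 0 1 x ≤ ENNReal.ofReal (Real.sqrt (2 * Real.pi))⁻¹ := by
  rw [gaussianPDF_def]
  apply ENNReal.ofReal_le_ofReal
  rw [gaussianPDFReal_def]
  simp only [NNReal.coe_one, mul_one, sub_zero]
  have h1 : 0 ≤ (Real.sqrt (2 * Real.pi))⁻¹ := by positivity
  have h2 : Real.exp (-x ^ 2 / 2) ≤ 1 := by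
    rw [Real.exp_le_one_iff]
    have := sq_nonneg x
    linarith
  nlinarith

lemma gaussian_lintegral_le (f : ℝ → ℝ≥0∞) :
    ∫⁻ x, f x ∂(gaussianReal 0 1) ≤ ENNReal.ofReal (Real.sqrt (2 * Real.pi))⁻¹ * ∫⁻ x, f x := by
  rw [gaussianReal_of_var_ne_zero 0 (one_ne_zero), ← lintegral_const_mul' _ _ ENNReal.ofReal_ne_top]
  refine (lintegral_withDensity_le_lintegral_mul _ (measurable_gaussianPDF 0 1) f).trans ?_
  refine lintegral_mono fun x => ?_
  simp only [Pi.mul_apply]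
  gcongr
  exact pdf_le x

lemma gaussian2_le (S : Set (ℝ × ℝ)) (hS : MeasurableSet S) :
    ((gaussianReal 0 1).prod (gaussianReal 0 1)) S ≤ ENNReal.ofReal (2 * Real.pi)⁻¹ * volume S := by
  rw [Measure.prod_apply hS, Measure.volume_eq_prod, Measure.prod_apply hS]
  have h0 : ∀ T : Set ℝ, gaussianReal 0 1 T ≤ ENNReal.ofReal (Real.sqrt (2 * Real.pi))⁻¹ * volume T := by
    intro T
    rw [gaussianReal_apply 0 one_ne_zero, ← setLIntegral_const]
    exact lintegral_mono fun x => pdf_le x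
  calc _ ≤ ∫⁻ x, ENNReal.ofReal (Real.sqrt (2 * Real.pi))⁻¹ * volume (Prod.mk x ⁻¹' S)
          ∂(gaussianReal 0 1) := lintegral_mono fun x => h0 _
    _ = ENNReal.ofReal (Real.sqrt (2 * Real.pi))⁻¹ * ∫⁻ x, volume (Prod.mk x ⁻¹' S)
          ∂(gaussianReal 0 1) := lintegral_const_mul' _ _ ENNReal.ofReal_ne_top
    _ ≤ ENNReal.ofReal (Real.sqrt (2 * Real.pi))⁻¹ * (ENNReal.ofReal (Real.sqrt (2 * Real.pi))⁻¹ *
          ∫⁻ x, volume (Prod.mk x ⁻¹' S)) := by gcongr; exact gaussian_lintegral_le _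
    _ = _ := by
      rw [← mul_assoc, ← ENNReal.ofReal_mul (by positivity)]
      congr 2
      rw [← mul_inv, Real.mul_self_sqrt (by positivity)]

lemma vol_disc (s : ℝ) (hs : 0 ≤ s) :
    volume {p : ℝ × ℝ | p.1 ^ 2 + p.2 ^ 2 ≤ s ^ 2} = ENNReal.ofReal (Real.pi * s ^ 2) := by
  have h1 : MeasurableSet {p : ℝ × ℝ | p.1 ^ 2 + p.2 ^ 2 ≤ s ^ 2} :=
    measurableSet_le (by fun_prop) (by fun_prop)
  rw [← Complex.volume_preserving_equiv_real_prod.measure_preimage h1.nullMeasurableSet]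
  have h2 : (Complex.measurableEquivRealProd ⁻¹' {p : ℝ × ℝ | p.1 ^ 2 + p.2 ^ 2 ≤ s ^ 2}) =
      Metric.closedBall (0 : ℂ) s := by
    ext z
    simp only [Set.mem_preimage, Set.mem_ofPred_eq, Metric.mem_closedBall, dist_zero_right,
      Complex.measurableEquivRealProd_apply]
    rw [← abs_of_nonneg hs, ← abs_of_nonneg (norm_nonneg z), ← sq_le_sq, Complex.sq_norm,
      Complex.normSq_apply, abs_of_nonneg hs]
    constructor <;> intro h <;> nlinarith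
  rw [h2, Complex.volume_closedBall, ← ENNReal.ofReal_pow hs]
  rw [ENNReal.ofReal_mul Real.pi_pos.le, mul_comm]
  congr 1
  rw [ENNReal.ofReal, ← NNReal.coe_real_pi, Real.toNNReal_coe]

lemma second_moment : ∫⁻ x, ENNReal.ofReal (x ^ 2) ∂(gaussianReal 0 1) = 1 := by
  have h1 : MemLp (fun x : ℝ => x) 2 (gaussianReal 0 1) := by
    have := memLp_id_gaussianReal (μ := 0) (v := 1) 2
    exact_mod_cast this
  have h2 : Integrable (fun x : ℝ => x ^ 2) (gaussianReal 0 1) := h1.integrable_sq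
  rw [← ofReal_integral_eq_lintegral_ofReal h2 (ae_of_all _ fun x => sq_nonneg x)]
  have h3 : Var[fun x : ℝ => x; gaussianReal 0 1] = 1 := by
    rw [variance_fun_id_gaussianReal]; simp
  rw [variance_eq_sub h1] at h3
  simp only [integral_id_gaussianReal] at h3
  have h4 : ∫ x : ℝ, x ^ 2 ∂(gaussianReal 0 1) = 1 := by
    have : ((fun x : ℝ => x) ^ 2 : ℝ → ℝ) = fun x => x ^ 2 := by funext x; simp
    rw [this] at h3
    linarith
  rw [h4]; simp

/-- Gaussian measure of a thin double cone -/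
lemma cone_e0 (τ : ℝ) (hτ : 0 ≤ τ) :
    stdGaussian V3 {y | ‖y - ⟪y, e0⟫ • e0‖ ≤ τ * |⟪y, e0⟫|} ≤ ENNReal.ofReal (τ ^ 2 / 2) := by
  have hset : {y : V3 | ‖y - ⟪y, e0⟫ • e0‖ ≤ τ * |⟪y, e0⟫|} =
      {y : V3 | y 1 ^ 2 + y 2 ^ 2 ≤ (τ * |y 0|) ^ 2} := by
    ext y
    have h1 : ⟪y, e0⟫ = y 0 := by simp [e0, EuclideanSpace.inner_single_right]
    have h2 : ‖y - ⟪y, e0⟫ • e0‖ ^ 2 = y 1 ^ 2 + y 2 ^ 2 := by
      rw [h1, EuclideanSpace.norm_sq_eq, Fin.sum_univ_three]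
      simp [e0]
    simp only [Set.mem_ofPred_eq]
    rw [← h2, h1]
    constructor
    · intro h; exact pow_le_pow_left₀ (norm_nonneg _) h 2
    · intro h; exact (sq_le_sq₀ (norm_nonneg _) (by positivity)).mp h
  have hm : MeasurableSet {y : Fin 3 → ℝ | y 1 ^ 2 + y 2 ^ 2 ≤ (τ * |y 0|) ^ 2} :=
    measurableSet_le (by fun_prop) (by fun_prop)
  rw [hset, ← map_pi_eq_stdGaussian (ι := Fin 3)]
  rw [Measure.map_apply (by fun_prop) (measurableSet_le (by fun_prop) (by fun_prop))]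
  have hpre : (WithLp.toLp 2 ⁻¹' {y : V3 | y 1 ^ 2 + y 2 ^ 2 ≤ (τ * |y 0|) ^ 2}) =
    {y : Fin 3 → ℝ | y 1 ^ 2 + y 2 ^ 2 ≤ (τ * |y 0|) ^ 2} := rfl
  rw [hpre]
  -- split off the first coordinate
  have hs1 := measurePreserving_piFinSuccAbove (n := 2) (α := fun _ => ℝ)
    (fun _ : Fin 3 => gaussianReal 0 1) 0
  have hs2 : MeasurePreserving (MeasurableEquiv.finTwoArrow)
    (Measure.pi fun _ : Fin 2 => gaussianReal 0 1) ((gaussianReal 0 1).prod (gaussianReal 0 1)) :=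
    measurePreserving_finTwoArrow (gaussianReal 0 1)
  set T : Set (ℝ × ℝ × ℝ) := {p | p.2.1 ^ 2 + p.2.2 ^ 2 ≤ (τ * |p.1|) ^ 2} with hT
  have hTm : MeasurableSet T := measurableSet_le (by fun_prop) (by fun_prop)
  have hs3 : MeasurePreserving (Prod.map id MeasurableEquiv.finTwoArrow)
    ((gaussianReal 0 1).prod (Measure.pi fun _ : Fin 2 => gaussianReal 0 1))
    ((gaussianReal 0 1).prod ((gaussianReal 0 1).prod (gaussianReal 0 1))) :=
    (MeasurePreserving.id _).prod hs2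
  have hs4 := hs3.comp hs1
  have h5 : {y : Fin 3 → ℝ | y 1 ^ 2 + y 2 ^ 2 ≤ (τ * |y 0|) ^ 2} =
    ((Prod.map id MeasurableEquiv.finTwoArrow) ∘ (MeasurableEquiv.piFinSuccAbove (fun _ => ℝ) 0)) ⁻¹' T := by
    ext y
    simp [hT, MeasurableEquiv.piFinSuccAbove, MeasurableEquiv.finTwoArrow, Fin.insertNthEquiv,
      Fin.tail]
  rw [h5, hs4.measure_preimage hTm.nullMeasurableSet, Measure.prod_apply hTm]
  have h6 : ∀ x : ℝ, ((gaussianReal 0 1).prod (gaussianReal 0 1)) (Prod.mk x ⁻¹' T) ≤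
      ENNReal.ofReal (τ ^ 2 / 2) * ENNReal.ofReal (x ^ 2) := by
    intro x
    have h7 : Prod.mk x ⁻¹' T = {p : ℝ × ℝ | p.1 ^ 2 + p.2 ^ 2 ≤ (τ * |x|) ^ 2} := rfl
    rw [h7]
    refine (gaussian2_le _ (measurableSet_le (by fun_prop) (by fun_prop))).trans ?_
    rw [vol_disc _ (by positivity), ← ENNReal.ofReal_mul (by positivity),
      ← ENNReal.ofReal_mul (by positivity)]
    apply ENNReal.ofReal_le_ofReal
    rw [mul_pow, sq_abs]
    have : Real.pi ≠ 0 := Real.pi_ne_zero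
    apply le_of_eq
    field_simp
  calc _ ≤ ∫⁻ x, ENNReal.ofReal (τ ^ 2 / 2) * ENNReal.ofReal (x ^ 2) ∂(gaussianReal 0 1) :=
        lintegral_mono h6
    _ = _ := by
      rw [lintegral_const_mul' _ _ ENNReal.ofReal_ne_top, second_moment, mul_one]

lemma cone_le (p : V3) (hp : ‖p‖ = 1) (τ : ℝ) (hτ : 0 ≤ τ) :
    stdGaussian V3 {y | ‖y - ⟪y, p⟫ • p‖ ≤ τ * |⟪y, p⟫|} ≤ ENNReal.ofReal (τ ^ 2 / 2) := by
  have hp0 : p ≠ 0 := by intro h; rw [h, norm_zero] at hp; norm_num at hp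
  have hn : nrm p = p := by simp [nrm, hp]
  have hH : Hou p e0 = p := by rw [Hou_e0 hp0, hn]
  have hm : MeasurableSet {y : V3 | ‖y - ⟪y, p⟫ • p‖ ≤ τ * |⟪y, p⟫|} := by
    apply measurableSet_le
    · fun_prop
    · fun_prop
  rw [← stdGaussian_map (Hou p), Measure.map_apply (Hou p).continuous.measurable hm]
  refine le_trans (le_of_eq ?_) (cone_e0 τ hτ)
  congr 1
  ext y
  simp only [Set.mem_preimage, Set.mem_ofPred_eq]
  have h1 : ⟪Hou p y, p⟫ = ⟪y, e0⟫ := by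
    have := LinearIsometryEquiv.inner_map_map (Hou p) y e0
    rwa [hH] at this
  have h2 : Hou p y - ⟪y, e0⟫ • p = Hou p (y - ⟪y, e0⟫ • e0) := by
    rw [map_sub, map_smul, hH]
  rw [h1, h2, LinearIsometryEquiv.norm_map]

end Run7.h255.Kost
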