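import Mathlib
import Pool.Agent.Run7.h255.Kost.Defs
import Pool.Agent.Run7.h255.Kost.C2
import Pool.Agent.Run7.h255.Kost.Cone

open MeasureTheory ProbabilityTheory
open scoped ENNReal RealInnerProductSpace

namespace Run7.h255.Kost

variable {P : V3 → ℝ} {N : ℕ} {r d : ℝ}

/-- zero set of a homogeneous function in the projective plane -/
def ZP (P : V3 → ℝ) : Set RP2 := {p | P (Projectivization.rep p) = 0}

/-- points represented in the open double cone -/
def OC (r : ℝ) (y : V3) : Set RP2 :=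
  {p | Projectivization.rep p ∈ KI r y ∨ -Projectivization.rep p ∈ KI r y}

/-- closed cone -/
def KC (r : ℝ) (y : V3) : Set V3 := {q | ‖q - ⟪q, y⟫ • y‖ ≤ r * ⟪q, y⟫}

/-- points represented in the closed double cone -/
def CC (r : ℝ) (y : V3) : Set RP2 :=
  {p | Projectivization.rep p ∈ KC r y ∨ -Projectivization.rep p ∈ KC r y}

lemma smul_KC {y q : V3} (hq : q ∈ KC r y) {s : ℝ} (hs : 0 < s) : s • q ∈ KC r y := by
  have h : ‖q - ⟪q, y⟫ • y‖ ≤ r * ⟪q, y⟫ := hq
  show ‖s • q - ⟪s • q, y⟫ • y‖ ≤ r * ⟪s • q, y⟫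
  have h1 : ⟪s • q, y⟫ = s * ⟪q, y⟫ := by rw [inner_smul_left]; simp
  rw [h1, mul_smul, ← smul_sub, norm_smul, Real.norm_of_nonneg hs.le]
  nlinarith

lemma double_iff (K : Set V3) (hK : ∀ q ∈ K, ∀ s : ℝ, 0 < s → s • q ∈ K) (q : V3) (t : ℝ)
    (ht : t ≠ 0) : (t • q ∈ K ∨ -(t • q) ∈ K) ↔ (q ∈ K ∨ -q ∈ K) := by
  have key : ∀ (q : V3) (t : ℝ), t ≠ 0 → (q ∈ K ∨ -q ∈ K) → (t • q ∈ K ∨ -(t • q) ∈ K) := by
    intro q t ht h
    rcases lt_or_gt_of_ne ht with h0 | h0
    · rcases h with h | h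
      · right
        have := hK _ h (-t) (by linarith)
        rwa [neg_smul] at this
      · left
        have := hK _ h (-t) (by linarith)
        rwa [smul_neg, neg_smul, neg_neg] at this
    · rcases h with h | h
      · left; exact hK _ h t h0
      · right
        have := hK _ h t h0
        rwa [smul_neg] at this
  refine ⟨fun h => ?_, key q t ht⟩
  have := key (t • q) t⁻¹ (inv_ne_zero ht) h
  rwa [inv_smul_smul₀ ht] at this

lemma rep_mk (v : V3) (hv : v ≠ 0) : ∃ t : ℝ, t ≠ 0 ∧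
    Projectivization.rep (Projectivization.mk ℝ v hv) = t • v := by
  obtain ⟨a, ha⟩ := Projectivization.exists_smul_eq_mk_rep ℝ v hv
  exact ⟨a, a.ne_zero, by rw [← ha]; rfl⟩

lemma isOpen_OC (y : V3) : IsOpen (OC r y) := by
  have hq : Topology.IsQuotientMap (Quotient.mk (projectivizationSetoid ℝ V3)) :=
    isQuotientMap_quotient_mk'
  have h0 : IsOpen ((Quotient.mk (projectivizationSetoid ℝ V3)) ⁻¹' (OC r y)) := by
    have h1 : ((Quotient.mk (projectivizationSetoid ℝ V3)) ⁻¹' (OC r y)) =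
        {x : {v : V3 // v ≠ 0} | (x : V3) ∈ KI r y ∨ -(x : V3) ∈ KI r y} := by
      ext x
      obtain ⟨t, ht, hrep⟩ := rep_mk x.1 x.2
      have h2 : Projectivization.rep (Quotient.mk (projectivizationSetoid ℝ V3) x) = t • x.1 := hrep
      show (Projectivization.rep (Quotient.mk (projectivizationSetoid ℝ V3) x) ∈ KI r y ∨
        -Projectivization.rep (Quotient.mk (projectivizationSetoid ℝ V3) x) ∈ KI r y) ↔ _
      rw [h2]
      exact double_iff (KI r y) (fun q hq s hs => smul_KI hq hs) x.1 t ht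
    rw [h1]
    have h3 : {x : {v : V3 // v ≠ 0} | (x : V3) ∈ KI r y ∨ -(x : V3) ∈ KI r y} =
      (fun x : {v : V3 // v ≠ 0} => (x : V3)) ⁻¹' (KI r y) ∪
      (fun x : {v : V3 // v ≠ 0} => -(x : V3)) ⁻¹' (KI r y) := rfl
    rw [h3]
    exact ((isOpen_KI y).preimage (by fun_prop)).union ((isOpen_KI y).preimage (by fun_prop))
  exact hq.isOpen_preimage.mp h0

lemma isClosed_CC (y : V3) : IsClosed (CC r y) := by
  have hq : Topology.IsQuotientMap (Quotient.mk (projectivizationSetoid ℝ V3)) :=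
    isQuotientMap_quotient_mk'
  have hKC : IsClosed (KC r y) := by
    apply isClosed_le <;> fun_prop
  have h0 : IsClosed ((Quotient.mk (projectivizationSetoid ℝ V3)) ⁻¹' (CC r y)) := by
    have h1 : ((Quotient.mk (projectivizationSetoid ℝ V3)) ⁻¹' (CC r y)) =
        {x : {v : V3 // v ≠ 0} | (x : V3) ∈ KC r y ∨ -(x : V3) ∈ KC r y} := by
      ext x
      obtain ⟨t, ht, hrep⟩ := rep_mk x.1 x.2
      have h2 : Projectivization.rep (Quotient.mk (projectivizationSetoid ℝ V3) x) = t • x.1 := hrep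
      show (Projectivization.rep (Quotient.mk (projectivizationSetoid ℝ V3) x) ∈ KC r y ∨
        -Projectivization.rep (Quotient.mk (projectivizationSetoid ℝ V3) x) ∈ KC r y) ↔ _
      rw [h2]
      exact double_iff (KC r y) (fun q hq s hs => smul_KC hq hs) x.1 t ht
    rw [h1]
    have h3 : {x : {v : V3 // v ≠ 0} | (x : V3) ∈ KC r y ∨ -(x : V3) ∈ KC r y} =
      (fun x : {v : V3 // v ≠ 0} => (x : V3)) ⁻¹' (KC r y) ∪
      (fun x : {v : V3 // v ≠ 0} => -(x : V3)) ⁻¹' (KC r y) := rfl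
    rw [h3]
    exact (hKC.preimage (by fun_prop)).union (hKC.preimage (by fun_prop))
  exact hq.isClosed_preimage.mp h0

lemma P_neg (hom : ∀ (t : ℝ) (x : V3), P (t • x) = t ^ N * P x) {x : V3} (h : P x = 0) :
    P (-x) = 0 := by
  have := hom (-1) x
  rw [neg_one_smul, h, mul_zero] at this
  exact this

/-- no zero on the boundary of the cone -/
lemma KC_zero (hom : ∀ (t : ℝ) (x : V3), P (t • x) = t ^ N * P x) {y : V3}
    (g : Good P r d y) {q : V3} (hq0 : q ≠ 0) (hq : q ∈ KC r y) (hPq : P q = 0) : q ∈ KI r y := by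
  have h1 : ‖q - ⟪q, y⟫ • y‖ ≤ r * ⟪q, y⟫ := hq
  have hr := g.r_pos
  have hpos : 0 < ⟪q, y⟫ := by
    by_contra hc
    push Not at hc
    have h4 := norm_nonneg (q - ⟪q, y⟫ • y)
    have h5 : ⟪q, y⟫ = 0 := by nlinarith
    rw [h5] at h1
    simp only [zero_smul, sub_zero, mul_zero, norm_le_zero_iff] at h1
    exact hq0 h1
  show ‖q - ⟪q, y⟫ • y‖ < r * ⟪q, y⟫
  refine lt_of_le_of_ne h1 ?_
  intro heq
  obtain ⟨v, hv, hqv, hn⟩ := rep g.unit hpos
  rw [hn] at heq
  have hvr : ‖v‖ = r := by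
    have : ⟪q, y⟫ * ‖v‖ = ⟪q, y⟫ * r := by linarith
    exact mul_left_cancel₀ hpos.ne' this
  have h6 := g.bd v hv hvr
  rw [hqv, hom] at hPq
  have h7 : ⟪q, y⟫ ^ N ≠ 0 := by positivity
  rw [(mul_eq_zero.mp hPq).resolve_left h7, mul_zero] at h6
  exact lt_irrefl _ h6

/-- the double cone cuts out a clopen part of the zero set -/
lemma clopen (hom : ∀ (t : ℝ) (x : V3), P (t • x) = t ^ N * P x) {y : V3}
    (g : Good P r d y) : IsClopen ((fun p : ZP P => (p : RP2)) ⁻¹' (OC r y)) := by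
  refine ⟨?_, (isOpen_OC y).preimage continuous_subtype_val⟩
  have h : ((fun p : ZP P => (p : RP2)) ⁻¹' (OC r y)) = ((fun p : ZP P => (p : RP2)) ⁻¹' (CC r y)) := by
    ext p
    simp only [Set.mem_preimage, OC, CC, Set.mem_ofPred_eq]
    have hp0 : Projectivization.rep (p : RP2) ≠ 0 := Projectivization.rep_nonzero _
    have hPp : P (Projectivization.rep (p : RP2)) = 0 := p.2
    constructor
    · rintro (h | h)
      · left; exact le_of_lt (show ‖_‖ < _ from h)
      · right; exact le_of_lt (show ‖_‖ < _ from h)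
    · rintro (h | h)
      · left; exact KC_zero hom g hp0 h hPp
      · right; exact KC_zero hom g (neg_ne_zero.mpr hp0) h (P_neg hom hPp)
  rw [h]
  exact (isClosed_CC y).preimage continuous_subtype_val

lemma mk_mem_ZP (hom : ∀ (t : ℝ) (x : V3), P (t • x) = t ^ N * P x) {z : V3} (hz : z ≠ 0)
    (hPz : P z = 0) : (Projectivization.mk ℝ z hz : RP2) ∈ ZP P := by
  obtain ⟨t, _, hrep⟩ := rep_mk z hz
  show P (Projectivization.rep (Projectivization.mk ℝ z hz)) = 0
  rw [hrep, hom, hPz, mul_zero]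

/-- the point of the zero set given by a nonzero zero -/
noncomputable def zpt (hom : ∀ (t : ℝ) (x : V3), P (t • x) = t ^ N * P x) (z : V3) (hz : z ≠ 0)
    (hPz : P z = 0) : ZP P := ⟨Projectivization.mk ℝ z hz, mk_mem_ZP hom hz hPz⟩

lemma mk_mem_OC {z y : V3} (hz : z ≠ 0) :
    (Projectivization.mk ℝ z hz : RP2) ∈ OC r y ↔ (z ∈ KI r y ∨ -z ∈ KI r y) := by
  obtain ⟨t, ht, hrep⟩ := rep_mk z hz
  show (Projectivization.rep (Projectivization.mk ℝ z hz) ∈ KI r y ∨
    -Projectivization.rep (Projectivization.mk ℝ z hz) ∈ KI r y) ↔ _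
  rw [hrep]
  exact double_iff (KI r y) (fun q hq s hs => smul_KI hq hs) z t ht

lemma loc2 (hom : ∀ (t : ℝ) (x : V3), P (t • x) = t ^ N * P x) {y : V3}
    (g : Good P r d y) (p q : ZP P) (hp : (p : RP2) ∈ OC r y)
    (hc : ConnectedComponents.mk p = ConnectedComponents.mk q) :
    (q : RP2) ∈ OC r y := by
  have h1 : q ∈ connectedComponent p := ConnectedComponents.coe_eq_coe'.mp hc.symm
  have h3 : p ∈ ((fun p : ZP P => (p : RP2)) ⁻¹' (OC r y)) := hp
  have h2 := (clopen hom g).connectedComponent_subset h3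
  exact h2 h1

lemma zpt_mem_OC (hom : ∀ (t : ℝ) (x : V3), P (t • x) = t ^ N * P x) {z y : V3} (hz : z ≠ 0)
    (hPz : P z = 0) : (zpt hom z hz hPz : RP2) ∈ OC r y ↔ (z ∈ KI r y ∨ -z ∈ KI r y) :=
  mk_mem_OC hz

/-- zeros in the same component as a zero in the cone lie in the double cone -/
lemma localise (hom : ∀ (t : ℝ) (x : V3), P (t • x) = t ^ N * P x) {y : V3}
    (g : Good P r d y) {z z' : V3} (hz : z ≠ 0) (hz' : z' ≠ 0) (hPz : P z = 0) (hPz' : P z' = 0)
    (hzK : z ∈ KI r y)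
    (hc : (ConnectedComponents.mk (zpt hom z hz hPz)) =
      ConnectedComponents.mk (zpt hom z' hz' hPz')) :
    z' ∈ KI r y ∨ -z' ∈ KI r y := by
  rw [← zpt_mem_OC hom hz' hPz']
  refine loc2 hom g _ _ ?_ hc
  rw [zpt_mem_OC hom hz hPz]
  exact Or.inl hzK

lemma zero_notMem_KI (y : V3) : (0 : V3) ∉ KI r y := by
  intro h
  have h1 : ‖(0 : V3) - ⟪(0 : V3), y⟫ • y‖ < r * ⟪(0 : V3), y⟫ := h
  simp at h1

/-- the geometric upper bound: the set of good directions is covered by one thin double cone per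
component of the zero set -/
theorem measure_good (hP : Continuous P) (hom : ∀ (t : ℝ) (x : V3), P (t • x) = t ^ N * P x)
    (hN : N ≠ 0) (hd : 0 < d) :
    stdGaussian V3 {y | y ≠ 0 → Good P r d (nrm y)} ≤
      ENNReal.ofReal (d ^ 2 / 2) * ((ENat.card (ConnectedComponents (ZP P)) : ℕ∞) : ℝ≥0∞) := by
  classical
  by_cases hfin : Finite (ConnectedComponents (ZP P))
  swap
  · have : Infinite (ConnectedComponents (ZP P)) := not_finite_iff_infinite.mp hfin
    rw [ENat.card_eq_top_of_infinite]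
    simp only [ENat.toENNReal_top]
    rw [ENNReal.mul_top]
    · exact le_top
    · simp only [ne_eq, ENNReal.ofReal_eq_zero, not_le]; positivity
  have : Fintype (ConnectedComponents (ZP P)) := Fintype.ofFinite _
  set Sc : ConnectedComponents (ZP P) → Set V3 := fun c =>
    {y | y ≠ 0 ∧ Good P r d (nrm y) ∧ ∃ (z : V3) (hz : z ≠ 0) (hPz : P z = 0), z ∈ KI r (nrm y) ∧
      ConnectedComponents.mk (zpt hom z hz hPz) = c} with hSc
  have hcov : {y : V3 | y ≠ 0 → Good P r d (nrm y)} ⊆ {0} ∪ ⋃ c, Sc c := by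
    intro y hy
    by_cases hy0 : y = 0
    · left; exact hy0
    · right
      have g := hy hy0
      obtain ⟨z, hzK, hPz⟩ := exists_zero hP g
      have hz : z ≠ 0 := by
        rintro rfl
        exact zero_notMem_KI _ hzK
      rw [Set.mem_iUnion]
      exact ⟨_, hy0, g, z, hz, hPz, hzK, rfl⟩
  have h0 : stdGaussian V3 {(0 : V3)} = 0 := by
    have h1 := cone_le e0 norm_e0 0 le_rfl
    have h2 : ({(0 : V3)} : Set V3) ⊆ {y | ‖y - ⟪y, e0⟫ • e0‖ ≤ 0 * |⟪y, e0⟫|} := by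
      intro y hy
      rw [Set.mem_singleton_iff] at hy
      rw [hy]; simp
    have h3 := (measure_mono h2).trans h1
    simpa using h3
  have hSc_le : ∀ c, stdGaussian V3 (Sc c) ≤ ENNReal.ofReal (d ^ 2 / 2) := by
    intro c
    by_cases hne : (Sc c).Nonempty
    swap
    · rw [Set.not_nonempty_iff_eq_empty] at hne
      rw [hne]; simp
    obtain ⟨y₁, hy₁0, g₁, z₁, hz₁, hPz₁, hz₁K, hc₁⟩ := hne
    obtain ⟨p, hp, hmark⟩ := exists_marker hP hom hN g₁
    refine (measure_mono ?_).trans (cone_le p hp d hd.le)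
    rintro y ⟨hy0, g, z, hz, hPz, hzK, hc⟩
    -- choose the sign
    have h1 := localise hom g hz hz₁ hPz hPz₁ hzK (by rw [hc, hc₁])
    have key : ∀ y' : V3, Good P r d y' → z₁ ∈ KI r y' → ‖p - ⟪p, y'⟫ • y'‖ ≤ d * ⟪p, y'⟫ := by
      intro y' g' hz'
      exact hmark y' g' (DD_eq hP hom hN g' g₁ hz' hz₁K hPz₁)
    have key2 : ‖p - ⟪p, nrm y⟫ • nrm y‖ ≤ d * |⟪p, nrm y⟫| := by
      rcases h1 with h | h
      · exact (key _ g h).trans (by gcongr; exact le_abs_self _)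
      · have h2 : z₁ ∈ KI r (-nrm y) := by
          have h3 : ‖-z₁ - ⟪-z₁, nrm y⟫ • nrm y‖ < r * ⟪-z₁, nrm y⟫ := h
          show ‖z₁ - ⟪z₁, -nrm y⟫ • -nrm y‖ < r * ⟪z₁, -nrm y⟫
          rw [inner_neg_right, neg_smul_neg]
          rw [inner_neg_left] at h3
          have h4 : -z₁ - -⟪z₁, nrm y⟫ • nrm y = -(z₁ - ⟪z₁, nrm y⟫ • nrm y) := by
            rw [neg_smul]; abel
          rw [h4, norm_neg] at h3
          exact h3
        have h5 := key _ (good_neg hom g) h2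
        rw [inner_neg_right, neg_smul_neg] at h5
        refine h5.trans ?_
        gcongr
        exact neg_le_abs _
    -- symmetric form of the estimate
    have hyn := norm_nrm hy0
    have h6 : ‖p - ⟪p, nrm y⟫ • nrm y‖ ^ 2 = 1 - ⟪p, nrm y⟫ ^ 2 := by
      rw [norm_sub_sq_real, inner_smul_right, norm_smul, mul_pow, hyn, Real.norm_eq_abs,
        sq_abs, hp]
      ring
    have hny : 0 < ‖y‖ := norm_pos_iff.mpr hy0
    have h7 : ⟪p, nrm y⟫ = ‖y‖⁻¹ * ⟪y, p⟫ := by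
      rw [nrm, inner_smul_right, real_inner_comm]
    have h8 : ‖y - ⟪y, p⟫ • p‖ ^ 2 = ‖y‖ ^ 2 - ⟪y, p⟫ ^ 2 := by
      rw [norm_sub_sq_real, inner_smul_right, norm_smul, mul_pow, hp, Real.norm_eq_abs,
        sq_abs]
      ring
    show ‖y - ⟪y, p⟫ • p‖ ≤ d * |⟪y, p⟫|
    have h9 : ‖y - ⟪y, p⟫ • p‖ ^ 2 ≤ (d * |⟪y, p⟫|) ^ 2 := by
      have h10 : ‖p - ⟪p, nrm y⟫ • nrm y‖ ^ 2 ≤ (d * |⟪p, nrm y⟫|) ^ 2 :=
        pow_le_pow_left₀ (norm_nonneg _) key2 2
      rw [h6, mul_pow, sq_abs, h7, mul_pow, inv_pow] at h10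
      rw [h8, mul_pow, sq_abs]
      have h11 : 0 < ‖y‖ ^ 2 := by positivity
      have h12 := mul_le_mul_of_nonneg_left h10 h11.le
      have h13 : ‖y‖ ^ 2 * (1 - (‖y‖ ^ 2)⁻¹ * ⟪y, p⟫ ^ 2) = ‖y‖ ^ 2 - ⟪y, p⟫ ^ 2 := by
        field_simp
      have h14 : ‖y‖ ^ 2 * (d ^ 2 * ((‖y‖ ^ 2)⁻¹ * ⟪y, p⟫ ^ 2)) = d ^ 2 * ⟪y, p⟫ ^ 2 := by
        field_simp
      rwa [h13, h14] at h12
    exact (sq_le_sq₀ (norm_nonneg _) (by positivity)).mp h9
  calc stdGaussian V3 {y | y ≠ 0 → Good P r d (nrm y)}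
      ≤ stdGaussian V3 ({0} ∪ ⋃ c, Sc c) := measure_mono hcov
    _ ≤ stdGaussian V3 {0} + stdGaussian V3 (⋃ c, Sc c) := measure_union_le _ _
    _ ≤ 0 + ∑ c, stdGaussian V3 (Sc c) := by
        rw [h0]
        gcongr
        exact measure_iUnion_fintype_le _ _
    _ ≤ 0 + ∑ _c : ConnectedComponents (ZP P), ENNReal.ofReal (d ^ 2 / 2) := by
        gcongr with c _
        exact hSc_le c
    _ = _ := by
        rw [zero_add, Finset.sum_const, ENat.card_eq_coe_fintype_card, Finset.card_univ, nsmul_eq_mul, mul_comm]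
        rfl

end Run7.h255.Kost
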