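import Mathlib
import Pool.Agent.Run7.h255.Kost.C3

open MeasureTheory ProbabilityTheory
open scoped ENNReal RealInnerProductSpace

namespace Run7.h255.Kost

variable {P : V3 → ℝ} {N : ℕ} {r d : ℝ}

lemma good_transport (H : V3 ≃ₗᵢ[ℝ] V3) {y : V3} (g : Good (fun x => P (H x)) r d y) :
    Good P r d (H y) := by
  have key : ∀ v, ⟪v, H y⟫ = 0 → ⟪H.symm v, y⟫ = 0 := by
    intro v hv
    rw [← H.inner_map_map, H.apply_symm_apply]; exact hv
  have hsum : ∀ v, H (y + H.symm v) = H y + v := by
    intro v; rw [map_add, H.apply_symm_apply]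
  constructor
  · rw [H.norm_map]; exact g.unit
  · intro v hv hv0 hvr t ht0 ht1
    have h1 := g.ray (H.symm v) (key v hv) (by simpa using hv0) (by rw [H.symm.norm_map]; exact hvr)
      t ht0 ht1
    simp only [hsum] at h1
    have h2 : H (y + t • H.symm v) = H y + t • v := by
      rw [map_add, map_smul, H.apply_symm_apply]
    rwa [h2] at h1
  · intro v hv hvr
    have h1 := g.bd (H.symm v) (key v hv) (by rw [H.symm.norm_map]; exact hvr)
    simpa only [hsum] using h1
  · obtain ⟨w, hw, hwd, hwr, hwP, hcomp⟩ := g.mark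
    refine ⟨H w, by rw [H.inner_map_map]; exact hw, by rw [H.norm_map]; exact hwd,
      by rw [H.norm_map]; exact hwr, by rw [← map_add]; exact hwP, ?_⟩
    intro v hv hdv hvr hvP
    have h1 := hcomp (H.symm v) (key v hv) (by rw [H.symm.norm_map]; exact hdv)
      (by rw [H.symm.norm_map]; exact hvr)
    simp only [hsum] at h1
    rw [← map_add]
    exact h1 hvP

lemma form_eq (N : ℕ) (a : Idx N → ℝ) (x : V3) :
    form N a x = ⟪(WithLp.toLp 2 a : Co N), feat N x⟫ := by
  simp only [form, feat, PiLp.inner_apply, mono, RCLike.inner_apply, conj_trivial]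
  refine Finset.sum_congr rfl fun α _ => ?_
  ring

lemma curve_eq (N : ℕ) (a : Idx N → ℝ) :
    curve N a = ZP (fun x => ⟪(WithLp.toLp 2 a : Co N), feat N x⟫) := by
  ext p
  show form N a (Projectivization.rep p) = 0 ↔ _
  rw [form_eq]; rfl

lemma feat_smul (N : ℕ) (t : ℝ) (x : V3) : feat N (t • x) = t ^ N • feat N x := by
  ext α
  simp only [feat, mono, PiLp.smul_apply, smul_eq_mul, mul_pow, Finset.prod_mul_distrib]
  have h1 : ∏ i : Fin 3, t ^ (α.1 i) = t ^ N := by
    rw [Finset.prod_pow_eq_pow_sum]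
    congr 1
    exact (Finset.mem_piAntidiag.mp α.2).1
  rw [h1]; ring

lemma hom_form (N : ℕ) (a : Co N) (t : ℝ) (x : V3) :
    (fun x => ⟪a, feat N x⟫) (t • x) = t ^ N * (fun x => ⟪a, feat N x⟫) x := by
  simp only [feat_smul, inner_smul_right]

lemma cont_form (N : ℕ) (a : Co N) : Continuous fun x => ⟪a, feat N x⟫ :=
  continuous_const.inner (continuous_feat N)

lemma expected_eq (N : ℕ) : expectedComponents N =
    ∫⁻ a : Co N, ((ENat.card (ConnectedComponents (ZP (fun x => ⟪a, feat N x⟫))) : ℕ∞) : ℝ≥0∞)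
      ∂(stdGaussian (Co N)) := by
  rw [← map_pi_eq_stdGaussian (ι := Idx N)]
  rw [show ((WithLp.toLp 2 : (Idx N → ℝ) → Co N)) = MeasurableEquiv.toLp 2 (Idx N → ℝ) from rfl]
  rw [lintegral_map_equiv]
  unfold expectedComponents
  refine lintegral_congr fun a => ?_
  rw [curve_eq]; rfl

theorem main_bound (hN : N ≠ 0) (hd : 0 < d) (G : Set (Co N)) (hG : MeasurableSet G)
    (h : ∀ b ∈ G, Good (fun x => ⟪b, feat N x⟫) r d e0) :
    stdGaussian (Co N) G ≤ ENNReal.ofReal (d ^ 2 / 2) * expectedComponents N := by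
  rw [expected_eq]
  refine tonelli N G hG _ _ ENNReal.ofReal_ne_top ?_
  intro a
  refine le_trans (measure_mono ?_)
    (measure_good (r := r) (cont_form N a) (hom_form N a) hN hd)
  intro y hy hy0
  have h1 := h _ hy
  have h2 : (fun x => ⟪Uy N y a, feat N x⟫) = fun x => (fun x => ⟪a, feat N x⟫) (Hou y x) := by
    funext x
    exact Uy_spec N y a x
  rw [h2] at h1
  have h3 := good_transport (P := fun x => ⟪a, feat N x⟫) (Hou y) h1
  rwa [Hou_e0 hy0] at h3

end Run7.h255.Kost
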