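import Mathlib
import Pool.Agent.Run7.h255.Kost.B

open MeasureTheory ProbabilityTheory
open scoped ENNReal RealInnerProductSpace

namespace Run7.h255.Kost

/-- the exponent with prescribed second and third entries -/
def ix (N j k : ℕ) : Idx N :=
  if h : j + k ≤ N then ⟨![N - (j + k), j, k], by
    simp [Fin.sum_univ_three]; omega⟩
  else ⟨![N, 0, 0], by simp [Fin.sum_univ_three]⟩

lemma ix_val {N j k : ℕ} (h : j + k ≤ N) : (ix N j k).1 = ![N - (j + k), j, k] := by
  unfold ix; rw [dif_pos h]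

lemma ix_inj {N j k j' k' : ℕ} (h : j + k ≤ N) (h' : j' + k' ≤ N) (he : ix N j k = ix N j' k') :
    j = j' ∧ k = k' := by
  have h1 := congrArg (fun α : Idx N => α.1 1) he
  have h2 := congrArg (fun α : Idx N => α.1 2) he
  simp only [ix_val h, ix_val h'] at h1 h2
  exact ⟨by simpa using h1, by simpa using h2⟩

lemma sum_idx {M : Type*} [AddCommMonoid M] (N : ℕ) (f : Idx N → M) :
    ∑ α, f α = ∑ d ∈ Finset.range (N + 1), ∑ p ∈ Finset.HasAntidiagonal.antidiagonal d, f (ix N p.1 p.2) := by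
  rw [Finset.sum_sigma']
  have key : ∀ α : Idx N, α.1 0 + α.1 1 + α.1 2 = N := by
    intro α
    have := (Finset.mem_piAntidiag.mp α.2).1
    rwa [Fin.sum_univ_three] at this
  refine Finset.sum_bij' (fun α _ => ⟨α.1 1 + α.1 2, (α.1 1, α.1 2)⟩)
    (fun q _ => ix N q.2.1 q.2.2) ?_ ?_ ?_ ?_ ?_
  · intro α _
    have := key α
    simp only [Finset.mem_sigma, Finset.mem_range, Finset.HasAntidiagonal.mem_antidiagonal, and_true]
    omega
  · intro q _; exact Finset.mem_univ _
  · intro α _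
    have h1 := key α
    apply Subtype.ext
    show (ix N (α.1 1) (α.1 2)).1 = α.1
    rw [ix_val (by omega)]
    funext i
    fin_cases i
    · simp; omega
    · simp
    · simp
  · rintro ⟨d, j, k⟩ hq
    simp only [Finset.mem_sigma, Finset.mem_range, Finset.HasAntidiagonal.mem_antidiagonal] at hq
    have h1 : (ix N j k).1 = ![N - (j + k), j, k] := ix_val (by omega)
    obtain ⟨h2, h3⟩ := hq
    subst h3
    simp [h1]
  · intro α _
    have h1 := key α
    congr 1
    apply Subtype.ext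
    show α.1 = (ix N (α.1 1) (α.1 2)).1
    rw [ix_val (by omega)]
    funext i
    fin_cases i
    · simp; omega
    · simp
    · simp

lemma mult_ix {N j k : ℕ} (h : j + k ≤ N) :
    Nat.multinomial Finset.univ (ix N j k).1 = N.choose (j + k) * (j + k).choose j := by
  rw [ix_val h]
  have h1 := Nat.multinomial_spec (Finset.univ : Finset (Fin 3)) ![N - (j + k), j, k]
  simp only [Fin.prod_univ_three, Fin.sum_univ_three] at h1
  have h1' : ((N - (j + k)).factorial * j.factorial * k.factorial) *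
      Nat.multinomial Finset.univ ![N - (j + k), j, k] = N.factorial := by
    have h2 : N - (j + k) + j + k = N := by omega
    calc _ = (N - (j + k) + j + k).factorial := h1
      _ = _ := by rw [h2]
  have h3 := Nat.choose_mul_factorial_mul_factorial h
  have h4 := Nat.choose_mul_factorial_mul_factorial (Nat.le_add_right j k)
  have h5 : j + k - j = k := by omega
  rw [h5] at h4
  have h6 : 0 < (N - (j + k)).factorial * j.factorial * k.factorial := by positivity
  apply Nat.eq_of_mul_eq_mul_left h6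
  rw [h1', ← h3]
  calc _ = N.choose (j + k) * (j + k).factorial * (N - (j + k)).factorial := rfl
    _ = N.choose (j + k) * ((j + k).choose j * j.factorial * k.factorial) * (N - (j + k)).factorial := by
        rw [h4]
    _ = _ := by ring

/-- the part of degree `d` of the form near the base point -/
noncomputable def Rd (N : ℕ) (b : Co N) (d : ℕ) (x y : ℝ) : ℝ :=
  ∑ p ∈ Finset.HasAntidiagonal.antidiagonal d,
    b (ix N p.1 p.2) * Real.sqrt ((N.choose d : ℝ) * (d.choose p.1 : ℝ)) * (x ^ p.1 * y ^ p.2)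

/-- size of the coefficients of degree `d` -/
noncomputable def bet (N : ℕ) (b : Co N) (d : ℕ) : ℝ :=
  Real.sqrt (∑ p ∈ Finset.HasAntidiagonal.antidiagonal d, b (ix N p.1 p.2) ^ 2)

lemma expand (N : ℕ) (b : Co N) (v : V3) (hv : v 0 = 0) :
    ⟪b, feat N (e0 + v)⟫ = ∑ d ∈ Finset.range (N + 1), Rd N b d (v 1) (v 2) := by
  simp only [PiLp.inner_apply, feat]
  rw [sum_idx]
  refine Finset.sum_congr rfl fun d hd => ?_
  unfold Rd
  refine Finset.sum_congr rfl fun p hp => ?_
  rw [Finset.mem_range] at hd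
  rw [Finset.HasAntidiagonal.mem_antidiagonal] at hp
  have h1 : p.1 + p.2 ≤ N := by omega
  simp only [RCLike.inner_apply, conj_trivial, mono, Fin.prod_univ_three]
  rw [mult_ix h1, ix_val h1, hp]
  have e00 : e0 0 = 1 := by simp [e0]
  have e01 : e0 1 = 0 := by simp [e0]
  have e02 : e0 2 = 0 := by simp [e0]
  simp only [PiLp.add_apply, e00, e01, e02, hv]
  simp
  ring

lemma Rd_smul (N : ℕ) (b : Co N) (d : ℕ) (t x y : ℝ) :
    Rd N b d (t * x) (t * y) = t ^ d * Rd N b d x y := by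
  unfold Rd
  rw [Finset.mul_sum]
  refine Finset.sum_congr rfl fun p hp => ?_
  rw [Finset.HasAntidiagonal.mem_antidiagonal] at hp
  rw [← hp, pow_add, mul_pow, mul_pow]
  ring

lemma Rd_le (N : ℕ) (b : Co N) (d : ℕ) (x y : ℝ) :
    |Rd N b d x y| ≤ bet N b d * Real.sqrt ((N.choose d : ℝ) * (x ^ 2 + y ^ 2) ^ d) := by
  have h1 : (Rd N b d x y) ^ 2 ≤ (∑ p ∈ Finset.HasAntidiagonal.antidiagonal d, b (ix N p.1 p.2) ^ 2) *
      ((N.choose d : ℝ) * (x ^ 2 + y ^ 2) ^ d) := by
    have h2 : (N.choose d : ℝ) * (x ^ 2 + y ^ 2) ^ d = ∑ p ∈ Finset.HasAntidiagonal.antidiagonal d,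
        (Real.sqrt ((N.choose d : ℝ) * (d.choose p.1 : ℝ)) * (x ^ p.1 * y ^ p.2)) ^ 2 := by
      rw [(Commute.all _ _).add_pow', Finset.mul_sum]
      refine Finset.sum_congr rfl fun p hp => ?_
      rw [mul_pow, Real.sq_sqrt (by positivity), nsmul_eq_mul]
      ring
    rw [h2]
    refine le_trans (le_of_eq ?_) (Finset.sum_mul_sq_le_sq_mul_sq _ _ _)
    unfold Rd
    congr 1
    refine Finset.sum_congr rfl fun p hp => ?_
    ring
  unfold bet
  rw [← Real.sqrt_mul (Finset.sum_nonneg fun p _ => sq_nonneg _)]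
  exact Real.abs_le_sqrt h1

lemma choose_scale (N d : ℕ) (hN : 0 < N) (s : ℝ) (hs : 0 ≤ s) (x y : ℝ)
    (h : x ^ 2 + y ^ 2 = s ^ 2) :
    Real.sqrt ((N.choose d : ℝ) * ((x / Real.sqrt N) ^ 2 + (y / Real.sqrt N) ^ 2) ^ d) ≤
      s ^ d / Real.sqrt (d.factorial) := by
  have hN' : (0 : ℝ) < N := by exact_mod_cast hN
  have h1 : (x / Real.sqrt N) ^ 2 + (y / Real.sqrt N) ^ 2 = s ^ 2 / N := by
    rw [div_pow, div_pow, Real.sq_sqrt hN'.le, ← h]; ring
  rw [h1, div_pow]
  have h2 : (N.choose d : ℝ) ≤ (N : ℝ) ^ d / d.factorial := Nat.choose_le_pow_div d N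
  have hf : (0 : ℝ) < d.factorial := by exact_mod_cast Nat.factorial_pos d
  have h3 : (N.choose d : ℝ) * ((s ^ 2) ^ d / (N : ℝ) ^ d) ≤ (s ^ d) ^ 2 / d.factorial := by
    calc (N.choose d : ℝ) * ((s ^ 2) ^ d / (N : ℝ) ^ d) ≤
        ((N : ℝ) ^ d / d.factorial) * ((s ^ 2) ^ d / (N : ℝ) ^ d) := by
          apply mul_le_mul_of_nonneg_right h2; positivity
      _ = _ := by
        rw [← pow_mul, ← pow_mul, mul_comm 2 d]
        field_simp
  calc _ ≤ Real.sqrt ((s ^ d) ^ 2 / d.factorial) := Real.sqrt_le_sqrt h3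
    _ = _ := by
      rw [Real.sqrt_div (by positivity), Real.sqrt_sq (by positivity)]

lemma Rd_scaled (N : ℕ) (hN : 0 < N) (b : Co N) (d : ℕ) (x y s : ℝ) (hs : 0 ≤ s)
    (h : x ^ 2 + y ^ 2 = s ^ 2) :
    |Rd N b d (x / Real.sqrt N) (y / Real.sqrt N)| ≤
      bet N b d / Real.sqrt (d.factorial) * s ^ d := by
  refine (Rd_le N b d _ _).trans ?_
  have h0 : 0 ≤ bet N b d := Real.sqrt_nonneg _
  calc _ ≤ bet N b d * (s ^ d / Real.sqrt (d.factorial)) :=
        mul_le_mul_of_nonneg_left (choose_scale N d hN s hs x y h) h0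
    _ = _ := by ring

end Run7.h255.Kost
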