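import Mathlib
import Pool.Agent.Run7.h255.Kost.C4
import Pool.Agent.Run7.h255.Kost.D1

open MeasureTheory ProbabilityTheory
open scoped ENNReal RealInnerProductSpace

namespace Run7.h255.Kost

/-- the local model -/
structure Model (Φ τ : ℝ → ℝ → ℝ) (ρ u g1 g2 c T X Y A A' : ℝ) : Prop where
  form : ∀ x y, Φ x y = -u + (g1 * x + g2 * y) +
    c / 2 * ((T + X) * x ^ 2 + 2 * Y * x * y + (T - X) * y ^ 2) + τ x y
  t1 : ∀ x y s, 0 ≤ s → s ≤ ρ → x ^ 2 + y ^ 2 = s ^ 2 → |τ x y| ≤ A / ρ * s ^ 3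
  t2 : ∀ x y t, x ^ 2 + y ^ 2 ≤ ρ ^ 2 → 0 ≤ t → t ≤ 1 →
    |t ^ 2 * τ x y - τ (t * x) (t * y)| ≤ t ^ 2 * (1 - t) * (ρ ^ 2 * A')

lemma lin_le {g1 g2 x y γ s : ℝ} (hγ : 0 ≤ γ) (hs : 0 ≤ s) (h1 : g1 ^ 2 + g2 ^ 2 ≤ γ ^ 2)
    (h2 : x ^ 2 + y ^ 2 ≤ s ^ 2) : |g1 * x + g2 * y| ≤ γ * s := by
  apply abs_le_of_sq_le_sq _ (by positivity)
  have h3 : (g1 * x + g2 * y) ^ 2 ≤ (g1 ^ 2 + g2 ^ 2) * (x ^ 2 + y ^ 2) := by
    nlinarith [sq_nonneg (g1 * y - g2 * x)]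
  calc _ ≤ (g1 ^ 2 + g2 ^ 2) * (x ^ 2 + y ^ 2) := h3
    _ ≤ γ ^ 2 * s ^ 2 := by
      apply mul_le_mul h1 h2 (by positivity) (by positivity)
    _ = _ := by ring

lemma quad_ge {T X Y R a b : ℝ} (hR : 0 ≤ R) (h : X ^ 2 + Y ^ 2 ≤ R ^ 2) :
    (T - R) * (a ^ 2 + b ^ 2) ≤ (T + X) * a ^ 2 + 2 * Y * a * b + (T - X) * b ^ 2 := by
  have h1 := lin_le (g1 := X) (g2 := Y) (x := a ^ 2 - b ^ 2) (y := 2 * a * b) (γ := R)
    (s := a ^ 2 + b ^ 2) hR (by positivity) h (by nlinarith)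
  have h2 := (abs_le.mp h1).1
  nlinarith

variable {Φ τ : ℝ → ℝ → ℝ} {ρ u g1 g2 c T X Y A A' : ℝ}

lemma Model.ray (m : Model Φ τ ρ u g1 g2 c T X Y A A') {γ : ℝ} (hρ : 0 < ρ) (hγ : 0 ≤ γ)
    (hg : g1 ^ 2 + g2 ^ 2 ≤ γ ^ 2) (hA' : 0 ≤ A') (hu : ρ * γ + ρ ^ 2 * A' < 2 * u)
    {x y t : ℝ} (hxy : x ^ 2 + y ^ 2 ≤ ρ ^ 2) (ht0 : 0 < t) (ht1 : t < 1) :
    Φ (t * x) (t * y) < t ^ 2 * Φ x y := by
  have h1 := lin_le hγ hρ.le hg hxy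
  have h2 := (abs_le.mp h1).2
  have h3 := (abs_le.mp (m.t2 x y t hxy ht0.le ht1.le)).1
  have hu0 : 0 < u := by
    have : 0 ≤ ρ * γ + ρ ^ 2 * A' := by positivity
    linarith
  rw [m.form, m.form]
  have h4 : t * (1 - t) * (g1 * x + g2 * y) ≤ t * (1 - t) * (γ * ρ) :=
    mul_le_mul_of_nonneg_left h2 (mul_nonneg ht0.le (by linarith))
  have h5 : t * (ρ * γ + ρ ^ 2 * A') < t * (2 * u) := mul_lt_mul_of_pos_left hu ht0
  have h6 : t ^ 2 * (ρ ^ 2 * A') ≤ t * (ρ ^ 2 * A') := by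
    apply mul_le_mul_of_nonneg_right _ (by positivity)
    nlinarith
  have h7 : 2 * u * t ≤ u * (1 + t) := by nlinarith
  have h8 : 0 < (1 - t) * (u * (1 + t) - t * (γ * ρ) - t ^ 2 * (ρ ^ 2 * A')) := by
    apply mul_pos (by linarith)
    nlinarith
  nlinarith

lemma Model.bd (m : Model Φ τ ρ u g1 g2 c T X Y A A') {γ R : ℝ} (hρ : 0 < ρ) (hγ : 0 ≤ γ)
    (hc : 0 < c) (hR : 0 ≤ R) (hXY : X ^ 2 + Y ^ 2 ≤ R ^ 2)
    (hg : g1 ^ 2 + g2 ^ 2 ≤ γ ^ 2) (hu : u + ρ * γ < ρ ^ 2 * (c * (T - R) / 2 - A))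
    {x y : ℝ} (hxy : x ^ 2 + y ^ 2 = ρ ^ 2) : 0 < Φ x y := by
  have h1 := (abs_le.mp (lin_le hγ hρ.le hg hxy.le)).1
  have h2 := (abs_le.mp (m.t1 x y ρ hρ.le le_rfl hxy)).1
  have h3 := quad_ge (T := T) (a := x) (b := y) hR hXY
  rw [m.form]
  have h4 : A / ρ * ρ ^ 3 = A * ρ ^ 2 := by field_simp
  rw [h4] at h2
  rw [hxy] at h3
  have h5 : c / 2 * ((T - R) * ρ ^ 2) ≤
      c / 2 * ((T + X) * x ^ 2 + 2 * Y * x * y + (T - X) * y ^ 2) :=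
    mul_le_mul_of_nonneg_left h3 (by positivity)
  nlinarith

/-- the value at the critical point of the quadratic part -/
lemma Model.mark_neg (m : Model Φ τ ρ u g1 g2 c T X Y A A') {R w1 w2 ω : ℝ} (hρ : 0 < ρ)
    (hc : 0 < c) (hR : 0 ≤ R) (hXY : X ^ 2 + Y ^ 2 ≤ R ^ 2) (hu : 0 < u)
    (hA : A ≤ c * (T - R) / 2) (hA0 : 0 ≤ A)
    (hw1 : c * ((T + X) * w1 + Y * w2) = -g1) (hw2 : c * (Y * w1 + (T - X) * w2) = -g2)
    (hω0 : 0 ≤ ω) (hω : w1 ^ 2 + w2 ^ 2 = ω ^ 2) (hωρ : ω ≤ ρ) : Φ w1 w2 < 0 := by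
  rw [m.form]
  have h1 := (abs_le.mp (m.t1 w1 w2 ω hω0 hωρ hω)).2
  have h2 := quad_ge (T := T) (a := w1) (b := w2) hR hXY
  have h3 : g1 * w1 + g2 * w2 =
      -(c * ((T + X) * w1 ^ 2 + 2 * Y * w1 * w2 + (T - X) * w2 ^ 2)) := by
    have e1 : g1 = -(c * ((T + X) * w1 + Y * w2)) := by linarith
    have e2 : g2 = -(c * (Y * w1 + (T - X) * w2)) := by linarith
    rw [e1, e2]; ring
  rw [h3]
  have h4 : A / ρ * ω ^ 3 ≤ A * ω ^ 2 := by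
    have : ω ^ 3 ≤ ρ * ω ^ 2 := by
      have := mul_le_mul_of_nonneg_right hωρ (sq_nonneg ω)
      nlinarith
    calc A / ρ * ω ^ 3 ≤ A / ρ * (ρ * ω ^ 2) := mul_le_mul_of_nonneg_left this (by positivity)
      _ = _ := by field_simp
  have h5 : A * ω ^ 2 ≤ c * (T - R) / 2 * ω ^ 2 := mul_le_mul_of_nonneg_right hA (sq_nonneg ω)
  rw [hω] at h2
  have h6 : c / 2 * ((T - R) * ω ^ 2) ≤
      c / 2 * ((T + X) * w1 ^ 2 + 2 * Y * w1 * w2 + (T - X) * w2 ^ 2) :=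
    mul_le_mul_of_nonneg_left h2 (by positivity)
  nlinarith

lemma Model.mark (m : Model Φ τ ρ u g1 g2 c T X Y A A') {R w1 w2 ω δ ε η Λ s x y : ℝ}
    (hρ : 0 < ρ) (hc : 0 < c) (hR : 0 ≤ R) (hXY : X ^ 2 + Y ^ 2 ≤ R ^ 2)
    (hε : 0 < ε) (hε1 : ε < 1) (hη : 0 < η) (hδ : 0 < δ)
    (hu : η ≤ ρ ^ 2 * (c * (T - R) / 2 - A)) (hA0 : 0 ≤ A)
    (hΛ : c * (T - R) ≤ Λ) (hd : 3 * Λ * ρ * δ ≤ ε ^ 2 * η)
    (hw1 : c * ((T + X) * w1 + Y * w2) = -g1) (hw2 : c * (Y * w1 + (T - X) * w2) = -g2)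
    (hω0 : 0 ≤ ω) (hω : w1 ^ 2 + w2 ^ 2 = ω ^ 2) (hωδ : ω ≤ (1 - ε) * δ)
    (hs : x ^ 2 + y ^ 2 = s ^ 2) (hδs : δ < s) (hsρ : s ≤ ρ) : Φ w1 w2 < Φ x y := by
  have hs0 : 0 < s := by linarith
  have hωs : ω ≤ (1 - ε) * s := by
    have : (1 - ε) * δ ≤ (1 - ε) * s := mul_le_mul_of_nonneg_left hδs.le (by linarith)
    linarith
  have hωs' : ω ≤ s := by nlinarith
  have hωδ' : ω ≤ δ := by nlinarith
  have hωρ : ω ≤ ρ := by linarith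
  have hL : 0 < c * (T - R) / 2 - A := by
    by_contra hcon
    push Not at hcon
    have : ρ ^ 2 * (c * (T - R) / 2 - A) ≤ 0 :=
      mul_nonpos_of_nonneg_of_nonpos (by positivity) hcon
    linarith
  set l := c * (T - R) with hl
  have hl0 : 0 < l := by linarith
  have h1 := (abs_le.mp (m.t1 w1 w2 ω hω0 hωρ hω)).2
  have h2 := (abs_le.mp (m.t1 x y s hs0.le hsρ hs)).1
  have h3 := quad_ge (T := T) (a := x - w1) (b := y - w2) hR hXY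
  have h4 : Φ x y - Φ w1 w2 = c / 2 * ((T + X) * (x - w1) ^ 2 + 2 * Y * (x - w1) * (y - w2)
      + (T - X) * (y - w2) ^ 2) + τ x y - τ w1 w2 := by
    rw [m.form, m.form]
    have e1 : g1 = -(c * ((T + X) * w1 + Y * w2)) := by linarith
    have e2 : g2 = -(c * (Y * w1 + (T - X) * w2)) := by linarith
    rw [e1, e2]; ring
  have h5 : (s - ω) ^ 2 ≤ (x - w1) ^ 2 + (y - w2) ^ 2 := by
    have h6 := (abs_le.mp (lin_le (g1 := w1) (g2 := w2) (x := x) (y := y) hω0 hs0.le hω.le hs.le)).2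
    nlinarith
  have h6 : l / 2 * (s - ω) ^ 2 ≤ c / 2 * ((T + X) * (x - w1) ^ 2 + 2 * Y * (x - w1) * (y - w2)
      + (T - X) * (y - w2) ^ 2) := by
    have h7 : c / 2 * ((T - R) * ((x - w1) ^ 2 + (y - w2) ^ 2)) ≤ _ :=
      mul_le_mul_of_nonneg_left h3 (by positivity : (0 : ℝ) ≤ c / 2)
    have h8 : l / 2 * (s - ω) ^ 2 ≤ l / 2 * ((x - w1) ^ 2 + (y - w2) ^ 2) :=
      mul_le_mul_of_nonneg_left h5 (by positivity)
    calc _ ≤ l / 2 * ((x - w1) ^ 2 + (y - w2) ^ 2) := h8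
      _ = c / 2 * ((T - R) * ((x - w1) ^ 2 + (y - w2) ^ 2)) := by rw [hl]; ring
      _ ≤ _ := h7
  have hA : A ≤ l / 2 := by linarith
  have hAρ : 0 ≤ A / ρ := by positivity
  suffices h9 : A / ρ * s ^ 3 + A / ρ * ω ^ 3 < l / 2 * (s - ω) ^ 2 by linarith
  rcases le_or_gt s (ε ^ 2 * ρ / 2) with hcase | hcase
  · -- small radius
    have h10 : ω ^ 3 ≤ s ^ 3 := pow_le_pow_left₀ hω0 hωs' 3
    have h11 : ε * s ≤ s - ω := by nlinarith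
    have h12 : (ε * s) ^ 2 ≤ (s - ω) ^ 2 := pow_le_pow_left₀ (by positivity) h11 2
    have h13 : A / ρ * s ^ 3 + A / ρ * ω ^ 3 ≤ 2 * (A / ρ) * s ^ 3 := by
      have := mul_le_mul_of_nonneg_left h10 hAρ
      linarith
    have h14 : 2 * (A / ρ) * s ^ 3 < l / 2 * (ε * s) ^ 2 := by
      have h15 : 2 * (A / ρ) * s ≤ A * ε ^ 2 := by
        have : 2 * (A / ρ) * s ≤ 2 * (A / ρ) * (ε ^ 2 * ρ / 2) :=
          mul_le_mul_of_nonneg_left hcase (by positivity)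
        calc _ ≤ _ := this
          _ = _ := by field_simp
      have h16 : A * ε ^ 2 < l / 2 * ε ^ 2 := mul_lt_mul_of_pos_right (by linarith) (by positivity)
      have h17 : 2 * (A / ρ) * s < l / 2 * ε ^ 2 := lt_of_le_of_lt h15 h16
      have h18 : 2 * (A / ρ) * s * s ^ 2 < l / 2 * ε ^ 2 * s ^ 2 :=
        mul_lt_mul_of_pos_right h17 (by positivity)
      calc _ = 2 * (A / ρ) * s * s ^ 2 := by ring
        _ < _ := h18
        _ = _ := by ring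
    have h19 : l / 2 * (ε * s) ^ 2 ≤ l / 2 * (s - ω) ^ 2 :=
      mul_le_mul_of_nonneg_left h12 (by positivity)
    linarith
  · -- larger radius
    have h10 : A / ρ * s ^ 3 ≤ A * s ^ 2 := by
      have : s ^ 3 ≤ ρ * s ^ 2 := by
        have := mul_le_mul_of_nonneg_right hsρ (sq_nonneg s)
        nlinarith
      calc A / ρ * s ^ 3 ≤ A / ρ * (ρ * s ^ 2) := mul_le_mul_of_nonneg_left this hAρ
        _ = _ := by field_simp
    have h11 : A / ρ * ω ^ 3 ≤ l / 2 * (δ * s) := by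
      have e1 : ω ^ 3 ≤ ρ * (δ * s) := by
        have f1 : ω * ω ≤ δ * s := mul_le_mul hωδ' hωs' hω0 hδ.le
        have f2 : ω * (ω * ω) ≤ ρ * (δ * s) := mul_le_mul hωρ f1 (by positivity) hρ.le
        nlinarith
      calc A / ρ * ω ^ 3 ≤ A / ρ * (ρ * (δ * s)) := mul_le_mul_of_nonneg_left e1 hAρ
        _ = A * (δ * s) := by field_simp
        _ ≤ l / 2 * (δ * s) := mul_le_mul_of_nonneg_right hA (by positivity)
    have h12 : s ^ 2 - 2 * s * δ ≤ (s - ω) ^ 2 := by nlinarith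
    have h13 : l / 2 * (s ^ 2 - 2 * s * δ) ≤ l / 2 * (s - ω) ^ 2 :=
      mul_le_mul_of_nonneg_left h12 (by positivity)
    have h14 : 3 / 2 * l * δ < (l / 2 - A) * s := by
      have e1 : η / ρ ^ 2 ≤ l / 2 - A := by
        rw [div_le_iff₀ (by positivity)]; linarith
      have e2 : η / ρ ^ 2 * (ε ^ 2 * ρ / 2) < (l / 2 - A) * s := by
        apply mul_lt_mul' e1 hcase (by positivity) hL
      have e3 : η / ρ ^ 2 * (ε ^ 2 * ρ / 2) = ε ^ 2 * η / (2 * ρ) := by field_simp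
      have e4 : 3 / 2 * l * δ ≤ ε ^ 2 * η / (2 * ρ) := by
        rw [le_div_iff₀ (by positivity)]
        have : l * (3 * ρ * δ) ≤ Λ * (3 * ρ * δ) := mul_le_mul_of_nonneg_right hΛ (by positivity)
        nlinarith
      linarith
    have h15 : 3 / 2 * l * δ * s < (l / 2 - A) * s * s := mul_lt_mul_of_pos_right h14 hs0
    nlinarith

end Run7.h255.Kost
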