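import Mathlib
import Pool.Agent.Run7.h255.Kost.D2

open MeasureTheory ProbabilityTheory
open scoped ENNReal RealInnerProductSpace

namespace Run7.h255.Kost

/-- tangent vectors at the base point -/
noncomputable def vec (x y : ℝ) : V3 := WithLp.toLp 2 ![0, x, y]

lemma vec0 (x y : ℝ) : vec x y 0 = 0 := rfl
lemma vec1 (x y : ℝ) : vec x y 1 = x := rfl
lemma vec2 (x y : ℝ) : vec x y 2 = y := rfl

lemma vec_norm_sq (x y : ℝ) : ‖vec x y‖ ^ 2 = x ^ 2 + y ^ 2 := by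
  rw [EuclideanSpace.norm_sq_eq, Fin.sum_univ_three, vec0, vec1, vec2]
  simp

lemma inner_vec (x y : ℝ) : ⟪vec x y, e0⟫ = 0 := by
  simp [e0, EuclideanSpace.inner_single_right, vec0]

lemma smul_vec (t x y : ℝ) : t • vec x y = vec (t * x) (t * y) := by
  ext i; fin_cases i <;> simp [vec]

lemma vec_zero : vec 0 0 = 0 := by
  ext i; fin_cases i <;> simp [vec]

lemma eq_vec {v : V3} (hv : ⟪v, e0⟫ = 0) : v = vec (v 1) (v 2) := by
  have h0 : v 0 = 0 := by simpa [e0, EuclideanSpace.inner_single_right] using hv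
  ext i; fin_cases i
  · simpa [vec] using h0
  · simp [vec]
  · simp [vec]

/-- the tail sums -/
noncomputable def As (n : ℕ) (b : Co (n + 2)) (ρ : ℝ) : ℝ :=
  ∑ e ∈ Finset.range n, bet (n + 2) b (e + 3) / Real.sqrt ((e + 3).factorial) * ρ ^ (e + 1)

noncomputable def As' (n : ℕ) (b : Co (n + 2)) (ρ : ℝ) : ℝ :=
  ∑ e ∈ Finset.range n,
    ((e : ℝ) + 1) * (bet (n + 2) b (e + 3) / Real.sqrt ((e + 3).factorial) * ρ ^ (e + 1))

noncomputable def tail (n : ℕ) (b : Co (n + 2)) (x y : ℝ) : ℝ :=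
  ∑ e ∈ Finset.range n, Rd (n + 2) b (e + 3) (x / Real.sqrt ((n + 2 : ℕ) : ℝ))
    (y / Real.sqrt ((n + 2 : ℕ) : ℝ))

lemma bet_nonneg (N : ℕ) (b : Co N) (d : ℕ) : 0 ≤ bet N b d := Real.sqrt_nonneg _

lemma As_nonneg (n : ℕ) (b : Co (n + 2)) {ρ : ℝ} (hρ : 0 ≤ ρ) : 0 ≤ As n b ρ :=
  Finset.sum_nonneg fun e _ => by
    have := bet_nonneg (n + 2) b (e + 3)
    positivity

lemma As'_nonneg (n : ℕ) (b : Co (n + 2)) {ρ : ℝ} (hρ : 0 ≤ ρ) : 0 ≤ As' n b ρ :=
  Finset.sum_nonneg fun e _ => by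
    have := bet_nonneg (n + 2) b (e + 3)
    positivity

lemma tail_t1 (n : ℕ) (b : Co (n + 2)) {ρ : ℝ} (hρ : 0 < ρ) (x y s : ℝ) (hs : 0 ≤ s)
    (hsρ : s ≤ ρ) (h : x ^ 2 + y ^ 2 = s ^ 2) : |tail n b x y| ≤ As n b ρ / ρ * s ^ 3 := by
  unfold tail As
  refine (Finset.abs_sum_le_sum_abs _ _).trans ?_
  rw [Finset.sum_div, Finset.sum_mul]
  refine Finset.sum_le_sum fun e _ => ?_
  have h0 := bet_nonneg (n + 2) b (e + 3)
  refine (Rd_scaled (n + 2) (by omega) b (e + 3) x y s hs h).trans ?_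
  have h1 : s ^ (e + 3) ≤ ρ ^ e * s ^ 3 := by
    rw [pow_add]
    exact mul_le_mul_of_nonneg_right (pow_le_pow_left₀ hs hsρ e) (by positivity)
  calc _ ≤ bet (n + 2) b (e + 3) / Real.sqrt ((e + 3).factorial) * (ρ ^ e * s ^ 3) :=
        mul_le_mul_of_nonneg_left h1 (by positivity)
    _ = _ := by rw [pow_succ ρ e]; field_simp

lemma tail_t2 (n : ℕ) (b : Co (n + 2)) {ρ : ℝ} (hρ : 0 < ρ) (x y t : ℝ)
    (h : x ^ 2 + y ^ 2 ≤ ρ ^ 2) (ht0 : 0 ≤ t) (ht1 : t ≤ 1) :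
    |t ^ 2 * tail n b x y - tail n b (t * x) (t * y)| ≤ t ^ 2 * (1 - t) * (ρ ^ 2 * As' n b ρ) := by
  have h1 : t ^ 2 * tail n b x y - tail n b (t * x) (t * y) =
      ∑ e ∈ Finset.range n, (t ^ 2 * (1 - t ^ (e + 1))) *
        Rd (n + 2) b (e + 3) (x / Real.sqrt ((n + 2 : ℕ) : ℝ)) (y / Real.sqrt ((n + 2 : ℕ) : ℝ)) := by
    unfold tail
    rw [Finset.mul_sum, ← Finset.sum_sub_distrib]
    refine Finset.sum_congr rfl fun e _ => ?_
    rw [mul_div_assoc, mul_div_assoc, Rd_smul]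
    ring
  rw [h1]
  refine (Finset.abs_sum_le_sum_abs _ _).trans ?_
  unfold As'
  rw [Finset.mul_sum, Finset.mul_sum]
  refine Finset.sum_le_sum fun e _ => ?_
  have h0 := bet_nonneg (n + 2) b (e + 3)
  set s := Real.sqrt (x ^ 2 + y ^ 2) with hs
  have hs2 : x ^ 2 + y ^ 2 = s ^ 2 := (Real.sq_sqrt (by positivity)).symm
  have hsρ : s ≤ ρ := Real.sqrt_le_iff.mpr ⟨hρ.le, h⟩
  have h2 := Rd_scaled (n + 2) (by omega) b (e + 3) x y s (Real.sqrt_nonneg _) hs2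
  have h3 : s ^ (e + 3) ≤ ρ ^ (e + 3) := pow_le_pow_left₀ (Real.sqrt_nonneg _) hsρ _
  have h4 : 1 - t ^ (e + 1) ≤ ((e : ℝ) + 1) * (1 - t) := by
    have := one_add_mul_le_pow (a := t - 1) (by linarith) (e + 1)
    push_cast at this
    have e1 : (1 + (t - 1)) = t := by ring
    rw [e1] at this
    linarith
  have h5 : 0 ≤ 1 - t ^ (e + 1) := by
    have := pow_le_one₀ (n := e + 1) ht0 ht1
    linarith
  rw [abs_mul, abs_of_nonneg (by positivity)]
  calc _ ≤ (t ^ 2 * (((e : ℝ) + 1) * (1 - t))) *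
        (bet (n + 2) b (e + 3) / Real.sqrt ((e + 3).factorial) * ρ ^ (e + 3)) := by
        apply mul_le_mul
        · exact mul_le_mul_of_nonneg_left h4 (by positivity)
        · exact h2.trans (mul_le_mul_of_nonneg_left h3 (by positivity))
        · exact abs_nonneg _
        · have : 0 ≤ 1 - t := by linarith
          positivity
    _ = _ := by ring

lemma model_of (n : ℕ) (b : Co (n + 2)) {ρ u g1 g2 T X Y : ℝ} (hρ : 0 < ρ)
    (h00 : b (ix (n + 2) 0 0) = -u) (h10 : b (ix (n + 2) 1 0) = g1) (h01 : b (ix (n + 2) 0 1) = g2)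
    (h20 : b (ix (n + 2) 2 0) = (T + X) / Real.sqrt 2) (h11 : b (ix (n + 2) 1 1) = Y)
    (h02 : b (ix (n + 2) 0 2) = (T - X) / Real.sqrt 2) :
    Model (fun x y => ⟪b, feat (n + 2) (e0 + vec (x / Real.sqrt ((n + 2 : ℕ) : ℝ))
        (y / Real.sqrt ((n + 2 : ℕ) : ℝ)))⟫)
      (tail n b) ρ u g1 g2 (Real.sqrt (1 - 1 / ((n + 2 : ℕ) : ℝ))) T X Y (As n b ρ) (As' n b ρ) := by
  refine ⟨?_, tail_t1 n b hρ, tail_t2 n b hρ⟩
  intro x y
  rw [expand _ _ _ (vec0 _ _), vec1, vec2]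
  set M : ℝ := ((n + 2 : ℕ) : ℝ) with hM
  have hM0 : 0 < M := by rw [hM]; positivity
  have hM1 : 1 ≤ M := by rw [hM]; push_cast; linarith [(Nat.cast_nonneg n : (0 : ℝ) ≤ n)]
  have hsM : 0 < Real.sqrt M := Real.sqrt_pos.mpr hM0
  rw [show n + 2 + 1 = n + 3 from rfl, Finset.sum_range_succ', Finset.sum_range_succ',
    Finset.sum_range_succ']
  have hR0 : Rd (n + 2) b 0 (x / Real.sqrt M) (y / Real.sqrt M) = -u := by
    simp [Rd, h00]
  have hR1 : Rd (n + 2) b (0 + 1) (x / Real.sqrt M) (y / Real.sqrt M) = g1 * x + g2 * y := by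
    simp only [Rd, zero_add, Finset.Nat.antidiagonal_succ, Finset.Nat.antidiagonal_zero]
    simp [h10, h01]
    have e1 : Real.sqrt ((n : ℝ) + 2) = Real.sqrt M := by rw [hM]; push_cast; rfl
    rw [e1]
    field_simp
    ring
  have hR2 : Rd (n + 2) b (0 + 1 + 1) (x / Real.sqrt M) (y / Real.sqrt M) =
      Real.sqrt (1 - 1 / M) / 2 * ((T + X) * x ^ 2 + 2 * Y * x * y + (T - X) * y ^ 2) := by
    have hch : ((n + 2).choose 2 : ℝ) = M * (M - 1) / 2 := by
      rw [Nat.cast_choose_two]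
    have e2 : (Real.sqrt (M * (M - 1) / 2)) = Real.sqrt (1 - 1 / M) * M / Real.sqrt 2 := by
      have : M * (M - 1) / 2 = (1 - 1 / M) * M ^ 2 / 2 := by field_simp
      rw [this, Real.sqrt_div' _ (by norm_num), Real.sqrt_mul' _ (by positivity),
        Real.sqrt_sq hM0.le]
    have e3 : (Real.sqrt (M * (M - 1) / 2 * 2)) = Real.sqrt (1 - 1 / M) * M := by
      have : M * (M - 1) / 2 * 2 = (1 - 1 / M) * M ^ 2 := by field_simp
      rw [this, Real.sqrt_mul' _ (by positivity), Real.sqrt_sq hM0.le]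
    have e4 : Real.sqrt M ^ 2 = M := Real.sq_sqrt hM0.le
    have e5 : Real.sqrt 2 ^ 2 = 2 := Real.sq_sqrt (by norm_num)
    have hs2 : 0 < Real.sqrt 2 := by positivity
    simp only [Rd, zero_add, Finset.Nat.antidiagonal_succ, Finset.Nat.antidiagonal_zero]
    simp only [Finset.map_singleton, Finset.cons_eq_insert, Finset.map_insert]
    rw [Finset.sum_insert (by simp), Finset.sum_insert (by simp), Finset.sum_singleton]
    simp only [Function.Embedding.prodMap, Function.Embedding.coeFn_mk, Prod.map,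
      Function.Embedding.refl_apply, Nat.succ_eq_add_one, zero_add]
    norm_num
    rw [h20, h11, h02, hch, e2]
    simp only [one_div]
    set cc := Real.sqrt (1 - M⁻¹) with hcc
    field_simp
    rw [e4, e5]
    ring
  rw [hR0, hR1, hR2]
  unfold tail
  simp only [add_assoc, Nat.reduceAdd]
  ring

end Run7.h255.Kost
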