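import Mathlib
import Pool.Agent.Run7.h255.Kost.D3

open MeasureTheory ProbabilityTheory
open scoped ENNReal RealInnerProductSpace

namespace Run7.h255.Kost

lemma good_of_neg {P : V3 → ℝ} {r d : ℝ} {y : V3} (g : Good (fun x => -P x) r d y) :
    Good P r d y := by
  obtain ⟨h1, h2, h3, h4⟩ := g
  simp only [neg_mul_neg, abs_neg] at h2 h3 h4
  exact ⟨h1, h2, h3, h4⟩

lemma good_of_model {N : ℕ} (hN : 0 < N) {P : V3 → ℝ} {τ : ℝ → ℝ → ℝ}
    {ρ u g1 g2 c T X Y A A' R γ ε η Λ δ w1 w2 ω : ℝ}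
    (m : Model (fun x y => P (e0 + vec (x / Real.sqrt N) (y / Real.sqrt N))) τ ρ u g1 g2 c T X Y
      A A')
    (hρ : 0 < ρ) (hγ : 0 ≤ γ) (hc : 0 < c) (hR : 0 ≤ R) (hXY : X ^ 2 + Y ^ 2 ≤ R ^ 2)
    (hg : g1 ^ 2 + g2 ^ 2 ≤ γ ^ 2) (hA0 : 0 ≤ A) (hA' : 0 ≤ A')
    (hε : 0 < ε) (hε1 : ε < 1) (hη : 0 < η) (hδ : 0 < δ) (hργ : ρ * γ ≤ η)
    (hu1 : ρ ^ 2 * A' / 2 + η < u) (hu2 : u < ρ ^ 2 * (c * (T - R) / 2 - A) - η)
    (hΛ : c * (T - R) ≤ Λ) (hd : 3 * Λ * ρ * δ ≤ ε ^ 2 * η) (hδρ : δ ≤ ρ)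
    (hw1 : c * ((T + X) * w1 + Y * w2) = -g1) (hw2 : c * (Y * w1 + (T - X) * w2) = -g2)
    (hω0 : 0 ≤ ω) (hω : w1 ^ 2 + w2 ^ 2 = ω ^ 2) (hωδ : ω ≤ (1 - ε) * δ) :
    Good P (ρ / Real.sqrt N) (δ / Real.sqrt N) e0 := by
  have hN' : (0 : ℝ) < N := by exact_mod_cast hN
  have hsN : 0 < Real.sqrt N := Real.sqrt_pos.mpr hN'
  have hA'0 : 0 ≤ ρ ^ 2 * A' / 2 := by positivity
  have hu0 : 0 < u := by linarith
  have hωδ' : ω < δ := by nlinarith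
  have hωρ : ω ≤ ρ := by linarith
  have hA : A ≤ c * (T - R) / 2 := by
    by_contra hcon
    push Not at hcon
    have : ρ ^ 2 * (c * (T - R) / 2 - A) ≤ 0 :=
      mul_nonpos_of_nonneg_of_nonpos (by positivity) (by linarith)
    linarith
  set Φ : ℝ → ℝ → ℝ := fun x y => P (e0 + vec (x / Real.sqrt N) (y / Real.sqrt N)) with hΦ
  have hP0 : P e0 = -u := by
    have h1 := m.form 0 0
    have h2 : τ 0 0 = 0 := by
      have h3 := m.t1 0 0 0 le_rfl hρ.le (by ring)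
      have h4 : A / ρ * (0 : ℝ) ^ 3 = 0 := by ring
      rw [h4] at h3
      exact abs_eq_zero.mp (le_antisymm h3 (abs_nonneg _))
    have h5 : Φ 0 0 = P e0 := by
      simp only [hΦ, zero_div, vec_zero, add_zero]
    rw [← h5, h1, h2]; ring
  -- conversion of tangent vectors
  have conv : ∀ v : V3, ⟪v, e0⟫ = 0 → ∃ x y : ℝ, v = vec (x / Real.sqrt N) (y / Real.sqrt N) ∧
      x ^ 2 + y ^ 2 = (Real.sqrt N * ‖v‖) ^ 2 := by
    intro v hv
    refine ⟨Real.sqrt N * v 1, Real.sqrt N * v 2, ?_, ?_⟩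
    · rw [mul_div_cancel_left₀ _ hsN.ne', mul_div_cancel_left₀ _ hsN.ne']
      exact eq_vec hv
    · have h1 : ‖v‖ ^ 2 = v 1 ^ 2 + v 2 ^ 2 := by
        conv_lhs => rw [eq_vec hv]
        exact vec_norm_sq _ _
      rw [mul_pow _ ‖v‖, h1]; ring
  have hΦv : ∀ x y : ℝ, P (e0 + vec (x / Real.sqrt N) (y / Real.sqrt N)) = Φ x y := fun _ _ => rfl
  have scale : ∀ v : V3, ‖v‖ ≤ ρ / Real.sqrt N → Real.sqrt N * ‖v‖ ≤ ρ := by
    intro v hv
    rw [le_div_iff₀ hsN] at hv; linarith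
  constructor
  · exact norm_e0
  · intro v hv hv0 hvr t ht0 ht1
    obtain ⟨x, y, hxy, hn⟩ := conv v hv
    have h1 : x ^ 2 + y ^ 2 ≤ ρ ^ 2 := by
      rw [hn]; exact pow_le_pow_left₀ (by positivity) (scale v hvr) 2
    have h2 := m.ray hρ hγ hg hA' (by linarith) h1 ht0 ht1
    rw [hxy, smul_vec, mul_div_assoc', mul_div_assoc', hΦv, hΦv, hP0]
    nlinarith
  · intro v hv hvr
    obtain ⟨x, y, hxy, hn⟩ := conv v hv
    have h1 : x ^ 2 + y ^ 2 = ρ ^ 2 := by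
      rw [hn, hvr]; congr 1; field_simp
    have h2 := m.bd hρ hγ hc hR hXY hg (by linarith) h1
    rw [hxy, hΦv, hP0]
    nlinarith
  · have hnw : ‖vec (w1 / Real.sqrt N) (w2 / Real.sqrt N)‖ = ω / Real.sqrt N := by
      have h1 : ‖vec (w1 / Real.sqrt N) (w2 / Real.sqrt N)‖ ^ 2 = (ω / Real.sqrt N) ^ 2 := by
        rw [vec_norm_sq, div_pow, div_pow, div_pow, ← hω]; ring
      have h2 : 0 ≤ ω / Real.sqrt N := by positivity
      exact (pow_left_inj₀ (norm_nonneg _) h2 (by norm_num)).mp h1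
    have hneg := m.mark_neg hρ hc hR hXY hu0 hA hA0 hw1 hw2 hω0 hω hωρ
    refine ⟨vec (w1 / Real.sqrt N) (w2 / Real.sqrt N), inner_vec _ _, ?_, ?_, ?_, ?_⟩
    · rw [hnw]; gcongr
    · rw [hnw]; gcongr; linarith
    · rw [hΦv, hP0]; nlinarith
    · intro v hv hdv hvr hvP
      obtain ⟨x, y, hxy, hn⟩ := conv v hv
      rw [hxy, hΦv, hP0] at hvP
      have hvneg : Φ x y < 0 := by
        by_contra hcon
        push Not at hcon
        have : -u * Φ x y ≤ 0 := mul_nonpos_of_nonpos_of_nonneg (by linarith) hcon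
        linarith
      have h1 : δ < Real.sqrt N * ‖v‖ := by
        rw [div_lt_iff₀ hsN] at hdv; linarith
      have h2 := m.mark hρ hc hR hXY hε hε1 hη hδ (by linarith) hA0 hΛ hd hw1 hw2 hω0 hω hωδ hn h1
        (scale v hvr)
      rw [hxy, hΦv, hΦv, abs_of_neg hvneg, abs_of_neg hneg]
      linarith

end Run7.h255.Kost
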