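import Mathlib
import Pool.Agent.Run7.h255.Kost.D1

open MeasureTheory ProbabilityTheory
open scoped ENNReal RealInnerProductSpace

namespace Run7.h255.Kost

section mix

variable {ι : Type*} [Fintype ι] [DecidableEq ι]

omit [Fintype ι] in
/-- rotation of two coordinates -/
noncomputable def mixFun (p q : ι) (x : EuclideanSpace ℝ ι) : EuclideanSpace ℝ ι :=
  WithLp.toLp 2 fun i => if i = p then (x p + x q) / Real.sqrt 2
    else if i = q then (x p - x q) / Real.sqrt 2 else x i

omit [Fintype ι] in
lemma mixFun_p (p q : ι) (x : EuclideanSpace ℝ ι) :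
    mixFun p q x p = (x p + x q) / Real.sqrt 2 := by simp [mixFun]

omit [Fintype ι] in
lemma mixFun_q {p q : ι} (h : p ≠ q) (x : EuclideanSpace ℝ ι) :
    mixFun p q x q = (x p - x q) / Real.sqrt 2 := by simp [mixFun, h.symm]

omit [Fintype ι] in
lemma mixFun_of_ne {p q i : ι} (h1 : i ≠ p) (h2 : i ≠ q) (x : EuclideanSpace ℝ ι) :
    mixFun p q x i = x i := by simp [mixFun, h1, h2]

omit [Fintype ι] in
lemma mixFun_invol {p q : ι} (h : p ≠ q) (x : EuclideanSpace ℝ ι) :
    mixFun p q (mixFun p q x) = x := by
  have e5 : Real.sqrt 2 ^ 2 = 2 := Real.sq_sqrt (by norm_num)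
  have hs2 : 0 < Real.sqrt 2 := by positivity
  ext i
  by_cases h1 : i = p
  · subst h1
    rw [mixFun_p, mixFun_p, mixFun_q h]
    field_simp
    rw [e5]; ring
  · by_cases h2 : i = q
    · subst h2
      rw [mixFun_q h, mixFun_p, mixFun_q h]
      field_simp
      rw [e5]; ring
    · rw [mixFun_of_ne h1 h2, mixFun_of_ne h1 h2]

lemma mixFun_norm {p q : ι} (h : p ≠ q) (x : EuclideanSpace ℝ ι) : ‖mixFun p q x‖ = ‖x‖ := by
  have e5 : Real.sqrt 2 ^ 2 = 2 := Real.sq_sqrt (by norm_num)
  have h1 : ‖mixFun p q x‖ ^ 2 = ‖x‖ ^ 2 := by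
    rw [EuclideanSpace.norm_sq_eq, EuclideanSpace.norm_sq_eq, ← sub_eq_zero,
      ← Finset.sum_sub_distrib]
    rw [Finset.sum_eq_add p q h]
    · rw [mixFun_p, mixFun_q h]
      simp only [Real.norm_eq_abs, sq_abs, div_pow, e5]
      ring
    · intro i _ hi
      rw [mixFun_of_ne hi.1 hi.2]; ring
    · intro hp; exact absurd (Finset.mem_univ _) hp
    · intro hp; exact absurd (Finset.mem_univ _) hp
  exact (pow_left_inj₀ (norm_nonneg _) (norm_nonneg _) (by norm_num)).mp h1

/-- the rotation as an isometry -/
noncomputable def mix {p q : ι} (h : p ≠ q) : EuclideanSpace ℝ ι ≃ₗᵢ[ℝ] EuclideanSpace ℝ ι where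
  toFun := mixFun p q
  invFun := mixFun p q
  left_inv := mixFun_invol h
  right_inv := mixFun_invol h
  map_add' := by
    intro x y
    ext i
    simp only [mixFun, PiLp.add_apply]
    split_ifs <;> ring
  map_smul' := by
    intro t x
    ext i
    simp only [mixFun, PiLp.smul_apply, smul_eq_mul, RingHom.id_apply]
    split_ifs <;> ring
  norm_map' := mixFun_norm h

lemma mix_apply {p q : ι} (h : p ≠ q) (x : EuclideanSpace ℝ ι) : mix h x = mixFun p q x := rfl

end mix

section update

variable {ι : Type*} [Fintype ι] [DecidableEq ι] (ν : Measure ℝ) [IsProbabilityMeasure ν]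

/-- resampling one coordinate preserves the product measure -/
lemma mp_update (i : ι) : MeasurePreserving (fun p : (ι → ℝ) × ℝ => Function.update p.1 i p.2)
    ((Measure.pi fun _ : ι => ν).prod ν) (Measure.pi fun _ : ι => ν) := by
  have hm : Measurable (fun p : (ι → ℝ) × ℝ => Function.update p.1 i p.2) := by
    rw [measurable_pi_iff]
    intro j
    by_cases h : j = i
    · subst h; simpa using measurable_snd
    · simp only [Function.update_of_ne h]
      exact (measurable_pi_apply j).comp measurable_fst
  refine ⟨hm, ?_⟩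
  symm
  refine Measure.pi_eq fun s hs' => ?_
  rw [Measure.map_apply hm (MeasurableSet.univ_pi hs')]
  have hpre : (fun p : (ι → ℝ) × ℝ => Function.update p.1 i p.2) ⁻¹' Set.univ.pi s =
      (Set.univ.pi (Function.update s i Set.univ)) ×ˢ s i := by
    ext p
    simp only [Set.mem_preimage, Set.mem_pi, Set.mem_univ, forall_true_left, Set.mem_prod]
    constructor
    · intro h
      refine ⟨fun j => ?_, by simpa using h i⟩
      by_cases hj : j = i
      · subst hj; simp
      · have := h j
        rw [Function.update_of_ne hj] at this ⊢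
        exact this
    · rintro ⟨h1, h2⟩ j
      by_cases hj : j = i
      · subst hj; simpa using h2
      · have := h1 j
        rw [Function.update_of_ne hj] at this ⊢
        exact this
  rw [hpre, Measure.prod_prod, Measure.pi_pi]
  rw [← Finset.mul_prod_erase Finset.univ (fun j => ν (Function.update s i Set.univ j))
      (Finset.mem_univ i),
    ← Finset.mul_prod_erase Finset.univ (fun j => ν (s j)) (Finset.mem_univ i)]
  rw [Function.update_self, measure_univ, one_mul, mul_comm]
  congr 1
  refine Finset.prod_congr rfl fun j hj => ?_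
  rw [Function.update_of_ne (Finset.ne_of_mem_erase hj)]

/-- composition of resamplings -/
lemma mp_two {Ω α β : Type*} [MeasurableSpace Ω] [MeasurableSpace α] [MeasurableSpace β]
    {μ : Measure Ω} {μa : Measure α} {μb : Measure β} [SFinite μ] [SFinite μa] [SFinite μb]
    {f : Ω × α → Ω} {g : Ω × β → Ω} (hf : MeasurePreserving f (μ.prod μa) μ)
    (hg : MeasurePreserving g (μ.prod μb) μ) :
    MeasurePreserving (fun p : Ω × (α × β) => g (f (p.1, p.2.1), p.2.2))
      (μ.prod (μa.prod μb)) μ := by
  have h1 := (measurePreserving_prodAssoc μ μa μb).symm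
  have h2 : MeasurePreserving (Prod.map f id) ((μ.prod μa).prod μb) (μ.prod μb) :=
    hf.prod (MeasurePreserving.id μb)
  exact hg.comp (h2.comp h1)

end update

end Run7.h255.Kost
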