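import Mathlib
import Pool.Agent.Run7.h255.Kost.D4
import Pool.Agent.Run7.h255.Kost.E1

open MeasureTheory ProbabilityTheory
open scoped ENNReal RealInnerProductSpace

namespace Run7.h255.Kost

/-- Jensen's inequality for a positive part -/
lemma jensen_lower {Ω : Type*} [MeasurableSpace Ω] (μ : Measure Ω) [IsProbabilityMeasure μ]
    (Q : Ω → ℝ) (hQ : Measurable Q) {m : ℝ} (hm : 0 ≤ m)
    (h : ∫⁻ x, ENNReal.ofReal (Q x) ∂μ ≤ ENNReal.ofReal m) (L : ℝ) :
    ENNReal.ofReal (L - m) ≤ ∫⁻ x, ENNReal.ofReal (L - Q x) ∂μ := by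
  have h1 : ENNReal.ofReal L ≤ ∫⁻ x, (ENNReal.ofReal (L - Q x) + ENNReal.ofReal (Q x)) ∂μ := by
    calc ENNReal.ofReal L = ∫⁻ _, ENNReal.ofReal L ∂μ := by simp
      _ ≤ _ := by
        refine lintegral_mono fun x => ?_
        calc ENNReal.ofReal L = ENNReal.ofReal ((L - Q x) + Q x) := by congr 1; ring
          _ ≤ _ := ENNReal.ofReal_add_le
  rw [lintegral_add_right _ (by fun_prop)] at h1
  rw [ENNReal.ofReal_sub _ hm, tsub_le_iff_right]
  exact h1.trans (add_le_add_right h _)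

lemma bet_moment (N : ℕ) (d : ℕ) :
    ∫⁻ x, ENNReal.ofReal (bet N (WithLp.toLp 2 x) d) ∂(Measure.pi fun _ : Idx N => gaussianReal 0 1)
      ≤ ENNReal.ofReal (Real.sqrt (d + 1)) := by
  set k : ℝ := Real.sqrt (d + 1) with hk
  have hk0 : 0 < k := Real.sqrt_pos.mpr (by positivity)
  have hk2 : k ^ 2 = d + 1 := Real.sq_sqrt (by positivity)
  have h1 : ∀ x : Idx N → ℝ, ENNReal.ofReal (bet N (WithLp.toLp 2 x) d) ≤
      ENNReal.ofReal (1 / (2 * k)) *
        ∑ p ∈ Finset.HasAntidiagonal.antidiagonal d, ENNReal.ofReal (x (ix N p.1 p.2) ^ 2) +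
        ENNReal.ofReal (k / 2) := by
    intro x
    have h2 : (bet N (WithLp.toLp 2 x) d) ^ 2 =
        ∑ p ∈ Finset.HasAntidiagonal.antidiagonal d, x (ix N p.1 p.2) ^ 2 :=
      Real.sq_sqrt (Finset.sum_nonneg fun _ _ => sq_nonneg _)
    rw [← ENNReal.ofReal_sum_of_nonneg (fun _ _ => sq_nonneg _), ← h2,
      ← ENNReal.ofReal_mul (by positivity), ← ENNReal.ofReal_add (by positivity) (by positivity)]
    apply ENNReal.ofReal_le_ofReal
    have h3 : 0 ≤ (bet N (WithLp.toLp 2 x) d - k) ^ 2 / (2 * k) := by positivity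
    have h4 : (bet N (WithLp.toLp 2 x) d - k) ^ 2 / (2 * k) =
        1 / (2 * k) * bet N (WithLp.toLp 2 x) d ^ 2 + k / 2 - bet N (WithLp.toLp 2 x) d := by
      field_simp
      ring
    linarith
  refine (lintegral_mono h1).trans ?_
  rw [lintegral_add_right _ measurable_const, lintegral_const_mul' _ _ ENNReal.ofReal_ne_top]
  rw [lintegral_finsetSum _ (fun p _ => by fun_prop)]
  have h5 : ∀ i : Idx N, ∫⁻ x : Idx N → ℝ, ENNReal.ofReal (x i ^ 2)
      ∂(Measure.pi fun _ : Idx N => gaussianReal 0 1) = 1 := by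
    intro i
    have h6 := measurePreserving_eval (fun _ : Idx N => gaussianReal 0 1) i
    have h7 := h6.lintegral_comp (f := fun x : ℝ => ENNReal.ofReal (x ^ 2)) (by fun_prop)
    simp only [Function.eval] at h7
    rw [h7, second_moment]
  simp only [h5]
  rw [Finset.sum_const, Finset.Nat.card_antidiagonal]
  simp only [lintegral_const, measure_univ, mul_one, nsmul_eq_mul]
  have h8 : ((d + 1 : ℕ) : ℝ≥0∞) = ENNReal.ofReal (d + 1) := by
    rw [← ENNReal.ofReal_natCast]; push_cast; rfl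
  rw [h8, ← ENNReal.ofReal_mul (by positivity), ← ENNReal.ofReal_add (by positivity) (by positivity)]
  apply ENNReal.ofReal_le_ofReal
  rw [← hk2]
  apply le_of_eq
  field_simp
  ring

/-- the noise -/
noncomputable def Qs (n : ℕ) (b : Co (n + 2)) (ρ : ℝ) : ℝ := As n b ρ + As' n b ρ / 2

lemma Qs_eq (n : ℕ) (b : Co (n + 2)) (ρ : ℝ) : Qs n b ρ = ∑ e ∈ Finset.range n,
    (((e : ℝ) + 3) / 2 / Real.sqrt ((e + 3).factorial) * ρ ^ (e + 1)) * bet (n + 2) b (e + 3) := by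
  unfold Qs As As'
  rw [Finset.sum_div, ← Finset.sum_add_distrib]
  refine Finset.sum_congr rfl fun e _ => ?_
  ring

lemma term_sq (e : ℕ) : (((e : ℝ) + 3) / 2) ^ 2 * ((e : ℝ) + 4) / (e + 3).factorial *
    (9 / 100) ^ (e + 1) ≤ 27 / 200 * (1 / 20) ^ e := by
  induction e with
  | zero => norm_num [Nat.factorial]
  | succ e ih =>
    have hf : (0 : ℝ) < (e + 3).factorial := by exact_mod_cast Nat.factorial_pos _
    have h1 : (((e + 1 : ℕ) : ℝ) + 3) / 2 = ((e : ℝ) + 4) / 2 := by push_cast; ring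
    have h2 : ((e + 1 + 3).factorial : ℝ) = ((e : ℝ) + 4) * (e + 3).factorial := by
      rw [show e + 1 + 3 = (e + 3) + 1 from rfl, Nat.factorial_succ]; push_cast; ring
    rw [h1, h2]
    push_cast
    have h3 : (((e : ℝ) + 4) / 2) ^ 2 * ((e : ℝ) + 1 + 4) / (((e : ℝ) + 4) * (e + 3).factorial) *
        (9 / 100) ^ (e + 1 + 1) = ((((e : ℝ) + 3) / 2) ^ 2 * ((e : ℝ) + 4) / (e + 3).factorial *
          (9 / 100) ^ (e + 1)) * (((e : ℝ) + 5) / ((e : ℝ) + 3) ^ 2 * (9 / 100)) := by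
      rw [pow_succ (9 / 100 : ℝ) (e + 1)]
      field_simp
      ring
    have h6 : (27 / 200 : ℝ) * (1 / 20) ^ (e + 1) = (27 / 200 * (1 / 20) ^ e) * (1 / 20) := by ring
    rw [h3, h6]
    apply mul_le_mul ih _ (by positivity) (by positivity)
    have h4 : ((e : ℝ) + 5) / ((e : ℝ) + 3) ^ 2 ≤ 5 / 9 := by
      rw [div_le_div_iff₀ (by positivity) (by norm_num)]
      have : (0 : ℝ) ≤ e := Nat.cast_nonneg e
      nlinarith
    linarith

lemma term_le (e : ℕ) : ((e : ℝ) + 3) / 2 / Real.sqrt ((e + 3).factorial) * (3 / 10) ^ (e + 1) *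
    Real.sqrt ((e + 3 : ℕ) + 1) ≤ 36743 / 100000 * (2237 / 10000) ^ e := by
  have hf : (0 : ℝ) < (e + 3).factorial := by exact_mod_cast Nat.factorial_pos _
  refine (sq_le_sq₀ (by positivity) (by positivity)).mp ?_
  have h1 : (((e : ℝ) + 3) / 2 / Real.sqrt ((e + 3).factorial) * (3 / 10) ^ (e + 1) *
      Real.sqrt ((e + 3 : ℕ) + 1)) ^ 2 = (((e : ℝ) + 3) / 2) ^ 2 * ((e : ℝ) + 4) / (e + 3).factorial *
      (9 / 100) ^ (e + 1) := by
    rw [mul_pow, mul_pow, div_pow, Real.sq_sqrt hf.le, Real.sq_sqrt (by positivity), ← pow_mul,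
      mul_comm (e + 1) 2, pow_mul]
    push_cast
    norm_num
    ring
  rw [h1]
  refine (term_sq e).trans ?_
  rw [mul_pow, ← pow_mul, mul_comm e 2, pow_mul]
  apply mul_le_mul (by norm_num) _ (by positivity) (by positivity)
  exact pow_le_pow_left₀ (by norm_num) (by norm_num) e

lemma meas_bet (N : ℕ) (d : ℕ) : Measurable fun x : Idx N → ℝ => bet N (WithLp.toLp 2 x) d := by
  unfold bet
  fun_prop

lemma Qs_moment (n : ℕ) :
    ∫⁻ x, ENNReal.ofReal (Qs n (WithLp.toLp 2 x) (3 / 10))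
      ∂(Measure.pi fun _ : Idx (n + 2) => gaussianReal 0 1) ≤ ENNReal.ofReal (4734 / 10000) := by
  simp only [Qs_eq]
  have h1 : ∀ x : Idx (n + 2) → ℝ, ENNReal.ofReal (∑ e ∈ Finset.range n,
      (((e : ℝ) + 3) / 2 / Real.sqrt ((e + 3).factorial) * (3 / 10) ^ (e + 1)) *
        bet (n + 2) (WithLp.toLp 2 x) (e + 3)) =
      ∑ e ∈ Finset.range n, ENNReal.ofReal (((e : ℝ) + 3) / 2 / Real.sqrt ((e + 3).factorial) *
        (3 / 10) ^ (e + 1)) * ENNReal.ofReal (bet (n + 2) (WithLp.toLp 2 x) (e + 3)) := by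
    intro x
    rw [ENNReal.ofReal_sum_of_nonneg]
    · refine Finset.sum_congr rfl fun e _ => ?_
      rw [ENNReal.ofReal_mul (by positivity)]
    · intro e _
      have := bet_nonneg (n + 2) (WithLp.toLp 2 x) (e + 3)
      positivity
  simp only [h1]
  rw [lintegral_finsetSum _ (fun e _ => by
    exact (measurable_const.mul (meas_bet (n + 2) (e + 3)).ennreal_ofReal))]
  have h2 : ∀ e ∈ Finset.range n, ∫⁻ x : Idx (n + 2) → ℝ, ENNReal.ofReal (((e : ℝ) + 3) / 2 /
      Real.sqrt ((e + 3).factorial) * (3 / 10) ^ (e + 1)) *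
        ENNReal.ofReal (bet (n + 2) (WithLp.toLp 2 x) (e + 3))
        ∂(Measure.pi fun _ : Idx (n + 2) => gaussianReal 0 1) ≤
      ENNReal.ofReal (36743 / 100000 * (2237 / 10000) ^ e) := by
    intro e _
    rw [lintegral_const_mul' _ _ ENNReal.ofReal_ne_top]
    refine (mul_le_mul_right (bet_moment (n + 2) (e + 3)) _).trans ?_
    rw [← ENNReal.ofReal_mul (by positivity)]
    exact ENNReal.ofReal_le_ofReal (term_le e)
  refine (Finset.sum_le_sum h2).trans ?_
  rw [← ENNReal.ofReal_sum_of_nonneg (fun e _ => by positivity)]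
  apply ENNReal.ofReal_le_ofReal
  rw [← Finset.mul_sum]
  have h3 := geom_sum_mul_neg (2237 / 10000 : ℝ) n
  have h4 : (0 : ℝ) ≤ (2237 / 10000) ^ n := by positivity
  have h5 : (∑ i ∈ Finset.range n, (2237 / 10000 : ℝ) ^ i) ≤ 10000 / 7763 := by
    rw [le_div_iff₀ (by norm_num)]
    linarith
  linarith

end Run7.h255.Kost
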