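import Mathlib

namespace Run7.h255.Kost

/-- rational lower bounds for the Gaussian density -/
def ek (k : ℕ) : ℕ := 10 ^ 10 * 2047 ^ (k * k) / 2048 ^ (k * k)

/-- threshold -/
@[irreducible] def thr : ℕ := 30336

lemma thr_cast : ((thr : ℕ) : ℝ) = 30336 := by
  unfold thr; norm_num

/-- first factor of the weight of a cell -/
def wa (i j : ℕ) : ℕ := i * i - (j + 1) * (j + 1)

/-- second factor of the weight of a cell -/
def wb (i j : ℕ) : ℕ := 1000 * (i - (j + 1)) - thr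

/-- the weights of the cells -/
def wt (i j : ℕ) : ℕ := (2 * j + 1) * (wa i j * wb i j)

/-- the total weight -/
def tot : ℕ := ∑ i ∈ Finset.range 128, ek (i + 1) * ∑ j ∈ Finset.range 64, ek (j + 1) * wt i j

lemma tot_ge : 309 * 10 ^ 29 ≤ tot := by
  decide +kernel

lemma tot_cast : (tot : ℝ) = ∑ i ∈ Finset.range 128, (ek (i + 1) : ℝ) *
    ∑ j ∈ Finset.range 64, (ek (j + 1) : ℝ) * (wt i j : ℝ) := by
  unfold tot
  push_cast
  rfl

lemma tot_ge' : (309 : ℝ) * 10 ^ 29 ≤ tot := by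
  have h := (Nat.cast_le (α := ℝ)).mpr tot_ge
  have h2 : ((309 * 10 ^ 29 : ℕ) : ℝ) = 309 * 10 ^ 29 := by norm_num
  rwa [h2] at h

end Run7.h255.Kost
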