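import Mathlib
import Pool.Agent.Run7.h255.Kost.Cone
import Pool.Agent.Run7.h255.Kost.E3

open MeasureTheory ProbabilityTheory
open scoped ENNReal RealInnerProductSpace

namespace Run7.h255.Kost

/-- normalising constant -/
noncomputable def nc : ℝ := (Real.sqrt (2 * Real.pi))⁻¹

lemma nc_pos : 0 < nc := by unfold nc; positivity

lemma nc_sq : nc * nc = (2 * Real.pi)⁻¹ := by
  unfold nc
  rw [← mul_inv, Real.mul_self_sqrt (by positivity)]

lemma nc_ge : 39894 / 100000 ≤ nc := by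
  unfold nc
  rw [le_inv_comm₀ (by norm_num) (by positivity)]
  rw [Real.sqrt_le_left (by norm_num)]
  have := Real.pi_lt_d6
  norm_num
  linarith

lemma pdf_eq (x : ℝ) : gaussianPDF 0 1 x = ENNReal.ofReal (nc * Real.exp (-x ^ 2 / 2)) := by
  rw [gaussianPDF_def, gaussianPDFReal_def]
  simp [nc]

lemma pdf_ge {x K : ℝ} (h : x ^ 2 ≤ K ^ 2) :
    ENNReal.ofReal (nc * Real.exp (-K ^ 2 / 2)) ≤ gaussianPDF 0 1 x := by
  rw [pdf_eq]
  apply ENNReal.ofReal_le_ofReal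
  apply mul_le_mul_of_nonneg_left _ nc_pos.le
  apply Real.exp_le_exp.mpr
  linarith

lemma gauss1_ge {K : ℝ} {S : Set ℝ} (hS : MeasurableSet S) (h : ∀ x ∈ S, x ^ 2 ≤ K ^ 2) :
    ENNReal.ofReal (nc * Real.exp (-K ^ 2 / 2)) * volume S ≤ gaussianReal 0 1 S := by
  rw [gaussianReal_apply 0 one_ne_zero, ← setLIntegral_const]
  exact setLIntegral_mono' hS fun x hx => pdf_ge (h x hx)

lemma gauss2_ge {K : ℝ} {S : Set (ℝ × ℝ)} (hS : MeasurableSet S)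
    (h : ∀ p ∈ S, p.1 ^ 2 + p.2 ^ 2 ≤ K ^ 2) :
    ENNReal.ofReal ((2 * Real.pi)⁻¹ * Real.exp (-K ^ 2 / 2)) * volume S ≤
      ((gaussianReal 0 1).prod (gaussianReal 0 1)) S := by
  rw [gaussianReal_of_var_ne_zero 0 (one_ne_zero)]
  rw [prod_withDensity (measurable_gaussianPDF 0 1) (measurable_gaussianPDF 0 1),
    withDensity_apply _ hS, ← setLIntegral_const, Measure.volume_eq_prod]
  refine setLIntegral_mono' hS fun p hp => ?_
  rw [pdf_eq, pdf_eq, ← ENNReal.ofReal_mul (mul_nonneg nc_pos.le (Real.exp_pos _).le)]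
  apply ENNReal.ofReal_le_ofReal
  have h1 : nc * Real.exp (-p.1 ^ 2 / 2) * (nc * Real.exp (-p.2 ^ 2 / 2)) =
      (2 * Real.pi)⁻¹ * Real.exp (-(p.1 ^ 2 + p.2 ^ 2) / 2) := by
    rw [← nc_sq]
    have : -(p.1 ^ 2 + p.2 ^ 2) / 2 = -p.1 ^ 2 / 2 + -p.2 ^ 2 / 2 := by ring
    rw [this, Real.exp_add]; ring
  rw [h1]
  apply mul_le_mul_of_nonneg_left _ (by positivity)
  apply Real.exp_le_exp.mpr
  have := h p hp
  linarith

/-- the set of gradients producing a nearby critical point -/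
def ell (c ω T X Y : ℝ) : Set (ℝ × ℝ) :=
  {g | ((T - X) * g.1 - Y * g.2) ^ 2 + ((T + X) * g.2 - Y * g.1) ^ 2 ≤
    (ω * c * (T ^ 2 - X ^ 2 - Y ^ 2)) ^ 2}

lemma meas_ell (c ω T X Y : ℝ) : MeasurableSet (ell c ω T X Y) :=
  measurableSet_le (by fun_prop) (by fun_prop)

lemma vol_ell {c ω T X Y : ℝ} (hc : 0 ≤ c) (hω : 0 ≤ ω) (hD : 0 < T ^ 2 - X ^ 2 - Y ^ 2) :
    volume (ell c ω T X Y) =
      ENNReal.ofReal (Real.pi * (ω * c) ^ 2 * (T ^ 2 - X ^ 2 - Y ^ 2)) := by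
  set D := T ^ 2 - X ^ 2 - Y ^ 2 with hDdef
  set f : ℝ × ℝ →ₗ[ℝ] ℝ × ℝ := Matrix.toLin (Module.Basis.finTwoProd ℝ)
    (Module.Basis.finTwoProd ℝ) !![T - X, -Y; -Y, T + X] with hf
  have hdet : LinearMap.det f = D := by
    rw [hf, LinearMap.det_toLin, Matrix.det_fin_two_of]
    rw [hDdef]; ring
  have hfa : ∀ g : ℝ × ℝ, f g = ((T - X) * g.1 - Y * g.2, (T + X) * g.2 - Y * g.1) := by
    intro g
    rw [hf, Matrix.toLin_finTwoProd_apply]
    ext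
    · simp; ring
    · simp; ring
  have h1 : ell c ω T X Y = f ⁻¹' {p : ℝ × ℝ | p.1 ^ 2 + p.2 ^ 2 ≤ (ω * c * D) ^ 2} := by
    ext g
    simp only [ell, Set.mem_ofPred_eq, Set.mem_preimage, hfa]
    rfl
  rw [h1, Measure.addHaar_preimage_linearMap volume (by rw [hdet]; exact hD.ne'), hdet,
    vol_disc _ (by positivity), abs_of_pos (by positivity), ← ENNReal.ofReal_mul (by positivity)]
  congr 1
  field_simp

/-- intervals -/
lemma interval_ge {a b : ℝ} (ha : 0 ≤ a) :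
    ENNReal.ofReal (nc * Real.exp (-b ^ 2 / 2) * (b - a)) ≤ gaussianReal 0 1 (Set.Ioc a b) := by
  have h1 := gauss1_ge (K := b) (S := Set.Ioc a b) measurableSet_Ioc (by
    intro x hx
    exact pow_le_pow_left₀ (by linarith [hx.1]) hx.2 2)
  rw [Real.volume_Ioc, ← ENNReal.ofReal_mul (mul_nonneg nc_pos.le (Real.exp_pos _).le)] at h1
  exact h1

def ring2 (a b : ℝ) : Set (ℝ × ℝ) := {p | a ^ 2 < p.1 ^ 2 + p.2 ^ 2 ∧ p.1 ^ 2 + p.2 ^ 2 ≤ b ^ 2}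

lemma meas_ring2 (a b : ℝ) : MeasurableSet (ring2 a b) := by
  have h1 : MeasurableSet {p : ℝ × ℝ | a ^ 2 < p.1 ^ 2 + p.2 ^ 2} :=
    measurableSet_lt (by fun_prop) (by fun_prop)
  have h2 : MeasurableSet {p : ℝ × ℝ | p.1 ^ 2 + p.2 ^ 2 ≤ b ^ 2} :=
    measurableSet_le (by fun_prop) (by fun_prop)
  exact h1.inter h2

lemma ring_ge {a b : ℝ} (ha : 0 ≤ a) (hab : a ≤ b) :
    ENNReal.ofReal (Real.exp (-b ^ 2 / 2) * ((b ^ 2 - a ^ 2) / 2)) ≤
      ((gaussianReal 0 1).prod (gaussianReal 0 1)) (ring2 a b) := by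
  have h1 := gauss2_ge (K := b) (S := ring2 a b) (meas_ring2 a b) (fun p hp => hp.2)
  have h2 : volume (ring2 a b) = ENNReal.ofReal (Real.pi * (b ^ 2 - a ^ 2)) := by
    have h3 : ring2 a b = {p : ℝ × ℝ | p.1 ^ 2 + p.2 ^ 2 ≤ b ^ 2} \
        {p : ℝ × ℝ | p.1 ^ 2 + p.2 ^ 2 ≤ a ^ 2} := by
      ext p
      simp only [ring2, Set.mem_ofPred_eq, Set.mem_sdiff, not_le]
      tauto
    have h4 : {p : ℝ × ℝ | p.1 ^ 2 + p.2 ^ 2 ≤ a ^ 2} ⊆ {p : ℝ × ℝ | p.1 ^ 2 + p.2 ^ 2 ≤ b ^ 2} := by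
      intro p hp
      have h5 : a ^ 2 ≤ b ^ 2 := pow_le_pow_left₀ ha hab 2
      exact le_trans hp h5
    rw [h3, measure_sdiff h4 (measurableSet_le (by fun_prop) (by fun_prop)).nullMeasurableSet
      (by rw [vol_disc a ha]; exact ENNReal.ofReal_ne_top), vol_disc a ha, vol_disc b (ha.trans hab),
      ← ENNReal.ofReal_sub _ (by positivity)]
    congr 1; ring
  rw [h2, ← ENNReal.ofReal_mul (by positivity)] at h1
  refine le_trans (ENNReal.ofReal_le_ofReal (le_of_eq ?_)) h1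
  have : Real.pi ≠ 0 := Real.pi_ne_zero
  field_simp

lemma ek_le (k : ℕ) : (ek k : ℝ) / 10 ^ 10 ≤ Real.exp (-((k : ℝ) / 32) ^ 2 / 2) := by
  have h1 : (ek k : ℝ) ≤ 10 ^ 10 * (2047 / 2048) ^ (k * k) := by
    have h2 : ((10 ^ 10 * 2047 ^ (k * k) / 2048 ^ (k * k) : ℕ) : ℝ) ≤
        ((10 ^ 10 * 2047 ^ (k * k) : ℕ) : ℝ) / ((2048 ^ (k * k) : ℕ) : ℝ) := Nat.cast_div_le
    unfold ek
    refine h2.trans (le_of_eq ?_)
    push_cast
    rw [div_pow]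
    ring
  have h3 : (2047 / 2048 : ℝ) ^ (k * k) ≤ Real.exp (-((k : ℝ) / 32) ^ 2 / 2) := by
    have h4 : (2047 / 2048 : ℝ) ≤ Real.exp (-1 / 2048) := by
      have := Real.add_one_le_exp (-1 / 2048 : ℝ)
      linarith
    calc (2047 / 2048 : ℝ) ^ (k * k) ≤ Real.exp (-1 / 2048) ^ (k * k) :=
          pow_le_pow_left₀ (by norm_num) h4 _
      _ = _ := by
        rw [← Real.exp_nat_mul]
        congr 1
        push_cast
        ring
  rw [div_le_iff₀ (by norm_num)]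
  linarith

end Run7.h255.Kost
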