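import Mathlib
import Pool.Agent.Run7.h255.Kost.E4

open MeasureTheory ProbabilityTheory
open scoped ENNReal RealInnerProductSpace

namespace Run7.h255.Kost

/-- product Gaussian measure of three coordinates -/
noncomputable def ν3 : Measure (ℝ × (ℝ × ℝ)) :=
  (gaussianReal 0 1).prod ((gaussianReal 0 1).prod (gaussianReal 0 1))

instance : IsProbabilityMeasure ν3 := by unfold ν3; infer_instance

/-- radius -/
noncomputable def rad (q : ℝ × (ℝ × ℝ)) : ℝ := Real.sqrt (q.2.1 ^ 2 + q.2.2 ^ 2)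

lemma rad_nonneg (q : ℝ × (ℝ × ℝ)) : 0 ≤ rad q := Real.sqrt_nonneg _

lemma rad_sq (q : ℝ × (ℝ × ℝ)) : rad q ^ 2 = q.2.1 ^ 2 + q.2.2 ^ 2 := Real.sq_sqrt (by positivity)

/-- admissible second order parts -/
def Reg : Set (ℝ × (ℝ × ℝ)) := {q | 948 / 1000 < q.1 - rad q ∧ q.1 ≤ 4}

lemma meas_rad : Measurable rad := by unfold rad; fun_prop

lemma meas_Reg : MeasurableSet Reg := by
  have h1 : MeasurableSet {q : ℝ × (ℝ × ℝ) | 948 / 1000 < q.1 - rad q} :=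
    measurableSet_lt measurable_const (measurable_fst.sub meas_rad)
  have h2 : MeasurableSet {q : ℝ × (ℝ × ℝ) | q.1 ≤ 4} :=
    measurableSet_le measurable_fst measurable_const
  exact h1.inter h2

/-- the value to be integrated -/
noncomputable def vl (q : ℝ × (ℝ × ℝ)) : ℝ :=
  (q.1 ^ 2 - q.2.1 ^ 2 - q.2.2 ^ 2) * ((q.1 - rad q) / 2 - 474 / 1000)

noncomputable def Fi (q : ℝ × (ℝ × ℝ)) : ℝ≥0∞ := Reg.indicator (fun q => ENNReal.ofReal (vl q)) q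

def cell (i j : ℕ) : Set (ℝ × (ℝ × ℝ)) :=
  Set.Ioc ((i : ℝ) / 32) (((i + 1 : ℕ) : ℝ) / 32) ×ˢ ring2 ((j : ℝ) / 32) (((j + 1 : ℕ) : ℝ) / 32)

lemma meas_cell (i j : ℕ) : MeasurableSet (cell i j) := measurableSet_Ioc.prod (meas_ring2 _ _)

/-- constant of a cell -/
noncomputable def kc : ℝ := 39894 / 100000 / (32 * 2048 * 1024 * 64000 * 10 ^ 20)

lemma cell_measure (i j : ℕ) : ENNReal.ofReal (39894 / 100000 / 32 * ((ek (i + 1) : ℝ) / 10 ^ 10) *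
    ((ek (j + 1) : ℝ) / 10 ^ 10 * ((2 * j + 1) / 2048))) ≤ ν3 (cell i j) := by
  unfold ν3 cell
  rw [Measure.prod_prod, ENNReal.ofReal_mul (by positivity)]
  have h1 := interval_ge (a := (i : ℝ) / 32) (b := ((i + 1 : ℕ) : ℝ) / 32) (by positivity)
  have h2 := ring_ge (a := (j : ℝ) / 32) (b := ((j + 1 : ℕ) : ℝ) / 32) (by positivity)
    (by push_cast; linarith)
  refine mul_le_mul' (le_trans (ENNReal.ofReal_le_ofReal ?_) h1)
    (le_trans (ENNReal.ofReal_le_ofReal ?_) h2)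
  · have h3 := ek_le (i + 1)
    have h4 := nc_ge
    have h5 : ((i + 1 : ℕ) : ℝ) / 32 - (i : ℝ) / 32 = 1 / 32 := by push_cast; ring
    rw [h5]
    have h6 : (39894 / 100000 : ℝ) * ((ek (i + 1) : ℝ) / 10 ^ 10) ≤
        nc * Real.exp (-(((i + 1 : ℕ) : ℝ) / 32) ^ 2 / 2) := by
      apply mul_le_mul h4 h3 (by positivity) nc_pos.le
    linarith
  · have h3 := ek_le (j + 1)
    have h5 : ((((j + 1 : ℕ) : ℝ) / 32) ^ 2 - ((j : ℝ) / 32) ^ 2) / 2 = (2 * j + 1) / 2048 := by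
      push_cast; ring
    rw [h5]
    exact mul_le_mul_of_nonneg_right h3 (by positivity)

lemma cell_value (i j : ℕ) (hi : i < 128) (hw : 0 < wt i j) (q : ℝ × (ℝ × ℝ)) (hq : q ∈ cell i j) :
    ENNReal.ofReal ((wa i j : ℝ) / 1024 * ((wb i j : ℝ) / 64000)) ≤ Fi q := by
  have hw1 : 0 < wa i j := by
    rcases Nat.eq_zero_or_pos (wa i j) with h | h
    · rw [wt, h] at hw; simp at hw
    · exact h
  have hw2 : 0 < wb i j := by
    rcases Nat.eq_zero_or_pos (wb i j) with h | h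
    · rw [wt, h] at hw; simp at hw
    · exact h
  obtain ⟨⟨hT1, hT2⟩, hR1, hR2⟩ := hq
  have hr : rad q ≤ ((j : ℝ) + 1) / 32 := by
    have h1 : rad q ^ 2 ≤ (((j : ℝ) + 1) / 32) ^ 2 := by
      rw [rad_sq]; push_cast at hR2; exact hR2
    exact (pow_le_pow_iff_left₀ (rad_nonneg q) (by positivity) (by norm_num)).mp h1
  have hle : thr ≤ 1000 * (i - (j + 1)) := by unfold wb at hw2; omega
  have hij : j + 1 ≤ i := by unfold wb at hw2; omega
  have hdiff : (wb i j : ℝ) = 1000 * ((i : ℝ) - (j + 1)) - 30336 := by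
    unfold wb
    rw [Nat.cast_sub hle, Nat.cast_mul, Nat.cast_sub hij, thr_cast]; push_cast; ring
  have hle2 : (j + 1) * (j + 1) ≤ i * i := Nat.mul_le_mul hij hij
  have hsq : (wa i j : ℝ) = (i : ℝ) ^ 2 - ((j : ℝ) + 1) ^ 2 := by
    unfold wa
    rw [Nat.cast_sub hle2]; push_cast; ring
  have hw2' : (0 : ℝ) < 1000 * ((i : ℝ) - (j + 1)) - 30336 := by
    rw [← hdiff]; exact_mod_cast hw2
  have hmem : q ∈ Reg := by
    constructor
    · linarith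
    · have : ((i + 1 : ℕ) : ℝ) ≤ 128 := by exact_mod_cast hi
      linarith
  unfold Fi
  rw [Set.indicator_of_mem hmem]
  apply ENNReal.ofReal_le_ofReal
  unfold vl
  rw [hdiff, hsq]
  have hrad := rad_nonneg q
  have h3 : ((i : ℝ) ^ 2 - ((j : ℝ) + 1) ^ 2) / 1024 ≤ q.1 ^ 2 - q.2.1 ^ 2 - q.2.2 ^ 2 := by
    have h4 : ((i : ℝ) / 32) ^ 2 ≤ q.1 ^ 2 := pow_le_pow_left₀ (by positivity) hT1.le 2
    have h5 : rad q ^ 2 ≤ (((j : ℝ) + 1) / 32) ^ 2 := pow_le_pow_left₀ hrad hr 2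
    rw [rad_sq] at h5
    nlinarith
  have hsq0 : (0 : ℝ) ≤ ((i : ℝ) ^ 2 - ((j : ℝ) + 1) ^ 2) / 1024 := by
    rw [← hsq]; positivity
  apply mul_le_mul h3 _ (by linarith) (by linarith)
  linarith

lemma cell_int (i j : ℕ) (hi : i < 128) :
    ENNReal.ofReal (kc * ((ek (i + 1) : ℝ) * ((ek (j + 1) : ℝ) * (wt i j : ℝ)))) ≤
      ∫⁻ q in cell i j, Fi q ∂ν3 := by
  rcases Nat.eq_zero_or_pos (wt i j) with h0 | hpos
  · rw [h0]; simp
  · calc ENNReal.ofReal (kc * ((ek (i + 1) : ℝ) * ((ek (j + 1) : ℝ) * (wt i j : ℝ)))) =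
        ENNReal.ofReal ((wa i j : ℝ) / 1024 * ((wb i j : ℝ) / 64000)) *
        ENNReal.ofReal (39894 / 100000 / 32 * ((ek (i + 1) : ℝ) / 10 ^ 10) *
          ((ek (j + 1) : ℝ) / 10 ^ 10 * ((2 * j + 1) / 2048))) := by
          rw [← ENNReal.ofReal_mul (by positivity)]
          congr 1
          unfold wt kc
          push_cast
          ring
      _ ≤ ENNReal.ofReal ((wa i j : ℝ) / 1024 * ((wb i j : ℝ) / 64000)) * ν3 (cell i j) := by
          gcongr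
          exact cell_measure i j
      _ = ∫⁻ _ in cell i j, ENNReal.ofReal ((wa i j : ℝ) / 1024 * ((wb i j : ℝ) / 64000)) ∂ν3 := by
          rw [setLIntegral_const]
      _ ≤ _ := setLIntegral_mono' (meas_cell i j) fun q hq => cell_value i j hi hpos q hq

lemma cell_disj (n m : ℕ) : (((Finset.range n ×ˢ Finset.range m : Finset (ℕ × ℕ)) : Set (ℕ × ℕ))).Pairwise
    (Function.onFun Disjoint fun p : ℕ × ℕ => cell p.1 p.2) := by
  rintro ⟨i, j⟩ _ ⟨i', j'⟩ _ hne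
  rw [Function.onFun, Set.disjoint_left]
  rintro q ⟨⟨h1, h2⟩, h3, h4⟩ ⟨⟨h1', h2'⟩, h3', h4'⟩
  apply hne
  simp only at h1 h2 h3 h4 h1' h2' h3' h4'
  have e1 : (i : ℝ) < ((i' + 1 : ℕ) : ℝ) := by linarith
  have e2 : (i' : ℝ) < ((i + 1 : ℕ) : ℝ) := by linarith
  have e3 : ((j : ℝ) / 32) ^ 2 < (((j' + 1 : ℕ) : ℝ) / 32) ^ 2 := lt_of_lt_of_le h3 h4'
  have e4 : ((j' : ℝ) / 32) ^ 2 < (((j + 1 : ℕ) : ℝ) / 32) ^ 2 := lt_of_lt_of_le h3' h4
  have e5 : (j : ℝ) / 32 < ((j' + 1 : ℕ) : ℝ) / 32 := lt_of_pow_lt_pow_left₀ 2 (by positivity) e3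
  have e6 : (j' : ℝ) / 32 < ((j + 1 : ℕ) : ℝ) / 32 := lt_of_pow_lt_pow_left₀ 2 (by positivity) e4
  have e7 : (j : ℝ) < ((j' + 1 : ℕ) : ℝ) := by linarith
  have e8 : (j' : ℝ) < ((j + 1 : ℕ) : ℝ) := by linarith
  have f1 : i < i' + 1 := by exact_mod_cast e1
  have f2 : i' < i + 1 := by exact_mod_cast e2
  have f3 : j < j' + 1 := by exact_mod_cast e7
  have f4 : j' < j + 1 := by exact_mod_cast e8
  ext
  · simp only; omega
  · simp only; omega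

lemma cells_gen (n m : ℕ) (hn : n ≤ 128) : ENNReal.ofReal (kc * ∑ i ∈ Finset.range n,
    (ek (i + 1) : ℝ) * ∑ j ∈ Finset.range m, (ek (j + 1) : ℝ) * (wt i j : ℝ)) ≤ ∫⁻ q, Fi q ∂ν3 := by
  have h1 : ∑ p ∈ (Finset.range n ×ˢ Finset.range m : Finset (ℕ × ℕ)),
      ∫⁻ q in cell p.1 p.2, Fi q ∂ν3 ≤ ∫⁻ q, Fi q ∂ν3 := by
    rw [← lintegral_biUnion_finset (cell_disj n m) (fun p _ => meas_cell p.1 p.2)]
    exact setLIntegral_le_lintegral _ _
  refine le_trans ?_ h1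
  have h2 : ∑ p ∈ (Finset.range n ×ˢ Finset.range m : Finset (ℕ × ℕ)),
      ENNReal.ofReal (kc * ((ek (p.1 + 1) : ℝ) * ((ek (p.2 + 1) : ℝ) * (wt p.1 p.2 : ℝ)))) ≤
      ∑ p ∈ (Finset.range n ×ˢ Finset.range m : Finset (ℕ × ℕ)),
      ∫⁻ q in cell p.1 p.2, Fi q ∂ν3 := by
    refine Finset.sum_le_sum fun p hp => cell_int p.1 p.2 ?_
    rw [Finset.mem_product, Finset.mem_range] at hp
    omega
  refine le_trans ?_ h2
  have hkc : 0 ≤ kc := by unfold kc; positivity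
  rw [← ENNReal.ofReal_sum_of_nonneg (fun p _ => by positivity), ← Finset.mul_sum]
  apply ENNReal.ofReal_le_ofReal
  have h3 : ∑ p ∈ (Finset.range n ×ˢ Finset.range m : Finset (ℕ × ℕ)),
      ((ek (p.1 + 1) : ℝ) * ((ek (p.2 + 1) : ℝ) * (wt p.1 p.2 : ℝ))) =
      ∑ i ∈ Finset.range n, (ek (i + 1) : ℝ) * ∑ j ∈ Finset.range m, (ek (j + 1) : ℝ) * (wt i j : ℝ) := by
    rw [Finset.sum_product]
    refine Finset.sum_congr rfl fun i _ => ?_
    rw [Finset.mul_sum]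
  rw [h3]

theorem cells : ENNReal.ofReal (287 / 10000) ≤ ∫⁻ q, Fi q ∂ν3 := by
  refine le_trans (ENNReal.ofReal_le_ofReal ?_) (cells_gen 128 64 le_rfl)
  rw [← tot_cast]
  have hkc : 0 ≤ kc := by unfold kc; positivity
  calc (287 / 10000 : ℝ) ≤ kc * (309 * 10 ^ 29) := by
        unfold kc; norm_num
    _ ≤ _ := mul_le_mul_of_nonneg_left tot_ge' hkc

end Run7.h255.Kost
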