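import Mathlib
import Pool.Agent.Run7.h255.Kost.E2
import Pool.Agent.Run7.h255.Kost.E5

open MeasureTheory ProbabilityTheory
open scoped ENNReal RealInnerProductSpace

namespace Run7.h255.Kost

/-- the product Gaussian measure on coefficients -/
noncomputable abbrev μc (N : ℕ) : Measure (Idx N → ℝ) := Measure.pi fun _ : Idx N => gaussianReal 0 1

/-- the parameters of the low order part -/
abbrev Zp := (ℝ × ℝ) × (ℝ × (ℝ × ℝ))

noncomputable def νz : Measure Zp := ((gaussianReal 0 1).prod (gaussianReal 0 1)).prod ν3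

instance : IsProbabilityMeasure νz := by unfold νz; infer_instance

/-- replace the six coefficients of lowest order -/
noncomputable def Th (N : ℕ) (p : (Idx N → ℝ) × (Zp × ℝ)) : Idx N → ℝ :=
  Function.update (Function.update (Function.update (Function.update
    (Function.update (Function.update p.1 (ix N 1 0) p.2.1.1.1) (ix N 0 1) p.2.1.1.2)
    (ix N 2 0) p.2.1.2.1) (ix N 0 2) p.2.1.2.2.1) (ix N 1 1) p.2.1.2.2.2) (ix N 0 0) p.2.2

lemma mp_Th (N : ℕ) : MeasurePreserving (Th N) ((μc N).prod (νz.prod (gaussianReal 0 1))) (μc N) := by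
  have h1 := mp_two (mp_update (ι := Idx N) (gaussianReal 0 1) (ix N 1 0))
    (mp_update (ι := Idx N) (gaussianReal 0 1) (ix N 0 1))
  have h2 := mp_two (mp_update (ι := Idx N) (gaussianReal 0 1) (ix N 0 2))
    (mp_update (ι := Idx N) (gaussianReal 0 1) (ix N 1 1))
  have h3 := mp_two (mp_update (ι := Idx N) (gaussianReal 0 1) (ix N 2 0)) h2
  have h4 := mp_two h1 h3
  have h5 := mp_two h4 (mp_update (ι := Idx N) (gaussianReal 0 1) (ix N 0 0))
  exact h5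

section coords

variable {N : ℕ} (hN : 2 ≤ N) (p : (Idx N → ℝ) × (Zp × ℝ))

lemma ix_ne {j k j' k' : ℕ} (h : j + k ≤ N) (h' : j' + k' ≤ N) (hne : ¬ (j = j' ∧ k = k')) :
    ix N j k ≠ ix N j' k' := fun he => hne (ix_inj h h' he)

include hN

omit hN in
lemma Th00 : Th N p (ix N 0 0) = p.2.2 := by simp [Th]

lemma Th11 : Th N p (ix N 1 1) = p.2.1.2.2.2 := by
  have h1 : ix N 1 1 ≠ ix N 0 0 := ix_ne (by omega) (by omega) (by omega)
  simp [Th, h1]

lemma Th02 : Th N p (ix N 0 2) = p.2.1.2.2.1 := by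
  have h1 : ix N 0 2 ≠ ix N 0 0 := ix_ne (by omega) (by omega) (by omega)
  have h2 : ix N 0 2 ≠ ix N 1 1 := ix_ne (by omega) (by omega) (by omega)
  simp [Th, h1, h2]

lemma Th20 : Th N p (ix N 2 0) = p.2.1.2.1 := by
  have h1 : ix N 2 0 ≠ ix N 0 0 := ix_ne (by omega) (by omega) (by omega)
  have h2 : ix N 2 0 ≠ ix N 1 1 := ix_ne (by omega) (by omega) (by omega)
  have h3 : ix N 2 0 ≠ ix N 0 2 := ix_ne (by omega) (by omega) (by omega)
  simp [Th, h1, h2, h3]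

lemma Th01 : Th N p (ix N 0 1) = p.2.1.1.2 := by
  have h1 : ix N 0 1 ≠ ix N 0 0 := ix_ne (by omega) (by omega) (by omega)
  have h2 : ix N 0 1 ≠ ix N 1 1 := ix_ne (by omega) (by omega) (by omega)
  have h3 : ix N 0 1 ≠ ix N 0 2 := ix_ne (by omega) (by omega) (by omega)
  have h4 : ix N 0 1 ≠ ix N 2 0 := ix_ne (by omega) (by omega) (by omega)
  simp [Th, h1, h2, h3, h4]

lemma Th10 : Th N p (ix N 1 0) = p.2.1.1.1 := by
  have h1 : ix N 1 0 ≠ ix N 0 0 := ix_ne (by omega) (by omega) (by omega)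
  have h2 : ix N 1 0 ≠ ix N 1 1 := ix_ne (by omega) (by omega) (by omega)
  have h3 : ix N 1 0 ≠ ix N 0 2 := ix_ne (by omega) (by omega) (by omega)
  have h4 : ix N 1 0 ≠ ix N 2 0 := ix_ne (by omega) (by omega) (by omega)
  have h5 : ix N 1 0 ≠ ix N 0 1 := ix_ne (by omega) (by omega) (by omega)
  simp [Th, h1, h2, h3, h4, h5]

lemma Th_tail {j k : ℕ} (h : j + k ≤ N) (h3 : 3 ≤ j + k) : Th N p (ix N j k) = p.1 (ix N j k) := by
  have h1 : ix N j k ≠ ix N 0 0 := ix_ne (by omega) (by omega) (by omega)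
  have h2 : ix N j k ≠ ix N 1 1 := ix_ne (by omega) (by omega) (by omega)
  have h3 : ix N j k ≠ ix N 0 2 := ix_ne (by omega) (by omega) (by omega)
  have h4 : ix N j k ≠ ix N 2 0 := ix_ne (by omega) (by omega) (by omega)
  have h5 : ix N j k ≠ ix N 0 1 := ix_ne (by omega) (by omega) (by omega)
  have h6 : ix N j k ≠ ix N 1 0 := ix_ne (by omega) (by omega) (by omega)
  simp [Th, h1, h2, h3, h4, h5, h6]

lemma bet_Th {d : ℕ} (hd : 3 ≤ d) (hdN : d ≤ N) :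
    bet N (WithLp.toLp 2 (Th N p)) d = bet N (WithLp.toLp 2 p.1) d := by
  unfold bet
  congr 1
  refine Finset.sum_congr rfl fun q hq => ?_
  rw [Finset.HasAntidiagonal.mem_antidiagonal] at hq
  show Th N p (ix N q.1 q.2) ^ 2 = p.1 (ix N q.1 q.2) ^ 2
  rw [Th_tail hN p (by omega) (by omega)]

end coords

lemma As_Th (n : ℕ) (p : (Idx (n + 2) → ℝ) × (Zp × ℝ)) (ρ : ℝ) :
    As n (WithLp.toLp 2 (Th (n + 2) p)) ρ = As n (WithLp.toLp 2 p.1) ρ := by
  unfold As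
  refine Finset.sum_congr rfl fun e he => ?_
  rw [Finset.mem_range] at he
  rw [bet_Th (by omega) p (by omega) (by omega)]

lemma As'_Th (n : ℕ) (p : (Idx (n + 2) → ℝ) × (Zp × ℝ)) (ρ : ℝ) :
    As' n (WithLp.toLp 2 (Th (n + 2) p)) ρ = As' n (WithLp.toLp 2 p.1) ρ := by
  unfold As'
  refine Finset.sum_congr rfl fun e he => ?_
  rw [Finset.mem_range] at he
  rw [bet_Th (by omega) p (by omega) (by omega)]

/-- from the ellipse to the critical point -/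
lemma ell_w {c ω T X Y R : ℝ} {g : ℝ × ℝ} (hc : 0 < c) (hT : 0 ≤ T) (hR : 0 ≤ R)
    (hXY : X ^ 2 + Y ^ 2 = R ^ 2) (hD : 0 < T ^ 2 - X ^ 2 - Y ^ 2) (hg : g ∈ ell c ω T X Y) :
    ∃ w1 w2, c * ((T + X) * w1 + Y * w2) = -g.1 ∧ c * (Y * w1 + (T - X) * w2) = -g.2 ∧
      w1 ^ 2 + w2 ^ 2 ≤ ω ^ 2 ∧ g.1 ^ 2 + g.2 ^ 2 ≤ (c * (T + R) * ω) ^ 2 := by
  set D := T ^ 2 - X ^ 2 - Y ^ 2 with hDd
  have hg' : ((T - X) * g.1 - Y * g.2) ^ 2 + ((T + X) * g.2 - Y * g.1) ^ 2 ≤ (ω * c * D) ^ 2 := hg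
  set w1 := -((T - X) * g.1 - Y * g.2) / (c * D) with hw1
  set w2 := -((T + X) * g.2 - Y * g.1) / (c * D) with hw2
  have hcD : 0 < c * D := by positivity
  have e1 : c * ((T + X) * w1 + Y * w2) = -g.1 := by
    rw [hw1, hw2]
    field_simp
    rw [hDd]; ring
  have e2 : c * (Y * w1 + (T - X) * w2) = -g.2 := by
    rw [hw1, hw2]
    field_simp
    rw [hDd]; ring
  have e3 : w1 ^ 2 + w2 ^ 2 ≤ ω ^ 2 := by
    rw [hw1, hw2, div_pow, div_pow, ← add_div, div_le_iff₀ (by positivity), neg_sq, neg_sq]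
    calc _ ≤ (ω * c * D) ^ 2 := hg'
      _ = _ := by ring
  refine ⟨w1, w2, e1, e2, e3, ?_⟩
  have h1 := lin_le (g1 := X) (g2 := Y) (x := w1 ^ 2 - w2 ^ 2) (y := 2 * w1 * w2) (γ := R)
    (s := w1 ^ 2 + w2 ^ 2) hR (by positivity) hXY.le (by nlinarith)
  have h2 := (abs_le.mp h1).2
  have h3 : g.1 ^ 2 + g.2 ^ 2 = c ^ 2 * ((T ^ 2 + R ^ 2) * (w1 ^ 2 + w2 ^ 2) +
      2 * T * (X * (w1 ^ 2 - w2 ^ 2) + Y * (2 * w1 * w2))) := by
    have f1 : g.1 = -(c * ((T + X) * w1 + Y * w2)) := by linarith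
    have f2 : g.2 = -(c * (Y * w1 + (T - X) * w2)) := by linarith
    rw [f1, f2, ← hXY]; ring
  rw [h3]
  calc c ^ 2 * ((T ^ 2 + R ^ 2) * (w1 ^ 2 + w2 ^ 2) +
      2 * T * (X * (w1 ^ 2 - w2 ^ 2) + Y * (2 * w1 * w2))) ≤
      c ^ 2 * ((T ^ 2 + R ^ 2) * (w1 ^ 2 + w2 ^ 2) + 2 * T * (R * (w1 ^ 2 + w2 ^ 2))) := by
        have := mul_le_mul_of_nonneg_left h2 (by positivity : (0 : ℝ) ≤ 2 * T)
        have h5 : 0 ≤ c ^ 2 := by positivity
        nlinarith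
    _ = (c * (T + R)) ^ 2 * (w1 ^ 2 + w2 ^ 2) := by ring
    _ ≤ (c * (T + R)) ^ 2 * ω ^ 2 := mul_le_mul_of_nonneg_left e3 (by positivity)
    _ = _ := by ring

end Run7.h255.Kost
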