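import Mathlib
import Pool.Agent.Run7.h255.Kost.E6

open MeasureTheory ProbabilityTheory
open scoped ENNReal RealInnerProductSpace

namespace Run7.h255.Kost

/-- the constant of the second order part -/
noncomputable def cN (n : ℕ) : ℝ := Real.sqrt (1 - 1 / ((n + 2 : ℕ) : ℝ))

/-- admissible low order parts -/
def Ez (c ω : ℝ) : Set Zp := {z | z.2 ∈ Reg ∧ z.1 ∈ ell c ω z.2.1 z.2.2.1 z.2.2.2}

/-- the good event in rotated coordinates -/
def Gm (n : ℕ) (ρ η ω : ℝ) : Set (Co (n + 2)) :=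
  {b | (((b (ix (n + 2) 1 0), b (ix (n + 2) 0 1)),
      (b (ix (n + 2) 2 0), (b (ix (n + 2) 0 2), b (ix (n + 2) 1 1)))) : Zp) ∈ Ez (cN n) ω ∧
    ρ ^ 2 * As' n b ρ / 2 + η < -b (ix (n + 2) 0 0) ∧
    -b (ix (n + 2) 0 0) < ρ ^ 2 * (cN n * (b (ix (n + 2) 2 0) -
      rad (b (ix (n + 2) 2 0), (b (ix (n + 2) 0 2), b (ix (n + 2) 1 1)))) / 2 - As n b ρ) - η}

lemma meas_Ez (c ω : ℝ) : MeasurableSet (Ez c ω) := by
  have h1 : MeasurableSet {z : Zp | z.2 ∈ Reg} := measurable_snd meas_Reg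
  have h2 : MeasurableSet {z : Zp | ((z.2.1 - z.2.2.1) * z.1.1 - z.2.2.2 * z.1.2) ^ 2 +
      ((z.2.1 + z.2.2.1) * z.1.2 - z.2.2.2 * z.1.1) ^ 2 ≤
      (ω * c * (z.2.1 ^ 2 - z.2.2.1 ^ 2 - z.2.2.2 ^ 2)) ^ 2} :=
    measurableSet_le (by fun_prop) (by fun_prop)
  exact h1.inter h2

lemma meas_As (n : ℕ) (ρ : ℝ) : Measurable fun b : Co (n + 2) => As n b ρ := by
  unfold As bet; fun_prop

lemma meas_As' (n : ℕ) (ρ : ℝ) : Measurable fun b : Co (n + 2) => As' n b ρ := by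
  unfold As' bet; fun_prop

lemma meas_Qs (n : ℕ) (ρ : ℝ) : Measurable fun b : Co (n + 2) => Qs n b ρ := by
  unfold Qs
  exact (meas_As n ρ).add ((meas_As' n ρ).div_const 2)

lemma meas_Gm (n : ℕ) (ρ η ω : ℝ) : MeasurableSet (Gm n ρ η ω) := by
  have hco : ∀ i, Measurable fun b : Co (n + 2) => (b i : ℝ) := fun i => by fun_prop
  have h1 : MeasurableSet {b : Co (n + 2) | (((b (ix (n + 2) 1 0), b (ix (n + 2) 0 1)),
      (b (ix (n + 2) 2 0), (b (ix (n + 2) 0 2), b (ix (n + 2) 1 1)))) : Zp) ∈ Ez (cN n) ω} := by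
    have : Measurable fun b : Co (n + 2) => (((b (ix (n + 2) 1 0), b (ix (n + 2) 0 1)),
      (b (ix (n + 2) 2 0), (b (ix (n + 2) 0 2), b (ix (n + 2) 1 1)))) : Zp) :=
      ((hco _).prodMk (hco _)).prodMk ((hco _).prodMk ((hco _).prodMk (hco _)))
    exact this (meas_Ez _ _)
  have h2 : MeasurableSet {b : Co (n + 2) | ρ ^ 2 * As' n b ρ / 2 + η < -b (ix (n + 2) 0 0)} :=
    measurableSet_lt ((((meas_As' n ρ).const_mul _).div_const _).add_const _) (hco _).neg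
  have h3 : MeasurableSet {b : Co (n + 2) | -b (ix (n + 2) 0 0) < ρ ^ 2 * (cN n * (b (ix (n + 2) 2 0) -
      rad (b (ix (n + 2) 2 0), (b (ix (n + 2) 0 2), b (ix (n + 2) 1 1)))) / 2 - As n b ρ) - η} := by
    apply measurableSet_lt (hco _).neg
    have h4 : Measurable fun b : Co (n + 2) =>
        rad (b (ix (n + 2) 2 0), (b (ix (n + 2) 0 2), b (ix (n + 2) 1 1))) :=
      meas_rad.comp ((hco _).prodMk ((hco _).prodMk (hco _)))
    have h5 : Measurable fun b : Co (n + 2) => (b (ix (n + 2) 2 0) : ℝ) := hco _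
    have h6 : Measurable fun b : Co (n + 2) => ((b (ix (n + 2) 2 0) : ℝ) -
        rad (b (ix (n + 2) 2 0), (b (ix (n + 2) 0 2), b (ix (n + 2) 1 1)))) :=
      Measurable.sub (G := ℝ) h5 h4
    exact (((h6.const_mul _).div_const _ |>.sub (meas_As n ρ)).const_mul _).sub_const _
  exact h1.inter (h2.inter h3)

lemma det_ge {q : ℝ × (ℝ × ℝ)} (hq : q ∈ Reg) : 0 < q.1 ^ 2 - q.2.1 ^ 2 - q.2.2 ^ 2 := by
  have h1 := rad_sq q
  have h2 := rad_nonneg q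
  have h3 : 948 / 1000 < q.1 - rad q := hq.1
  nlinarith

lemma cN_pos (n : ℕ) : 0 < cN n := by
  unfold cN
  apply Real.sqrt_pos.mpr
  rw [sub_pos, div_lt_one (by positivity)]
  push_cast
  have : (0 : ℝ) ≤ n := Nat.cast_nonneg n
  linarith

lemma cN_le (n : ℕ) : cN n ≤ 1 := by
  unfold cN
  rw [Real.sqrt_le_one]
  have : (0 : ℝ) ≤ 1 / ((n + 2 : ℕ) : ℝ) := by positivity
  linarith

lemma cN_ge (n : ℕ) : 1 - 1 / ((n + 2 : ℕ) : ℝ) ≤ cN n := by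
  unfold cN
  have h0 : (0 : ℝ) ≤ 1 / ((n + 2 : ℕ) : ℝ) := by positivity
  have h1 : (1 : ℝ) / ((n + 2 : ℕ) : ℝ) ≤ 1 := by
    rw [div_le_one (by positivity)]; push_cast
    have : (0 : ℝ) ≤ n := Nat.cast_nonneg n
    linarith
  apply Real.le_sqrt_of_sq_le
  nlinarith

/-- parameters -/
noncomputable def ρ0 : ℝ := 3 / 10
noncomputable def η0 : ℝ := 1 / 100000
noncomputable def ε0 : ℝ := 1 / 200
noncomputable def δ0 : ℝ := 1 / 10 ^ 11
noncomputable def ω0 : ℝ := (1 - ε0) * δ0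

/-- the event produces good centres -/
lemma good_of_Gm (n : ℕ) (b b' : Co (n + 2)) (hb : b ∈ Gm n ρ0 η0 ω0)
    (h20 : b' (ix (n + 2) 2 0) = (b (ix (n + 2) 2 0) + b (ix (n + 2) 0 2)) / Real.sqrt 2)
    (h02 : b' (ix (n + 2) 0 2) = (b (ix (n + 2) 2 0) - b (ix (n + 2) 0 2)) / Real.sqrt 2)
    (ho : ∀ i, i ≠ ix (n + 2) 2 0 → i ≠ ix (n + 2) 0 2 → b' i = b i) :
    Good (fun x => ⟪b', feat (n + 2) x⟫) (ρ0 / Real.sqrt ((n + 2 : ℕ) : ℝ))
      (δ0 / Real.sqrt ((n + 2 : ℕ) : ℝ)) e0 := by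
  obtain ⟨⟨hReg, hell⟩, hu1, hu2⟩ := hb
  simp only at hReg hell
  set q : ℝ × (ℝ × ℝ) := (b (ix (n + 2) 2 0), (b (ix (n + 2) 0 2), b (ix (n + 2) 1 1))) with hq
  have h1 : ix (n + 2) 0 0 ≠ ix (n + 2) 2 0 := ix_ne (by omega) (by omega) (by omega)
  have h2 : ix (n + 2) 0 0 ≠ ix (n + 2) 0 2 := ix_ne (by omega) (by omega) (by omega)
  have h3 : ix (n + 2) 1 0 ≠ ix (n + 2) 2 0 := ix_ne (by omega) (by omega) (by omega)
  have h4 : ix (n + 2) 1 0 ≠ ix (n + 2) 0 2 := ix_ne (by omega) (by omega) (by omega)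
  have h5 : ix (n + 2) 0 1 ≠ ix (n + 2) 2 0 := ix_ne (by omega) (by omega) (by omega)
  have h6 : ix (n + 2) 0 1 ≠ ix (n + 2) 0 2 := ix_ne (by omega) (by omega) (by omega)
  have h7 : ix (n + 2) 1 1 ≠ ix (n + 2) 2 0 := ix_ne (by omega) (by omega) (by omega)
  have h8 : ix (n + 2) 1 1 ≠ ix (n + 2) 0 2 := ix_ne (by omega) (by omega) (by omega)
  have hρ : (0 : ℝ) < ρ0 := by unfold ρ0; norm_num
  have m := model_of n b' (ρ := ρ0) (u := -b (ix (n + 2) 0 0)) (g1 := b (ix (n + 2) 1 0))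
    (g2 := b (ix (n + 2) 0 1)) (T := b (ix (n + 2) 2 0)) (X := b (ix (n + 2) 0 2))
    (Y := b (ix (n + 2) 1 1)) hρ (by rw [ho _ h1 h2, neg_neg]) (ho _ h3 h4) (ho _ h5 h6) h20
    (ho _ h7 h8) h02
  have hbet : ∀ e ∈ Finset.range n, bet (n + 2) b' (e + 3) = bet (n + 2) b (e + 3) := by
    intro e he
    rw [Finset.mem_range] at he
    unfold bet
    congr 1
    refine Finset.sum_congr rfl fun p hp => ?_
    rw [Finset.HasAntidiagonal.mem_antidiagonal] at hp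
    rw [ho _ (ix_ne (by omega) (by omega) (by omega)) (ix_ne (by omega) (by omega) (by omega))]
  have hAs : As n b' ρ0 = As n b ρ0 := by
    unfold As
    exact Finset.sum_congr rfl fun e he => by rw [hbet e he]
  have hAs' : As' n b' ρ0 = As' n b ρ0 := by
    unfold As'
    exact Finset.sum_congr rfl fun e he => by rw [hbet e he]
  rw [hAs, hAs'] at m
  have hr := rad_nonneg q
  have hrs := rad_sq q
  have hT1 : 948 / 1000 < q.1 - rad q := hReg.1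
  have hT2 : q.1 ≤ 4 := hReg.2
  have hT0 : 0 ≤ q.1 := by linarith
  have hc := cN_pos n
  have hc1 := cN_le n
  obtain ⟨w1, w2, hw1, hw2, hω, hg⟩ := ell_w hc hT0 hr hrs.symm (det_ge hReg) hell
  have hω0 : (0 : ℝ) ≤ ω0 := by unfold ω0 ε0 δ0; norm_num
  set s := Real.sqrt (w1 ^ 2 + w2 ^ 2) with hs
  have hs2 : w1 ^ 2 + w2 ^ 2 = s ^ 2 := (Real.sq_sqrt (by positivity)).symm
  have hsω : s ≤ ω0 := Real.sqrt_le_iff.mpr ⟨hω0, hω⟩
  have hγ : (cN n * (q.1 + rad q) * ω0) ≤ 8 * ω0 := by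
    apply mul_le_mul_of_nonneg_right _ hω0
    nlinarith
  have hγ0 : 0 ≤ cN n * (q.1 + rad q) * ω0 := by positivity
  refine good_of_model (N := n + 2) (by omega) m (R := rad q) (γ := 8 * ω0) (ε := ε0) (η := η0)
    (Λ := 4) (δ := δ0) (w1 := w1) (w2 := w2) (ω := s) hρ (by positivity) hc hr hrs.symm.le ?_ ?_ ?_
    ?_ ?_ ?_ ?_ ?_ hu1 hu2 ?_ ?_ ?_ hw1 hw2 (Real.sqrt_nonneg _) hs2 hsω
  · exact hg.trans (pow_le_pow_left₀ hγ0 hγ 2)
  · exact As_nonneg n b hρ.le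
  · exact As'_nonneg n b hρ.le
  · unfold ε0; norm_num
  · unfold ε0; norm_num
  · unfold η0; norm_num
  · unfold δ0; norm_num
  · unfold ρ0 ω0 ε0 δ0 η0; norm_num
  · have h9 : cN n * (q.1 - rad q) ≤ 1 * (q.1 - rad q) :=
      mul_le_mul_of_nonneg_right hc1 (by linarith)
    show cN n * (q.1 - rad q) ≤ 4
    linarith
  · unfold ρ0 δ0 ε0 η0; norm_num
  · unfold ρ0 δ0; norm_num

end Run7.h255.Kost
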