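import Mathlib
import Pool.Agent.Run7.h255.Kost.E7

open MeasureTheory ProbabilityTheory
open scoped ENNReal RealInnerProductSpace

namespace Run7.h255.Kost

noncomputable def K1 : ℝ := nc * Real.exp (-(18 / 100) ^ 2 / 2) * ρ0 ^ 2

noncomputable def K2 (n : ℕ) : ℝ :=
  (2 * Real.pi)⁻¹ * Real.exp (-(8 * ω0) ^ 2 / 2) * (Real.pi * (ω0 * cN n) ^ 2)

/-- length of the admissible interval without noise -/
noncomputable def Lf (n : ℕ) (q : ℝ × (ℝ × ℝ)) : ℝ := cN n * (q.1 - rad q) / 2 - 2 * η0 / ρ0 ^ 2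

/-- noise on raw coefficients -/
noncomputable def Qx (n : ℕ) (x : Idx (n + 2) → ℝ) : ℝ := Qs n (WithLp.toLp 2 x) ρ0

lemma ρ0_pos : 0 < ρ0 := by unfold ρ0; norm_num

lemma K1_nonneg : 0 ≤ K1 := by
  unfold K1
  have := nc_pos
  positivity

lemma meas_Qx (n : ℕ) : Measurable (Qx n) := by
  unfold Qx
  exact (meas_Qs n ρ0).comp (by fun_prop)

lemma meas_Lf (n : ℕ) : Measurable (Lf n) := by
  unfold Lf
  exact (((measurable_fst.sub meas_rad).const_mul _).div_const _).sub_const _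

def Sx (n : ℕ) : Set (Idx (n + 2) → ℝ) := {x | WithLp.toLp 2 x ∈ Gm n ρ0 η0 ω0}

lemma meas_Sx (n : ℕ) : MeasurableSet (Sx n) := by
  have h : Measurable (fun x : Idx (n + 2) → ℝ => (WithLp.toLp 2 x : Co (n + 2))) := by fun_prop
  exact h (meas_Gm n ρ0 η0 ω0)

lemma fiber_ge (n : ℕ) (x : Idx (n + 2) → ℝ) (z : Zp) (hz : z ∈ Ez (cN n) ω0) :
    ENNReal.ofReal K1 * ENNReal.ofReal (Lf n z.2 - Qx n x) ≤
      gaussianReal 0 1 {y | Th (n + 2) (x, (z, y)) ∈ Sx n} := by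
  set a : ℝ := -(ρ0 ^ 2 * (cN n * (z.2.1 - rad z.2) / 2 - As n (WithLp.toLp 2 x) ρ0) - η0) with ha
  set b : ℝ := -(ρ0 ^ 2 * As' n (WithLp.toLp 2 x) ρ0 / 2 + η0) with hb
  have hset : {y | Th (n + 2) (x, (z, y)) ∈ Sx n} = Set.Ioo a b := by
    ext y
    have h2 : 2 ≤ n + 2 := by omega
    show (WithLp.toLp 2 (Th (n + 2) (x, (z, y))) : Co (n + 2)) ∈ Gm n ρ0 η0 ω0 ↔ _
    unfold Gm
    simp only [Set.mem_ofPred_eq, As_Th, As'_Th, Th00, Th11 h2, Th02 h2, Th20 h2, Th01 h2, Th10 h2]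
    rw [Set.mem_Ioo]
    constructor
    · rintro ⟨_, h3, h4⟩
      exact ⟨by rw [ha]; linarith, by rw [hb]; linarith⟩
    · rintro ⟨h3, h4⟩
      refine ⟨hz, ?_, ?_⟩
      · rw [hb] at h4; linarith
      · rw [ha] at h3
        show -y < ρ0 ^ 2 * (cN n * (z.2.1 - rad z.2) / 2 - As n (WithLp.toLp 2 x) ρ0) - η0
        linarith
  rw [hset]
  have hA := As_nonneg n (WithLp.toLp 2 x) ρ0_pos.le
  have hA' := As'_nonneg n (WithLp.toLp 2 x) ρ0_pos.le
  have hr := rad_nonneg z.2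
  have hReg := hz.1
  have hT1 : 948 / 1000 < z.2.1 - rad z.2 := hReg.1
  have hT2 : z.2.1 ≤ 4 := hReg.2
  have hc := cN_pos n
  have hc1 := cN_le n
  have hη : 0 < η0 := by unfold η0; norm_num
  have ha18 : -(18 / 100) ≤ a := by
    rw [ha]
    have h9 : cN n * (z.2.1 - rad z.2) ≤ 1 * (z.2.1 - rad z.2) :=
      mul_le_mul_of_nonneg_right hc1 (by linarith)
    unfold ρ0 at hA ⊢
    nlinarith
  have hb0 : b ≤ 0 := by
    rw [hb]
    have : 0 ≤ ρ0 ^ 2 * As' n (WithLp.toLp 2 x) ρ0 / 2 := by positivity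
    linarith
  have h1 := gauss1_ge (K := 18 / 100) (S := Set.Ioo a b) measurableSet_Ioo (by
    intro y hy
    have h3 : a < y := hy.1
    have h4 : y < b := hy.2
    nlinarith)
  refine le_trans (le_of_eq ?_) h1
  rw [Real.volume_Ioo, K1, ENNReal.ofReal_mul (by have := nc_pos; positivity), mul_assoc,
    ← ENNReal.ofReal_mul (by positivity)]
  congr 2
  rw [ha, hb]
  unfold Lf Qx Qs
  have : ρ0 ≠ 0 := ρ0_pos.ne'
  field_simp
  ring

/-- the joint lower bound -/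
noncomputable def Bf (n : ℕ) (x : Idx (n + 2) → ℝ) (z : Zp) : ℝ≥0∞ :=
  (Ez (cN n) ω0).indicator (fun z => ENNReal.ofReal K1 * ENNReal.ofReal (Lf n z.2 - Qx n x)) z

lemma meas_Bf (n : ℕ) : Measurable (Function.uncurry (Bf n)) := by
  have h1 : Measurable fun p : (Idx (n + 2) → ℝ) × Zp =>
      ENNReal.ofReal K1 * ENNReal.ofReal (Lf n p.2.2 - Qx n p.1) :=
    (((meas_Lf n).comp (measurable_snd.comp measurable_snd)).sub
      ((meas_Qx n).comp measurable_fst)).ennreal_ofReal.const_mul _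
  have h2 : MeasurableSet {p : (Idx (n + 2) → ℝ) × Zp | p.2 ∈ Ez (cN n) ω0} :=
    measurable_snd (meas_Ez _ _)
  exact h1.indicator h2

lemma step1 (n : ℕ) : ∫⁻ z, ∫⁻ x, Bf n x z ∂(μc (n + 2)) ∂νz ≤ μc (n + 2) (Sx n) := by
  rw [← (mp_Th (n + 2)).measure_preimage (meas_Sx n).nullMeasurableSet]
  have hm : MeasurableSet (Th (n + 2) ⁻¹' Sx n) := (mp_Th (n + 2)).measurable (meas_Sx n)
  rw [Measure.prod_apply hm, ← lintegral_lintegral_swap (meas_Bf n).aemeasurable]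
  refine lintegral_mono fun x => ?_
  have hm2 : MeasurableSet (Prod.mk x ⁻¹' (Th (n + 2) ⁻¹' Sx n)) := measurable_prodMk_left hm
  rw [Measure.prod_apply hm2]
  refine lintegral_mono fun z => ?_
  unfold Bf
  by_cases hz : z ∈ Ez (cN n) ω0
  · rw [Set.indicator_of_mem hz]
    exact fiber_ge n x z hz
  · rw [Set.indicator_of_notMem hz]; exact zero_le

lemma step2 (n : ℕ) (z : Zp) : (Ez (cN n) ω0).indicator
    (fun z => ENNReal.ofReal K1 * ENNReal.ofReal (Lf n z.2 - 4734 / 10000)) z ≤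
    ∫⁻ x, Bf n x z ∂(μc (n + 2)) := by
  unfold Bf
  by_cases hz : z ∈ Ez (cN n) ω0
  · simp only [Set.indicator_of_mem hz]
    rw [lintegral_const_mul' _ _ ENNReal.ofReal_ne_top]
    gcongr
    exact jensen_lower (μc (n + 2)) (Qx n) (meas_Qx n) (by norm_num) (Qs_moment n) (Lf n z.2)
  · rw [Set.indicator_of_notMem hz]; exact zero_le

lemma K2_nonneg (n : ℕ) : 0 ≤ K2 n := by unfold K2; positivity

lemma ell_measure (n : ℕ) {q : ℝ × (ℝ × ℝ)} (hq : q ∈ Reg) :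
    ENNReal.ofReal (K2 n * (q.1 ^ 2 - q.2.1 ^ 2 - q.2.2 ^ 2)) ≤
      ((gaussianReal 0 1).prod (gaussianReal 0 1)) (ell (cN n) ω0 q.1 q.2.1 q.2.2) := by
  have hr := rad_nonneg q
  have hT1 : 948 / 1000 < q.1 - rad q := hq.1
  have hT2 : q.1 ≤ 4 := hq.2
  have hc := cN_pos n
  have hc1 := cN_le n
  have hD := det_ge hq
  have hω0 : (0 : ℝ) ≤ ω0 := by unfold ω0 ε0 δ0; norm_num
  have h1 := gauss2_ge (K := 8 * ω0) (meas_ell (cN n) ω0 q.1 q.2.1 q.2.2) (by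
    intro g hg
    obtain ⟨w1, w2, _, _, _, h2⟩ := ell_w hc (by linarith) hr (rad_sq q).symm hD hg
    refine h2.trans (pow_le_pow_left₀ (mul_nonneg (mul_nonneg hc.le (by linarith)) hω0) ?_ 2)
    apply mul_le_mul_of_nonneg_right _ hω0
    nlinarith)
  rw [vol_ell hc.le hω0 hD, ← ENNReal.ofReal_mul (by positivity)] at h1
  refine le_trans (le_of_eq ?_) h1
  congr 1
  unfold K2
  ring

lemma step3 (n : ℕ) (hn : 9998 ≤ n) : ENNReal.ofReal (K1 * K2 n * (287 / 10000)) ≤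
    ∫⁻ z, (Ez (cN n) ω0).indicator
    (fun z => ENNReal.ofReal K1 * ENNReal.ofReal (Lf n z.2 - 4734 / 10000)) z ∂νz := by
  have hmeas : Measurable fun z : Zp => (Ez (cN n) ω0).indicator
      (fun z => ENNReal.ofReal K1 * ENNReal.ofReal (Lf n z.2 - 4734 / 10000)) z :=
    ((((meas_Lf n).comp measurable_snd).sub_const _).ennreal_ofReal.const_mul _).indicator
      (meas_Ez _ _)
  unfold νz
  rw [lintegral_prod_symm _ hmeas.aemeasurable]
  have hcge : (9999 / 10000 : ℝ) ≤ cN n := by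
    have h1 := cN_ge n
    have h2 : (1 : ℝ) / ((n + 2 : ℕ) : ℝ) ≤ 1 / 10000 := by
      apply one_div_le_one_div_of_le (by norm_num)
      have : (10000 : ℕ) ≤ n + 2 := by omega
      exact_mod_cast this
    linarith
  have key : ∀ q : ℝ × (ℝ × ℝ), ENNReal.ofReal (K1 * K2 n) * Fi q ≤
      ∫⁻ g, (Ez (cN n) ω0).indicator (fun z => ENNReal.ofReal K1 *
        ENNReal.ofReal (Lf n z.2 - 4734 / 10000)) (g, q)
        ∂((gaussianReal 0 1).prod (gaussianReal 0 1)) := by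
    intro q
    unfold Fi
    by_cases hq : q ∈ Reg
    · rw [Set.indicator_of_mem hq]
      have h1 : ∀ g : ℝ × ℝ, (Ez (cN n) ω0).indicator (fun z => ENNReal.ofReal K1 *
        ENNReal.ofReal (Lf n z.2 - 4734 / 10000)) (g, q) = (ell (cN n) ω0 q.1 q.2.1 q.2.2).indicator
        (fun _ => ENNReal.ofReal K1 * ENNReal.ofReal (Lf n q - 4734 / 10000)) g := by
        intro g
        by_cases hg : g ∈ ell (cN n) ω0 q.1 q.2.1 q.2.2
        · rw [Set.indicator_of_mem hg, Set.indicator_of_mem (show (g, q) ∈ Ez (cN n) ω0 from ⟨hq, hg⟩)]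
        · rw [Set.indicator_of_notMem hg, Set.indicator_of_notMem]
          intro h; exact hg h.2
      simp only [h1]
      rw [lintegral_indicator_const (meas_ell _ _ _ _ _)]
      refine le_trans ?_ (mul_le_mul_right (ell_measure n hq) _)
      have hT1 : 948 / 1000 < q.1 - rad q := hq.1
      have hT2 : q.1 ≤ 4 := hq.2
      have hr := rad_nonneg q
      have hD := det_ge hq
      have hL : (q.1 - rad q) / 2 - 474 / 1000 ≤ Lf n q - 4734 / 10000 := by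
        unfold Lf η0 ρ0
        have : 9999 / 10000 * (q.1 - rad q) ≤ cN n * (q.1 - rad q) :=
          mul_le_mul_of_nonneg_right hcge (by linarith)
        norm_num
        linarith
      rw [← ENNReal.ofReal_mul (mul_nonneg K1_nonneg (K2_nonneg n)), ← ENNReal.ofReal_mul K1_nonneg,
        ← ENNReal.ofReal_mul (mul_nonneg K1_nonneg
          (by linarith : (0 : ℝ) ≤ Lf n q - 4734 / 10000))]
      apply ENNReal.ofReal_le_ofReal
      unfold vl
      have h5 : 0 ≤ K1 * K2 n * (q.1 ^ 2 - q.2.1 ^ 2 - q.2.2 ^ 2) :=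
        mul_nonneg (mul_nonneg K1_nonneg (K2_nonneg n)) hD.le
      calc K1 * K2 n * ((q.1 ^ 2 - q.2.1 ^ 2 - q.2.2 ^ 2) * ((q.1 - rad q) / 2 - 474 / 1000)) =
          K1 * K2 n * (q.1 ^ 2 - q.2.1 ^ 2 - q.2.2 ^ 2) * ((q.1 - rad q) / 2 - 474 / 1000) := by ring
        _ ≤ K1 * K2 n * (q.1 ^ 2 - q.2.1 ^ 2 - q.2.2 ^ 2) * (Lf n q - 4734 / 10000) :=
          mul_le_mul_of_nonneg_left hL h5
        _ = _ := by ring
    · rw [Set.indicator_of_notMem hq, mul_zero]; exact zero_le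
  refine le_trans ?_ (lintegral_mono key)
  rw [lintegral_const_mul' _ _ ENNReal.ofReal_ne_top,
    ENNReal.ofReal_mul (mul_nonneg K1_nonneg (K2_nonneg n))]
  gcongr
  exact cells

lemma Sx_ge (n : ℕ) (hn : 9998 ≤ n) : ENNReal.ofReal (K1 * K2 n * (287 / 10000)) ≤
    μc (n + 2) (Sx n) :=
  (step3 n hn).trans ((lintegral_mono (step2 n)).trans (step1 n))

lemma numeric (n : ℕ) (hn : 9998 ≤ n) : δ0 ^ 2 / 2000 ≤ K1 * K2 n * (287 / 10000) := by
  have hcge : (9999 / 10000 : ℝ) ≤ cN n := by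
    have h1 := cN_ge n
    have h2 : (1 : ℝ) / ((n + 2 : ℕ) : ℝ) ≤ 1 / 10000 := by
      apply one_div_le_one_div_of_le (by norm_num)
      have : (10000 : ℕ) ≤ n + 2 := by omega
      exact_mod_cast this
    linarith
  have hδ : 0 < δ0 := by unfold δ0; norm_num
  have h1 : 39894 / 100000 * (9838 / 10000) * (9 / 100) ≤ K1 := by
    unfold K1
    have e1 : (9838 / 10000 : ℝ) ≤ Real.exp (-(18 / 100) ^ 2 / 2) := by
      have := Real.add_one_le_exp (-(18 / 100 : ℝ) ^ 2 / 2)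
      norm_num at this ⊢
      linarith
    have e2 : (39894 / 100000 : ℝ) * (9838 / 10000) ≤ nc * Real.exp (-(18 / 100) ^ 2 / 2) :=
      mul_le_mul nc_ge e1 (by norm_num) nc_pos.le
    have e3 : (ρ0 ^ 2 : ℝ) = 9 / 100 := by unfold ρ0; norm_num
    rw [e3]
    linarith
  have h2 : 1 / 2 * (9999 / 10000) * ((199 / 200) ^ 2 * δ0 ^ 2 * (9999 / 10000) ^ 2) ≤ K2 n := by
    unfold K2
    have e1 : (9999 / 10000 : ℝ) ≤ Real.exp (-(8 * ω0) ^ 2 / 2) := by
      have := Real.add_one_le_exp (-(8 * ω0 : ℝ) ^ 2 / 2)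
      have e2 : (8 * ω0 : ℝ) ^ 2 ≤ 1 / 10000 := by unfold ω0 ε0 δ0; norm_num
      linarith
    have e3 : (ω0 * cN n) ^ 2 = (199 / 200) ^ 2 * δ0 ^ 2 * (cN n) ^ 2 := by
      unfold ω0 ε0; ring
    have e4 : (9999 / 10000 : ℝ) ^ 2 ≤ cN n ^ 2 := pow_le_pow_left₀ (by norm_num) hcge 2
    rw [e3]
    have e5 : (2 * Real.pi)⁻¹ * Real.exp (-(8 * ω0) ^ 2 / 2) * (Real.pi * ((199 / 200) ^ 2 * δ0 ^ 2 *
        (cN n) ^ 2)) = 1 / 2 * Real.exp (-(8 * ω0) ^ 2 / 2) * ((199 / 200) ^ 2 * δ0 ^ 2 *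
        (cN n) ^ 2) := by
      have : Real.pi ≠ 0 := Real.pi_ne_zero
      field_simp
    rw [e5]
    gcongr
  calc δ0 ^ 2 / 2000 ≤ (39894 / 100000 * (9838 / 10000) * (9 / 100)) *
      (1 / 2 * (9999 / 10000) * ((199 / 200) ^ 2 * δ0 ^ 2 * (9999 / 10000) ^ 2)) * (287 / 10000) := by
        have : 0 ≤ δ0 ^ 2 := by positivity
        norm_num
        linarith
    _ ≤ _ := by
        gcongr

end Run7.h255.Kost
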