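import Mathlib
import Pool.Agent.Run7.h255.Kost.E8

open MeasureTheory ProbabilityTheory
open scoped ENNReal RealInnerProductSpace

namespace Run7.h255.Kost

/-- the rotation of the second order coefficients -/
noncomputable def Wn (n : ℕ) : Co (n + 2) ≃ₗᵢ[ℝ] Co (n + 2) :=
  mix (p := ix (n + 2) 2 0) (q := ix (n + 2) 0 2) (ix_ne (by omega) (by omega) (by omega))

lemma stdGaussian_Gm (n : ℕ) : stdGaussian (Co (n + 2)) (Gm n ρ0 η0 ω0) = μc (n + 2) (Sx n) := by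
  rw [← map_pi_eq_stdGaussian (ι := Idx (n + 2)),
    Measure.map_apply (by fun_prop) (meas_Gm n ρ0 η0 ω0)]
  rfl

lemma good_W (n : ℕ) (b : Co (n + 2)) (hb : Wn n b ∈ Gm n ρ0 η0 ω0) :
    Good (fun x => ⟪b, feat (n + 2) x⟫) (ρ0 / Real.sqrt ((n + 2 : ℕ) : ℝ))
      (δ0 / Real.sqrt ((n + 2 : ℕ) : ℝ)) e0 := by
  have hne : ix (n + 2) 2 0 ≠ ix (n + 2) 0 2 := ix_ne (by omega) (by omega) (by omega)
  have hb2 : b = mixFun (ix (n + 2) 2 0) (ix (n + 2) 0 2) (Wn n b) := by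
    unfold Wn
    rw [mix_apply, mixFun_invol hne]
  refine good_of_Gm n (Wn n b) b hb ?_ ?_ ?_
  · conv_lhs => rw [hb2]
    rw [mixFun_p]
  · conv_lhs => rw [hb2]
    rw [mixFun_q hne]
  · intro i h1 h2
    conv_lhs => rw [hb2]
    rw [mixFun_of_ne h1 h2]

/-- the full good event -/
def Gf (n : ℕ) : Set (Co (n + 2)) :=
  (Wn n ⁻¹' Gm n ρ0 η0 ω0) ∪ ((fun b => Wn n (-b)) ⁻¹' Gm n ρ0 η0 ω0)

lemma meas_G1 (n : ℕ) : MeasurableSet (Wn n ⁻¹' Gm n ρ0 η0 ω0) :=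
  (Wn n).continuous.measurable (meas_Gm _ _ _ _)

lemma meas_G2 (n : ℕ) : MeasurableSet ((fun b => Wn n (-b)) ⁻¹' Gm n ρ0 η0 ω0) :=
  ((Wn n).continuous.comp continuous_neg).measurable (meas_Gm _ _ _ _)

lemma good_Gf (n : ℕ) (b : Co (n + 2)) (hb : b ∈ Gf n) :
    Good (fun x => ⟪b, feat (n + 2) x⟫) (ρ0 / Real.sqrt ((n + 2 : ℕ) : ℝ))
      (δ0 / Real.sqrt ((n + 2 : ℕ) : ℝ)) e0 := by
  rcases hb with hb | hb
  · exact good_W n b hb
  · have h1 := good_W n (-b) hb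
    simp only [inner_neg_left] at h1
    exact good_of_neg h1

lemma disj_G (n : ℕ) : Disjoint (Wn n ⁻¹' Gm n ρ0 η0 ω0)
    ((fun b => Wn n (-b)) ⁻¹' Gm n ρ0 η0 ω0) := by
  rw [Set.disjoint_left]
  rintro b h1 h2
  have h1' := (show Wn n b ∈ Gm n ρ0 η0 ω0 from h1).2.1
  have h2' := (show Wn n (-b) ∈ Gm n ρ0 η0 ω0 from h2).2.1
  have e1 := As'_nonneg n (Wn n b) ρ0_pos.le
  have e2 := As'_nonneg n (Wn n (-b)) ρ0_pos.le
  have hη : 0 < η0 := by unfold η0; norm_num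
  have e3 : 0 ≤ ρ0 ^ 2 * As' n (Wn n b) ρ0 / 2 := by positivity
  have e4 : 0 ≤ ρ0 ^ 2 * As' n (Wn n (-b)) ρ0 / 2 := by positivity
  have e5 : Wn n (-b) (ix (n + 2) 0 0) = -Wn n b (ix (n + 2) 0 0) := by
    rw [map_neg]; rfl
  rw [e5] at h2'
  linarith

lemma Gf_measure (n : ℕ) : stdGaussian (Co (n + 2)) (Gf n) = 2 * μc (n + 2) (Sx n) := by
  unfold Gf
  rw [measure_union (disj_G n) (meas_G2 n)]
  have h1 : stdGaussian (Co (n + 2)) (Wn n ⁻¹' Gm n ρ0 η0 ω0) = μc (n + 2) (Sx n) := by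
    rw [← stdGaussian_Gm]
    have h2 := stdGaussian_map (Wn n)
    conv_rhs => rw [← h2]
    rw [Measure.map_apply (Wn n).continuous.measurable (meas_Gm _ _ _ _)]
  have h3 : stdGaussian (Co (n + 2)) ((fun b => Wn n (-b)) ⁻¹' Gm n ρ0 η0 ω0) =
      μc (n + 2) (Sx n) := by
    rw [← stdGaussian_Gm]
    have h2 := stdGaussian_map ((LinearIsometryEquiv.neg ℝ (E := Co (n + 2))).trans (Wn n))
    conv_rhs => rw [← h2]
    rw [Measure.map_apply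
      ((LinearIsometryEquiv.neg ℝ (E := Co (n + 2))).trans (Wn n)).continuous.measurable
      (meas_Gm _ _ _ _)]
    rfl
  rw [h1, h3, two_mul]

/-- the lower bound for every large degree -/
theorem lower (n : ℕ) (hn : 9998 ≤ n) :
    ENNReal.ofReal (1 / 500) * ((n + 2 : ℕ) : ℝ≥0∞) ≤ expectedComponents (n + 2) := by
  have hδ : 0 < δ0 := by unfold δ0; norm_num
  have hN : (0 : ℝ) < ((n + 2 : ℕ) : ℝ) := by positivity
  have hs : 0 < Real.sqrt ((n + 2 : ℕ) : ℝ) := Real.sqrt_pos.mpr hN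
  have h1 := main_bound (N := n + 2) (r := ρ0 / Real.sqrt ((n + 2 : ℕ) : ℝ))
    (d := δ0 / Real.sqrt ((n + 2 : ℕ) : ℝ)) (by omega) (by positivity) (Gf n)
    ((meas_G1 n).union (meas_G2 n)) (good_Gf n)
  rw [Gf_measure] at h1
  have h2 : ENNReal.ofReal (δ0 ^ 2 / 2000) ≤ μc (n + 2) (Sx n) :=
    (ENNReal.ofReal_le_ofReal (numeric n hn)).trans (Sx_ge n hn)
  have h3 : 2 * ENNReal.ofReal (δ0 ^ 2 / 2000) ≤
      ENNReal.ofReal ((δ0 / Real.sqrt ((n + 2 : ℕ) : ℝ)) ^ 2 / 2) * expectedComponents (n + 2) :=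
    (mul_le_mul_right h2 2).trans h1
  have h4 : (δ0 / Real.sqrt ((n + 2 : ℕ) : ℝ)) ^ 2 / 2 = δ0 ^ 2 / (2 * ((n + 2 : ℕ) : ℝ)) := by
    rw [div_pow, Real.sq_sqrt hN.le]; field_simp
  rw [h4] at h3
  have h5 := mul_le_mul_right h3 (ENNReal.ofReal (2 * ((n + 2 : ℕ) : ℝ) / δ0 ^ 2))
  rw [← mul_assoc, ← mul_assoc, ← ENNReal.ofReal_mul (by positivity)] at h5
  have h6 : 2 * ((n + 2 : ℕ) : ℝ) / δ0 ^ 2 * (δ0 ^ 2 / (2 * ((n + 2 : ℕ) : ℝ))) = 1 := by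
    field_simp
  rw [h6, ENNReal.ofReal_one, one_mul] at h5
  refine le_trans (le_of_eq ?_) h5
  rw [← ENNReal.ofReal_natCast, ← ENNReal.ofReal_mul (by norm_num)]
  rw [show (2 : ℝ≥0∞) = ENNReal.ofReal 2 by simp, ← ENNReal.ofReal_mul (by positivity),
    ← ENNReal.ofReal_mul (by positivity)]
  congr 1
  field_simp
  norm_num

end Run7.h255.Kost
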